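import Pool.Agent.Lib.MP_89b6e6_ag.Blocks

/-!
Adapting coordinates to a decomposition into simple submodules.
-/

namespace Pool.Agent.Lib.BettiInt

open Module

variable {G : Type} [Group G] {r : ℕ}

lemma exists_finset (N : Subgroup G) (ρ : G →* GL (Fin r) ℂ)
    (S : Set (Submodule ℂ (Fin r → ℂ))) (hS : ∀ U ∈ S, SimpleSub N ρ U) (h : sSup S = ⊤) :
    ∃ s : Finset (Submodule ℂ (Fin r → ℂ)), (∀ U ∈ s, U ∈ S) ∧ s.sup id = ⊤ ∧
      ∑ U ∈ s, finrank ℂ U = r := by
  classical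
  have hfr : ∀ U : Submodule ℂ (Fin r → ℂ), finrank ℂ U ≤ r := by
    intro U
    have := Submodule.finrank_le U
    simpa using this
  obtain ⟨s, ⟨hs1, hs2⟩, hmin⟩ := WellFounded.has_min
    (measure (fun s : Finset (Submodule ℂ (Fin r → ℂ)) =>
      r - finrank ℂ (s.sup id : Submodule ℂ (Fin r → ℂ)))).wf
    {s | (∀ U ∈ s, U ∈ S) ∧
      finrank ℂ (s.sup id : Submodule ℂ (Fin r → ℂ)) = ∑ U ∈ s, finrank ℂ U}
    ⟨∅, by simp, by simp⟩
  have htop : s.sup id = ⊤ := by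
    by_contra hne
    have hex : ∃ U ∈ S, ¬ U ≤ s.sup id := by
      by_contra hcon
      push Not at hcon
      apply hne
      rw [eq_top_iff, ← h]
      exact sSup_le hcon
    obtain ⟨U, hU, hUn⟩ := hex
    have hUs := hS U hU
    have hst : ∀ n ∈ N, ∀ u ∈ s.sup id,
        (ρ n : Matrix (Fin r) (Fin r) ℂ).mulVec u ∈ s.sup id := by
      intro n hn u hu
      have : s.sup id ≤ (s.sup id).comap
          (Matrix.mulVecLin (ρ n : Matrix (Fin r) (Fin r) ℂ)) := by
        refine Finset.sup_le fun W hW => ?_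
        intro w hw
        have h1 : (ρ n : Matrix (Fin r) (Fin r) ℂ).mulVec w ∈ W :=
          (hS W (hs1 W hW)).2.1 n hn w hw
        exact (Finset.le_sup (f := id) hW : id W ≤ s.sup id) h1
      exact this hu
    have hinf : U ⊓ s.sup id = ⊥ := by
      rcases hUs.2.2 (U ⊓ s.sup id) inf_le_left (by
        rintro n hn u ⟨hu1, hu2⟩
        exact ⟨hUs.2.1 n hn u hu1, hst n hn u hu2⟩) with h1 | h1
      · exact h1
      · exfalso
        apply hUn
        rw [← h1]
        exact inf_le_right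
    have hUns : U ∉ s := fun hUs' => hUn (Finset.le_sup (f := id) hUs')
    have hadd := Submodule.finrank_sup_add_finrank_inf_eq U (s.sup id)
    rw [hinf, finrank_bot, add_zero] at hadd
    have hpos : 0 < finrank ℂ U := by
      have : Nontrivial U := (Submodule.nontrivial_iff_ne_bot).2 hUs.1
      exact finrank_pos
    refine hmin (insert U s) ⟨?_, ?_⟩ ?_
    · intro W hW
      rcases Finset.mem_insert.1 hW with rfl | hW
      · exact hU
      · exact hs1 W hW
    · rw [Finset.sup_insert, Finset.sum_insert hUns, ← hs2]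
      exact hadd
    · change r - finrank ℂ ((insert U s).sup id : Submodule ℂ (Fin r → ℂ)) <
        r - finrank ℂ (s.sup id : Submodule ℂ (Fin r → ℂ))
      have h1 : finrank ℂ ((insert U s).sup id : Submodule ℂ (Fin r → ℂ)) =
          finrank ℂ U + finrank ℂ (s.sup id : Submodule ℂ (Fin r → ℂ)) := by
        rw [Finset.sup_insert]
        exact hadd
      have h2 := hfr ((insert U s).sup id)
      omega
  refine ⟨s, hs1, htop, ?_⟩
  rw [← hs2, htop]
  simp

section transport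
variable (Q : GL (Fin r) ℂ)

lemma conj_mulVec (ρ : G →* GL (Fin r) ℂ) (g : G) (v : Fin r → ℂ) :
    (Q : Matrix (Fin r) (Fin r) ℂ).mulVec
      ((conj Q⁻¹ ρ g : Matrix (Fin r) (Fin r) ℂ).mulVec v) =
    (ρ g : Matrix (Fin r) (Fin r) ℂ).mulVec ((Q : Matrix (Fin r) (Fin r) ℂ).mulVec v) := by
  have e : (Q : Matrix (Fin r) (Fin r) ℂ) * (conj Q⁻¹ ρ g : Matrix (Fin r) (Fin r) ℂ) =
      (ρ g : Matrix (Fin r) (Fin r) ℂ) * (Q : Matrix (Fin r) (Fin r) ℂ) := by
    have h1 : conj Q⁻¹ ρ g = Q⁻¹ * ρ g * (Q⁻¹)⁻¹ := rfl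
    rw [h1, inv_inv, ← Units.val_mul, ← Units.val_mul]
    congr 1
    group
  rw [Matrix.mulVec_mulVec, e, ← Matrix.mulVec_mulVec]

lemma Q_inv_mulVec (v : Fin r → ℂ) : (Q : Matrix (Fin r) (Fin r) ℂ).mulVec
    (((Q⁻¹ : GL (Fin r) ℂ) : Matrix (Fin r) (Fin r) ℂ).mulVec v) = v := by
  rw [Matrix.mulVec_mulVec, ← Units.val_mul, mul_inv_cancel, Units.val_one, Matrix.one_mulVec]

lemma Q_mulVec_inj {v w : Fin r → ℂ} (h : (Q : Matrix (Fin r) (Fin r) ℂ).mulVec v =
    (Q : Matrix (Fin r) (Fin r) ℂ).mulVec w) : v = w := by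
  have h1 := congrArg (fun x => ((Q⁻¹ : GL (Fin r) ℂ) : Matrix (Fin r) (Fin r) ℂ).mulVec x) h
  simp only [Matrix.mulVec_mulVec, ← Units.val_mul, inv_mul_cancel, Units.val_one,
    Matrix.one_mulVec] at h1
  exact h1

lemma simple_conj (N : Subgroup G) (ρ : G →* GL (Fin r) ℂ) (U W : Submodule ℂ (Fin r → ℂ))
    (hU : SimpleSub N ρ U)
    (hW : ∀ v, v ∈ W ↔ (Q : Matrix (Fin r) (Fin r) ℂ).mulVec v ∈ U) :
    SimpleSub N (conj Q⁻¹ ρ) W := by
  refine ⟨?_, ?_, ?_⟩
  · intro h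
    obtain ⟨u, hu, hu0⟩ := Submodule.exists_mem_ne_zero_of_ne_bot hU.1
    have h1 : ((Q⁻¹ : GL (Fin r) ℂ) : Matrix (Fin r) (Fin r) ℂ).mulVec u ∈ W := by
      rw [hW, Q_inv_mulVec]
      exact hu
    rw [h, Submodule.mem_bot] at h1
    apply hu0
    rw [← Q_inv_mulVec Q u, h1, Matrix.mulVec_zero]
  · intro n hn u hu
    rw [hW, conj_mulVec]
    exact hU.2.1 n hn _ ((hW u).1 hu)
  · intro U' hU' hst
    rcases hU.2.2 (U'.map (Matrix.mulVecLin (Q : Matrix (Fin r) (Fin r) ℂ))) (by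
      rintro _ ⟨u, hu, rfl⟩
      exact (hW u).1 (hU' hu)) (by
      rintro n hn _ ⟨u, hu, rfl⟩
      refine ⟨(conj Q⁻¹ ρ n : Matrix (Fin r) (Fin r) ℂ).mulVec u, hst n hn u hu, ?_⟩
      exact conj_mulVec Q ρ n u) with h | h
    · left
      rw [Submodule.eq_bot_iff]
      intro u hu
      have h1 : (Q : Matrix (Fin r) (Fin r) ℂ).mulVec u ∈
          U'.map (Matrix.mulVecLin (Q : Matrix (Fin r) (Fin r) ℂ)) := ⟨u, hu, rfl⟩
      rw [h, Submodule.mem_bot] at h1
      exact Q_mulVec_inj Q (by rw [h1, Matrix.mulVec_zero])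
    · right
      refine le_antisymm hU' ?_
      intro w hw
      have h1 := (hW w).1 hw
      rw [← h] at h1
      obtain ⟨u, hu, hu2⟩ := h1
      rw [← Q_mulVec_inj Q hu2]
      exact hu

lemma pi_conj (N : Subgroup G) (ρ : G →* GL (Fin r) ℂ) (U W : Submodule ℂ (Fin r → ℂ))
    (hU : ProjIntegral N ρ U)
    (hW : ∀ v, v ∈ W ↔ (Q : Matrix (Fin r) (Fin r) ℂ).mulVec v ∈ U) :
    ProjIntegral N (conj Q⁻¹ ρ) W := by
  intro O
  obtain ⟨L, hfg, hspan, hhom⟩ := hU O
  let q : (Fin r → ℂ) →ₗ[ℂ] (Fin r → ℂ) :=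
    Matrix.mulVecLin ((Q⁻¹ : GL (Fin r) ℂ) : Matrix (Fin r) (Fin r) ℂ)
  have hqQ : ∀ v, q ((Q : Matrix (Fin r) (Fin r) ℂ).mulVec v) = v := by
    intro v
    change ((Q⁻¹ : GL (Fin r) ℂ) : Matrix (Fin r) (Fin r) ℂ).mulVec
      ((Q : Matrix (Fin r) (Fin r) ℂ).mulVec v) = v
    rw [Matrix.mulVec_mulVec, ← Units.val_mul, inv_mul_cancel, Units.val_one, Matrix.one_mulVec]
  have hWmap : W = U.map q := by
    ext w
    rw [hW]
    constructor
    · intro h
      exact ⟨_, h, hqQ w⟩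
    · rintro ⟨u, hu, rfl⟩
      have : (Q : Matrix (Fin r) (Fin r) ℂ).mulVec (q u) = u := Q_inv_mulVec Q u
      rw [this]
      exact hu
  refine ⟨L.map (q.restrictScalars O), hfg.map _, ?_, ?_⟩
  · rw [Submodule.map_coe, hWmap, ← hspan, Submodule.map_span]
    rfl
  · intro n hn
    obtain ⟨c, hc0, hc⟩ := hhom n hn
    refine ⟨c, hc0, ?_⟩
    have hq : ∀ u, c • (conj Q⁻¹ ρ n : Matrix (Fin r) (Fin r) ℂ).mulVec (q u) =
        q (c • (ρ n : Matrix (Fin r) (Fin r) ℂ).mulVec u) := by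
      intro u
      refine Q_mulVec_inj Q ?_
      rw [Matrix.mulVec_smul, conj_mulVec]
      have h1 : (Q : Matrix (Fin r) (Fin r) ℂ).mulVec (q u) = u := Q_inv_mulVec Q u
      have h2 : (Q : Matrix (Fin r) (Fin r) ℂ).mulVec
        (q (c • (ρ n : Matrix (Fin r) (Fin r) ℂ).mulVec u)) = _ := Q_inv_mulVec Q _
      rw [h1, h2]
    ext w
    constructor
    · rintro ⟨_, ⟨u, hu, rfl⟩, rfl⟩
      refine ⟨c • (ρ n : Matrix (Fin r) (Fin r) ℂ).mulVec u, ?_, ?_⟩
      · rw [← hc]; exact ⟨u, hu, rfl⟩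
      · exact (hq u).symm
    · rintro ⟨u, hu, rfl⟩
      rw [← hc] at hu
      obtain ⟨u', hu', rfl⟩ := hu
      exact ⟨q u', ⟨u', hu', rfl⟩, hq u'⟩

end transport

theorem exists_blocks (N : Subgroup G) (ρ : G →* GL (Fin r) ℂ)
    (h : sSup {U | SimpleSub N ρ U ∧ ProjIntegral N ρ U} = ⊤) :
    ∃ (ρ' : G →* GL (Fin r) ℂ) (β : Fin r → ℕ), SameInv ρ ρ' ∧ BlockOn N ρ' β ∧
      (∀ i, SimpleSub N ρ' (cs β (β i))) ∧ ∀ i, ProjIntegral N ρ' (cs β (β i)) := by
  classical
  obtain ⟨s, hs1, hs2, hs3⟩ := exists_finset N ρ _ (fun U hU => hU.1) h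
  let ι : Type := Σ U : s, Fin (finrank ℂ (U : Submodule ℂ (Fin r → ℂ)))
  let b : ι → (Fin r → ℂ) := fun p => (finBasis ℂ (p.1 : Submodule ℂ (Fin r → ℂ)) p.2 : _)
  have hcard : Fintype.card ι = r := by
    rw [Fintype.card_sigma]
    simp only [Fintype.card_fin]
    exact (Finset.sum_coe_sort s (fun U => finrank ℂ U)).trans hs3
  have hspanU : ∀ U : s, (U : Submodule ℂ (Fin r → ℂ)) =
      Submodule.span ℂ (b '' {p | p.1 = U}) := by
    intro U
    have h1 := (finBasis ℂ (U : Submodule ℂ (Fin r → ℂ))).span_eq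
    have h2 := congrArg (fun W => W.map (U : Submodule ℂ (Fin r → ℂ)).subtype) h1
    simp only [Submodule.map_span, Submodule.map_subtype_top] at h2
    rw [← h2]
    congr 1
    ext v
    constructor
    · rintro ⟨_, ⟨i, rfl⟩, rfl⟩
      exact ⟨⟨U, i⟩, rfl, rfl⟩
    · rintro ⟨⟨U', i⟩, hU', rfl⟩
      change U' = U at hU'
      subst hU'
      exact ⟨_, ⟨i, rfl⟩, rfl⟩
  have hspan : ⊤ ≤ Submodule.span ℂ (Set.range b) := by
    rw [← hs2]
    refine Finset.sup_le fun U hU => ?_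
    have hU2 : id U = _ := hspanU ⟨U, hU⟩
    rw [hU2]
    refine Submodule.span_mono ?_
    rintro _ ⟨p, _, rfl⟩
    exact ⟨p, rfl⟩
  have hli : LinearIndependent ℂ b :=
    linearIndependent_of_top_le_span_of_card_eq_finrank hspan (by rw [hcard]; simp)
  let e : ι ≃ Fin r := Fintype.equivFinOfCardEq hcard
  let B' : Module.Basis (Fin r) ℂ (Fin r → ℂ) := (Module.Basis.mk hli hspan).reindex e
  have hB' : ∀ a, B' a = b (e.symm a) := by
    intro a
    rw [Module.Basis.reindex_apply, Module.Basis.mk_apply]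
  let B := Pi.basisFun ℂ (Fin r)
  let Q : GL (Fin r) ℂ :=
    { val := B.toMatrix B'
      inv := B'.toMatrix B
      val_inv := Module.Basis.toMatrix_mul_toMatrix_flip B B'
      inv_val := Module.Basis.toMatrix_mul_toMatrix_flip B' B }
  have hQ : ∀ v : Fin r → ℂ, (Q : Matrix (Fin r) (Fin r) ℂ).mulVec v = ∑ a, v a • B' a := by
    intro v
    ext k
    rw [Matrix.mulVec, dotProduct, Finset.sum_apply]
    refine Finset.sum_congr rfl fun a _ => ?_
    rw [Pi.smul_apply, smul_eq_mul, mul_comm]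
    simp [Q, B, Module.Basis.toMatrix_apply]
  let β : Fin r → ℕ := fun a => (s.equivFin (e.symm a).1 : ℕ)
  have hβ : ∀ a c, β a = β c ↔ (e.symm a).1 = (e.symm c).1 := by
    intro a c
    constructor
    · intro hac
      exact s.equivFin.injective (Fin.ext hac)
    · intro hac
      simp only [β, hac]
  have hcs : ∀ a v, v ∈ cs β (β a) ↔
      (Q : Matrix (Fin r) (Fin r) ℂ).mulVec v ∈ ((e.symm a).1 : Submodule ℂ (Fin r → ℂ)) := by
    intro a v
    constructor
    · intro hv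
      rw [hQ]
      refine Submodule.sum_mem _ fun c _ => ?_
      by_cases hc : β c = β a
      · refine Submodule.smul_mem _ _ ?_
        rw [hB', hspanU]
        exact Submodule.subset_span ⟨e.symm c, (hβ c a).1 hc, rfl⟩
      · rw [hv c hc, zero_smul]
        exact Submodule.zero_mem _
    · intro hv
      have hle : ((e.symm a).1 : Submodule ℂ (Fin r → ℂ)) ≤
          (cs β (β a)).map (Matrix.mulVecLin (Q : Matrix (Fin r) (Fin r) ℂ)) := by
        conv_lhs => rw [hspanU]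
        refine Submodule.span_le.2 ?_
        rintro _ ⟨p, hp, rfl⟩
        refine ⟨Pi.single (e p) 1, ?_, ?_⟩
        · intro l hl
          have : l ≠ e p := by
            rintro rfl
            apply hl
            rw [hβ, Equiv.symm_apply_apply]
            exact hp
          simp [this]
        · rw [Matrix.mulVecLin_apply, hQ]
          rw [Finset.sum_eq_single (e p)]
          · rw [Pi.single_eq_same, one_smul, hB', Equiv.symm_apply_apply]
          · intro l _ hl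
            rw [Pi.single_eq_of_ne hl, zero_smul]
          · intro hh
            exact absurd (Finset.mem_univ _) hh
      obtain ⟨w, hw, hw2⟩ := hle hv
      rw [← Q_mulVec_inj Q hw2]
      exact hw
  have hsimp : ∀ i, SimpleSub N (conj Q⁻¹ ρ) (cs β (β i)) := fun i =>
    simple_conj Q N ρ _ _ (hs1 _ (e.symm i).1.2).1 (hcs i)
  refine ⟨conj Q⁻¹ ρ, β, sameInv_conj _ _, ?_, hsimp, fun i =>
    pi_conj Q N ρ _ _ (hs1 _ (e.symm i).1.2).2 (hcs i)⟩
  intro n hn i j hij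
  have hmem : Pi.single j (1 : ℂ) ∈ cs β (β j) := by
    intro l hl
    have : l ≠ j := fun h => hl (by rw [h])
    simp [this]
  have h1 := (hsimp j).2.1 n hn _ hmem i hij
  rwa [Matrix.mulVec_single_one] at h1

/-- **Main theorem, twisting form.** -/
theorem main_twist [Group.FG G] (W : Set (MB G r)) (ρ : G →* GL (Fin r) ℂ)
    (h1 : ∀ W' ∈ irreducibleComponents (MB G r), pt ρ ∈ W' → W' = W)
    (N : Subgroup G) [N.Normal] [N.FiniteIndex]
    (hN : sSup {U | SimpleSub N ρ U ∧ ProjIntegral N ρ U} = ⊤) :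
    ∃ (φ : Inv G r →+* integralClosure ℤ ℂ) (ρ₀ : G →* GL (Fin r) ℂ),
      zbarPoint φ ∈ W ∧ zbarPoint φ = pt ρ₀ := by
  classical
  obtain ⟨ρ', β, hsame, hB, hS, hP⟩ := exists_blocks N ρ hN
  have hfin : Finite (G ⧸ N) := Subgroup.finite_quotient_of_finiteIndex
  have : Fintype (G ⧸ N) := Fintype.ofFinite _
  obtain ⟨L, hL, hL2⟩ := exists_log
  have hint := twist_integral hB hS hP L hL hL2
  set Θ := twist (twistData hB hS) r.factorial L hL with hΘ
  have hpt : pt (mapRep (evalZ 1 : Ent →+* ℂ) Θ) ∈ W := by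
    refine family_point Θ (evalZ 0) (evalZ 1) W ?_
    intro W' hW' hpt
    refine h1 W' hW' ?_
    rw [pt_eq_of_sameInv hsame]
    have h0 : mapRep (evalZ 0 : Ent →+* ℂ) Θ = ρ' := twist_zero _ _ L hL
    rw [h0] at hpt
    exact hpt
  let φ : Inv G r →+* integralClosure ℤ ℂ :=
    ((ev (mapRep (evalZ 1 : Ent →+* ℂ) Θ)).comp (Inv G r).subtype).codRestrict
      (integralClosure ℤ ℂ).toSubring (fun f => hint f.1 f.2)
  have hφ : zbarPoint φ = pt (mapRep (evalZ 1 : Ent →+* ℂ) Θ) := by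
    unfold zbarPoint pt
    congr 1
  exact ⟨φ, mapRep (evalZ 1 : Ent →+* ℂ) Θ, by rw [hφ]; exact hpt, hφ⟩

end Pool.Agent.Lib.BettiInt
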