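import Mathlib

/-!
A logarithm that is a group homomorphism, and the ring of entire functions.
-/

namespace Pool.Agent.Lib.BettiInt

open Complex

lemma exists_q : ∃ q : ℂ →ₗ[ℚ] ℚ, q (2 * Real.pi * I) = 1 := by
  have hne : (2 * Real.pi * I : ℂ) ≠ 0 := Complex.two_pi_I_ne_zero
  obtain ⟨g, hg⟩ := LinearMap.exists_leftInverse_of_injective
    (LinearMap.toSpanSingleton ℚ ℂ (2 * Real.pi * I)) (LinearMap.ker_toSpanSingleton ℚ hne)
  refine ⟨g, ?_⟩
  have := congrArg (fun φ : ℚ →ₗ[ℚ] ℚ => φ 1) hg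
  simpa using this

/-- There is a homomorphism `L` from the multiplicative group of `ℂ` to its additive group with
`exp (L x)` equal to `x` times a root of unity. -/
theorem exists_log : ∃ L : ℂ → ℂ, (∀ x y, x ≠ 0 → y ≠ 0 → L (x * y) = L x + L y) ∧
    (∀ x, x ≠ 0 → ∃ M : ℕ, 0 < M ∧ exp (L x) ^ M = x ^ M) := by
  obtain ⟨q, hq⟩ := exists_q
  refine ⟨fun x => log x - (q (log x) : ℂ) * (2 * Real.pi * I), ?_, ?_⟩
  · intro x y hx hy
    have h1 : exp (log (x * y)) = exp (log x + log y) := by
      rw [exp_log (mul_ne_zero hx hy), exp_add, exp_log hx, exp_log hy]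
    obtain ⟨n, hn⟩ := (exp_eq_exp_iff_exists_int).1 h1
    have h2 : q (log (x * y)) = q (log x) + q (log y) + n := by
      have h3 : (n : ℂ) * (2 * Real.pi * I) = (n : ℚ) • (2 * Real.pi * I : ℂ) := by
        rw [Rat.smul_def]; push_cast; ring
      rw [hn, h3, map_add, map_add, map_smul, hq, smul_eq_mul, mul_one]
    simp only
    rw [h2, hn]
    push_cast
    ring
  · intro x hx
    refine ⟨(q (log x)).den, (q (log x)).pos, ?_⟩
    rw [exp_sub, exp_log hx, div_pow]
    have h1 : exp ((q (log x) : ℂ) * (2 * Real.pi * I)) ^ (q (log x)).den = 1 := by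
      rw [← exp_nat_mul, Complex.exp_eq_one_iff]
      refine ⟨(q (log x)).num, ?_⟩
      have h2 : ((q (log x)).den : ℂ) * (q (log x) : ℂ) = ((q (log x)).num : ℂ) := by
        have := Rat.den_mul_eq_num (q (log x))
        exact_mod_cast congrArg (fun z : ℚ => (z : ℂ)) this
      rw [← mul_assoc, h2]
    rw [h1, div_one]

/-- The ring of entire functions. -/
def Ent : Subalgebra ℂ (ℂ → ℂ) where
  carrier := {f | Differentiable ℂ f}
  mul_mem' := fun ha hb => Differentiable.mul ha hb
  add_mem' := fun ha hb => Differentiable.add ha hb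
  algebraMap_mem' := fun c => differentiable_const c

instance : IsDomain Ent := by
  have : NoZeroDivisors Ent := by
    constructor
    rintro ⟨f, hf⟩ ⟨g, hg⟩ h
    have hfg : ∀ z, f z * g z = 0 := by
      intro z
      exact congrFun (congrArg Subtype.val h) z
    by_cases hf0 : f = 0
    · left; exact Subtype.ext hf0
    · right
      obtain ⟨z₀, hz₀⟩ := Function.ne_iff.1 hf0
      have hfd : Differentiable ℂ f := hf
      have hgd : Differentiable ℂ g := hg
      have h1 : ∀ᶠ z in nhds z₀, f z ≠ 0 :=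
        hfd.continuous.continuousAt.eventually_ne hz₀
      have h2 : ∀ᶠ z in nhds z₀, g z = (0 : ℂ → ℂ) z := by
        filter_upwards [h1] with z hz
        exact (mul_eq_zero.1 (hfg z)).resolve_left hz
      have h3 : AnalyticOnNhd ℂ g Set.univ := fun z _ => hgd.analyticAt z
      have h4 : AnalyticOnNhd ℂ (0 : ℂ → ℂ) Set.univ := fun z _ => analyticAt_const
      have h5 := h3.eq_of_eventuallyEq h4 h2
      exact Subtype.ext h5
  exact NoZeroDivisors.to_isDomain Ent

/-- evaluation of an entire function -/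
def evalZ (z : ℂ) : Ent →ₐ[ℂ] ℂ := (Pi.evalAlgHom ℂ (fun _ : ℂ => ℂ) z).comp Ent.val

lemma evalZ_apply (z : ℂ) (f : Ent) : evalZ z f = (f : ℂ → ℂ) z := rfl

end Pool.Agent.Lib.BettiInt
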