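import Mathlib

/-!
Mal'cev step: a group with solvable image acting on a finite dimensional complex space such that
every finite index subgroup acts irreducibly acts by scalars.
-/

namespace Pool.Agent.Lib.BettiInt

open Module

section
variable {N : Type} [Group N]

lemma finIdx {α : Type} (K : Subgroup N) (F : N → α) (hF : (Set.range F).Finite)
    (h : ∀ n m, F n = F m → n⁻¹ * m ∈ K) : K.FiniteIndex := by
  classical
  have : Finite (Set.range F) := hF
  have : Finite (N ⧸ K) := by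
    refine Finite.of_injective (fun q : N ⧸ K => (⟨F q.out, q.out, rfl⟩ : Set.range F)) ?_
    intro q q' hq
    have h1 : F q.out = F q'.out := by simpa using hq
    have := h _ _ h1
    rw [← QuotientGroup.eq] at this
    simpa using this
  exact Subgroup.finiteIndex_of_finite_quotient

variable {V : Type} [AddCommGroup V] [Module ℂ V] [FiniteDimensional ℂ V]

/-- every finite index subgroup acts irreducibly -/
def SIrr (τ : N →* Module.End ℂ V) : Prop :=
  ∀ K : Subgroup N, K.FiniteIndex → ∀ U : Submodule ℂ V,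
    (∀ k ∈ K, ∀ u ∈ U, τ k u ∈ U) → U = ⊥ ∨ U = ⊤

variable (τ : N →* Module.End ℂ V)

lemma schur [Nontrivial V] (hτ : SIrr τ) (K : Subgroup N) (hK : K.FiniteIndex)
    (X : Module.End ℂ V) (hX : ∀ k ∈ K, τ k * X = X * τ k) : ∃ c : ℂ, X = c • 1 := by
  obtain ⟨c, hc⟩ := Module.End.exists_eigenvalue X
  refine ⟨c, ?_⟩
  rcases hτ K hK (Module.End.eigenspace X c) (by
    intro k hk u hu
    rw [Module.End.mem_eigenspace_iff] at hu ⊢
    have := congrArg (fun Y : Module.End ℂ V => Y u) (hX k hk)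
    simp only [Module.End.mul_apply] at this
    rw [← this, hu, map_smul]) with h | h
  · exact absurd h (by
      rw [← ne_eq]
      exact hc)
  · ext v
    have : v ∈ Module.End.eigenspace X c := by rw [h]; trivial
    rw [Module.End.mem_eigenspace_iff] at this
    simpa using this

omit [FiniteDimensional ℂ V] in
lemma sand (a a' b b' : N) (X : Module.End ℂ V) :
    τ a * (τ a' * X * τ b') * τ b = τ (a * a') * X * τ (b' * b) := by
  simp only [map_mul, mul_assoc]

omit [FiniteDimensional ℂ V] in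
lemma tau_inv_mul (n : N) : τ n⁻¹ * τ n = 1 := by rw [← map_mul]; simp
omit [FiniteDimensional ℂ V] in
lemma tau_mul_inv (n : N) : τ n * τ n⁻¹ = 1 := by rw [← map_mul]; simp

lemma finiteOrbit [Nontrivial V] (hτ : SIrr τ) (X : Module.End ℂ V)
    (hX : (Set.range (fun n : N => τ n * X * τ n⁻¹)).Finite) : ∃ c : ℂ, X = c • 1 := by
  let K : Subgroup N :=
    { carrier := {n | τ n * X = X * τ n}
      mul_mem' := by
        intro a b ha hb
        simp only [Set.mem_ofPred_eq, map_mul] at *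
        rw [mul_assoc, hb, ← mul_assoc, ha, mul_assoc]
      one_mem' := by simp
      inv_mem' := by
        intro a ha
        simp only [Set.mem_ofPred_eq] at *
        calc τ a⁻¹ * X = τ a⁻¹ * (X * τ a) * τ a⁻¹ := by
              rw [mul_assoc, mul_assoc, tau_mul_inv, mul_one]
          _ = τ a⁻¹ * (τ a * X) * τ a⁻¹ := by rw [ha]
          _ = X * τ a⁻¹ := by rw [← mul_assoc, tau_inv_mul, one_mul] }
  have hK : K.FiniteIndex := by
    refine finIdx K (fun n : N => τ n * X * τ n⁻¹) hX ?_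
    intro n m h
    change τ (n⁻¹ * m) * X = X * τ (n⁻¹ * m)
    rw [map_mul]
    calc τ n⁻¹ * τ m * X = τ n⁻¹ * (τ m * X * τ m⁻¹) * τ m := by
          rw [sand, inv_mul_cancel, map_one, mul_one, map_mul]
      _ = τ n⁻¹ * (τ n * X * τ n⁻¹) * τ m := by rw [h]
      _ = X * (τ n⁻¹ * τ m) := by
          rw [sand, inv_mul_cancel, map_one, one_mul, map_mul]
  exact schur τ hτ K hK X (fun k hk => hk)

/-- Finitely many simultaneous eigencharacters of a commuting family. -/
lemma finite_chars {ι : Type} {E : Type} [AddCommGroup E] [Module ℂ E] [FiniteDimensional ℂ E]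
    (f : ι → Module.End ℂ E) (hf : ∀ i j, f i * f j = f j * f i) :
    {χ : ι → ℂ | ∃ v : E, v ≠ 0 ∧ ∀ i, f i v = χ i • v}.Finite := by
  have h1 := Module.End.independent_iInf_maxGenEigenspace_of_forall_mapsTo f (by
    intro i j φ
    exact Module.End.mapsTo_maxGenEigenspace_of_comm (hf j i) φ)
  have h2 := WellFoundedGT.finite_ne_bot_of_iSupIndep h1
  refine h2.subset ?_
  rintro χ ⟨v, hv, hvχ⟩
  simp only [Set.mem_ofPred_eq]
  intro hb
  apply hv
  have : v ∈ ⨅ i, (f i).maxGenEigenspace (χ i) := by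
    rw [Submodule.mem_iInf]
    intro i
    refine (Module.End.mem_maxGenEigenspace _ _ _).2 ⟨1, ?_⟩
    simp [hvχ i]
  rw [hb] at this
  simpa using this

/-- A commuting family has a common eigenvector. -/
lemma common_eigenvector {ι : Type} {E : Type} [AddCommGroup E] [Module ℂ E]
    [FiniteDimensional ℂ E] [Nontrivial E]
    (f : ι → Module.End ℂ E) (hf : ∀ i j, f i * f j = f j * f i) :
    ∃ v : E, v ≠ 0 ∧ ∃ χ : ι → ℂ, ∀ i, f i v = χ i • v := by
  classical
  obtain ⟨U, ⟨hU0, hUst⟩, hUmin⟩ := WellFounded.has_min (α := Submodule ℂ E) wellFounded_lt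
    {U : Submodule ℂ E | U ≠ ⊥ ∧ ∀ i, ∀ u ∈ U, f i u ∈ U}
    ⟨⊤, top_ne_bot, fun _ _ _ => trivial⟩
  have hnt : Nontrivial U := (Submodule.nontrivial_iff_ne_bot).2 hU0
  have key : ∀ i, ∃ c : ℂ, ∀ u ∈ U, f i u = c • u := by
    intro i
    obtain ⟨c, hc⟩ := Module.End.exists_eigenvalue ((f i).restrict (hUst i))
    refine ⟨c, ?_⟩
    obtain ⟨w, hw⟩ := hc.exists_hasEigenvector
    let U' : Submodule ℂ E := U ⊓ Module.End.eigenspace (f i) c
    have hU'1 : U' ≠ ⊥ := by
      intro h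
      have : (w : E) ∈ U' := by
        refine ⟨w.2, ?_⟩
        rw [SetLike.mem_coe, Module.End.mem_eigenspace_iff]
        have := hw.apply_eq_smul
        exact congrArg Subtype.val this
      rw [h] at this
      apply hw.2
      ext
      simpa using this
    have hU'2 : ∀ j, ∀ u ∈ U', f j u ∈ U' := by
      rintro j u ⟨hu1, hu2⟩
      refine ⟨hUst j u hu1, ?_⟩
      rw [SetLike.mem_coe, Module.End.mem_eigenspace_iff] at hu2 ⊢
      have := congrArg (fun Y : Module.End ℂ E => Y u) (hf i j)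
      simp only [Module.End.mul_apply] at this
      rw [this, hu2, map_smul]
    have hle : U' ≤ U := inf_le_left
    have heq : U' = U := by
      by_contra hne
      exact hUmin U' ⟨hU'1, hU'2⟩ (lt_of_le_of_ne hle hne)
    intro u hu
    rw [← heq] at hu
    have := hu.2
    rwa [SetLike.mem_coe, Module.End.mem_eigenspace_iff] at this
  obtain ⟨v, hvU, hv0⟩ := Submodule.exists_mem_ne_zero_of_ne_bot hU0
  choose χ hχ using key
  exact ⟨v, hv0, χ, fun i => hχ i v hvU⟩

/-- A normal subgroup with commuting images acts by scalars. -/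
lemma normal_comm_scalar [Nontrivial V] (hτ : SIrr τ) (A : Subgroup N) [A.Normal]
    (hA : ∀ a ∈ A, ∀ b ∈ A, τ a * τ b = τ b * τ a) : ∀ a ∈ A, ∃ c : ℂ, τ a = c • 1 := by
  classical
  obtain ⟨v, hv0, χ, hχ⟩ := common_eigenvector (fun a : A => τ a)
    (fun a b => hA a a.2 b b.2)
  have hfin := finite_chars (fun a : A => τ a) (fun a b => hA a a.2 b b.2)
  have hmove : ∀ (n : N) (a : A) (w : V) (χ' : A → ℂ), (∀ a : A, τ a w = χ' a • w) →
      τ a (τ n w) = χ' (MulAut.conjNormal n⁻¹ a) • τ n w := by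
    intro n a w χ' hw
    have h1 : τ (a : N) * τ n = τ n * τ (MulAut.conjNormal n⁻¹ a : A) := by
      rw [← map_mul, ← map_mul, MulAut.conjNormal_apply]
      congr 1
      group
    have h2 := congrArg (fun Y : Module.End ℂ V => Y w) h1
    simp only [Module.End.mul_apply] at h2
    rw [h2, hw, map_smul]
  let K : Subgroup N :=
    { carrier := {n | ∀ a : A, χ (MulAut.conjNormal n⁻¹ a) = χ a}
      mul_mem' := by
        intro x y hx hy a
        rw [mul_inv_rev, map_mul, MulAut.mul_apply, hy, hx]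
      one_mem' := by
        intro a
        simp
      inv_mem' := by
        intro x hx a
        have := hx (MulAut.conjNormal x a)
        rw [← MulAut.mul_apply, ← map_mul, inv_mul_cancel, map_one, MulAut.one_apply] at this
        rw [inv_inv, ← this] }
  have hK : K.FiniteIndex := by
    refine finIdx K (fun n : N => fun a : A => χ (MulAut.conjNormal n⁻¹ a)) ?_ ?_
    · refine hfin.subset ?_
      rintro _ ⟨n, rfl⟩
      refine ⟨τ n v, ?_, ?_⟩
      · intro h0
        apply hv0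
        have := congrArg (fun w => τ n⁻¹ w) h0
        simp only [map_zero] at this
        rw [← Module.End.mul_apply, tau_inv_mul] at this
        simpa using this
      · intro a
        exact hmove n a v χ hχ
    · intro n m h a
      have := congrFun h (MulAut.conjNormal n a)
      rw [← MulAut.mul_apply, ← MulAut.mul_apply, ← map_mul, ← map_mul, inv_mul_cancel,
        map_one, MulAut.one_apply] at this
      rw [mul_inv_rev, inv_inv, ← this]
  let E : Submodule ℂ V := ⨅ a : A, Module.End.eigenspace (τ a) (χ a)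
  have hE : ∀ w, w ∈ E ↔ ∀ a : A, τ a w = χ a • w := by
    intro w
    simp only [E, Submodule.mem_iInf, Module.End.mem_eigenspace_iff]
  rcases hτ K hK E (by
    intro k hk u hu
    rw [hE] at hu ⊢
    intro a
    rw [hmove k a u χ hu, hk a]) with h | h
  · exfalso
    apply hv0
    have : v ∈ E := (hE v).2 hχ
    rw [h] at this
    simpa using this
  · intro a ha
    refine ⟨χ ⟨a, ha⟩, ?_⟩
    ext w
    have : w ∈ E := by rw [h]; trivial
    exact (hE w).1 this ⟨a, ha⟩

lemma finite_roots (d : ℕ) (hd : 0 < d) : {z : ℂ | z ^ d = 1}.Finite := by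
  classical
  refine ((Polynomial.nthRoots d (1:ℂ)).toFinset.finite_toSet).subset ?_
  intro z hz
  simpa [Polynomial.mem_nthRoots hd] using hz

/-- Descent along the derived series. -/
lemma scalar_step [Nontrivial V] (hτ : SIrr τ) (B : Subgroup N) [B.Normal]
    (hB : ∀ x ∈ ⁅B, B⁆, ∃ c : ℂ, τ x = c • 1) : ∀ b ∈ B, ∃ c : ℂ, τ b = c • 1 := by
  classical
  intro b hb
  let f : B → Module.End ℂ (Module.End ℂ V) := fun c =>
    (LinearMap.mulLeft ℂ (τ c)) ∘ₗ (LinearMap.mulRight ℂ (τ (c⁻¹ : B)))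
  have hf : ∀ (c : B) (X : Module.End ℂ V), f c X = τ c * X * τ (c : N)⁻¹ := by
    intro c X
    simp [f, mul_assoc]
  have hsc : ∀ x ∈ ⁅B, B⁆, ∀ Y : Module.End ℂ V, τ x * Y * τ x⁻¹ = Y := by
    intro x hx Y
    obtain ⟨c, hc⟩ := hB x hx
    calc τ x * Y * τ x⁻¹ = Y * τ x * τ x⁻¹ := by rw [hc]; simp
      _ = Y := by rw [mul_assoc, tau_mul_inv, mul_one]
  have hcomm : ∀ c c' : B, f c * f c' = f c' * f c := by
    intro c c'
    refine LinearMap.ext fun X => ?_
    rw [Module.End.mul_apply, Module.End.mul_apply, hf, hf, hf, hf]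
    have hx : (c : N) * c' * (c : N)⁻¹ * (c' : N)⁻¹ ∈ ⁅B, B⁆ :=
      Subgroup.commutator_mem_commutator c.2 c'.2
    rw [← hsc _ hx (τ (c' : N) * (τ (c : N) * X * τ (c : N)⁻¹) * τ (c' : N)⁻¹)]
    rw [sand, sand, sand]
    have e1 : (c : N) * c' = c * c' * (c : N)⁻¹ * (c' : N)⁻¹ * c' * c := by group
    have e2 : (c' : N)⁻¹ * (c : N)⁻¹ =
        (c : N)⁻¹ * ((c' : N)⁻¹ * (c * c' * (c : N)⁻¹ * (c' : N)⁻¹)⁻¹) := by group
    rw [← e2, ← e1]
  have hfin := finite_chars f hcomm
  -- eigencharacters of the conjugates of `b`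
  have hchar : ∀ n : N, ∃ χ : B → ℂ, ∀ c : B, f c (τ (n * b * n⁻¹)) = χ c • τ (n * b * n⁻¹) := by
    intro n
    have hbn : n * b * n⁻¹ ∈ B := Subgroup.Normal.conj_mem inferInstance b hb n
    have : ∀ c : B, ∃ z : ℂ, f c (τ (n * b * n⁻¹)) = z • τ (n * b * n⁻¹) := by
      intro c
      obtain ⟨z, hz⟩ := hB _ (Subgroup.commutator_mem_commutator c.2 hbn)
      refine ⟨z, ?_⟩
      rw [hf]
      have e : (c : N) * (n * b * n⁻¹) * (c : N)⁻¹ =
        ((c : N) * (n * b * n⁻¹) * (c : N)⁻¹ * (n * b * n⁻¹)⁻¹) * (n * b * n⁻¹) := by group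
      rw [← map_mul, ← map_mul, e, map_mul]
      have hz' : τ ((c : N) * (n * b * n⁻¹) * (c : N)⁻¹ * (n * b * n⁻¹)⁻¹) = z • 1 := hz
      rw [hz', smul_mul_assoc, one_mul]
    choose χ hχ using this
    exact ⟨χ, hχ⟩
  choose χ hχ using hchar
  have hne : ∀ x : N, τ x ≠ 0 := by
    intro x hx
    have h1 := tau_mul_inv τ x
    rw [hx, zero_mul] at h1
    exact zero_ne_one h1
  -- the subgroup of elements of `B` commuting with `B` on `V`
  let A : Subgroup N :=
    { carrier := {x | x ∈ B ∧ ∀ c ∈ B, τ x * τ c = τ c * τ x}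
      mul_mem' := by
        rintro x y ⟨hx1, hx2⟩ ⟨hy1, hy2⟩
        refine ⟨B.mul_mem hx1 hy1, fun c hc => ?_⟩
        rw [map_mul, mul_assoc, hy2 c hc, ← mul_assoc, hx2 c hc, mul_assoc]
      one_mem' := ⟨B.one_mem, fun c _ => by simp⟩
      inv_mem' := by
        rintro x ⟨hx1, hx2⟩
        refine ⟨B.inv_mem hx1, fun c hc => ?_⟩
        calc τ x⁻¹ * τ c = τ x⁻¹ * (τ c * τ x) * τ x⁻¹ := by
              rw [mul_assoc, mul_assoc, tau_mul_inv, mul_one]
          _ = τ x⁻¹ * (τ x * τ c) * τ x⁻¹ := by rw [hx2 c hc]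
          _ = τ c * τ x⁻¹ := by rw [← mul_assoc, tau_inv_mul, one_mul] }
  have hAn : A.Normal := by
    constructor
    rintro x ⟨hx1, hx2⟩ g
    refine ⟨Subgroup.Normal.conj_mem inferInstance x hx1 g, fun c hc => ?_⟩
    have h1 := hx2 (g⁻¹ * c * g) (by
      simpa using Subgroup.Normal.conj_mem (H := B) inferInstance c hc g⁻¹)
    rw [← map_mul, ← map_mul] at h1 ⊢
    have h2 : τ g * τ (x * (g⁻¹ * c * g)) * τ g⁻¹ = τ g * τ (g⁻¹ * c * g * x) * τ g⁻¹ := by
      rw [h1]
    rw [← map_mul, ← map_mul, ← map_mul, ← map_mul] at h2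
    convert h2 using 2 <;> group
  have hAs := normal_comm_scalar τ hτ A (fun a ha c hc => ha.2 c hc.1)
  have hd : 0 < finrank ℂ V := finrank_pos
  -- if two conjugates have the same eigencharacter they differ by a root of unity
  have hroot : ∀ n m : N, χ n = χ m →
      ∃ z : ℂ, z ^ (finrank ℂ V) = 1 ∧ τ (n * b * n⁻¹) = z • τ (m * b * m⁻¹) := by
    intro n m hnm
    have hbn : n * b * n⁻¹ ∈ B := Subgroup.Normal.conj_mem inferInstance b hb n
    have hbm : m * b * m⁻¹ ∈ B := Subgroup.Normal.conj_mem inferInstance b hb m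
    have hy : n * b * n⁻¹ * (m * b * m⁻¹)⁻¹ ∈ A := by
      refine ⟨B.mul_mem hbn (B.inv_mem hbm), fun c hc => ?_⟩
      have h1 := hχ n ⟨c, hc⟩
      have h2 := hχ m ⟨c, hc⟩
      rw [hf, ← map_mul, ← map_mul] at h1 h2
      simp only at h1 h2
      rw [hnm] at h1
      set w := χ m ⟨c, hc⟩ with hw
      have h3 : w • (τ ((c * (m * b * m⁻¹) * c⁻¹)⁻¹) * τ (m * b * m⁻¹)) = 1 := by
        rw [← mul_smul_comm, ← h2, tau_inv_mul]
      have h4 : τ (c * (n * b * n⁻¹ * (m * b * m⁻¹)⁻¹) * c⁻¹)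
          = τ (n * b * n⁻¹ * (m * b * m⁻¹)⁻¹) := by
        have e : c * (n * b * n⁻¹ * (m * b * m⁻¹)⁻¹) * c⁻¹ =
          (c * (n * b * n⁻¹) * c⁻¹) * (c * (m * b * m⁻¹) * c⁻¹)⁻¹ := by group
        rw [e, map_mul, h1]
        have h5 : w • τ ((c * (m * b * m⁻¹) * c⁻¹)⁻¹) = τ (m * b * m⁻¹)⁻¹ := by
          calc w • τ ((c * (m * b * m⁻¹) * c⁻¹)⁻¹)
              = (w • (τ ((c * (m * b * m⁻¹) * c⁻¹)⁻¹) * τ (m * b * m⁻¹))) * τ (m * b * m⁻¹)⁻¹ := by
                rw [smul_mul_assoc, mul_assoc (τ _) (τ _) (τ _), tau_mul_inv, mul_one]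
            _ = τ (m * b * m⁻¹)⁻¹ := by rw [h3, one_mul]
        rw [smul_mul_assoc, ← mul_smul_comm, h5, ← map_mul]
      have h6 : τ (c * (n * b * n⁻¹ * (m * b * m⁻¹)⁻¹) * c⁻¹) * τ c
          = τ (n * b * n⁻¹ * (m * b * m⁻¹)⁻¹) * τ c := by rw [h4]
      rw [← h6, ← map_mul, ← map_mul]
      congr 1
      group
    obtain ⟨z, hz⟩ := hAs _ hy
    have hz2 : τ (n * b * n⁻¹) = z • τ (m * b * m⁻¹) := by
      have e : n * b * n⁻¹ = (n * b * n⁻¹ * (m * b * m⁻¹)⁻¹) * (m * b * m⁻¹) := by group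
      rw [e, map_mul, hz, smul_mul_assoc, one_mul]
    refine ⟨z, ?_, hz2⟩
    have hdet : ∀ x : N, LinearMap.det (τ (x * b * x⁻¹)) = LinearMap.det (τ b) := by
      intro x
      rw [map_mul, map_mul, map_mul, map_mul, mul_comm (LinearMap.det (τ x)), mul_assoc,
        ← map_mul, tau_mul_inv, map_one, mul_one]
    have h7 := congrArg LinearMap.det hz2
    rw [LinearMap.det_smul, hdet, hdet] at h7
    have h8 : LinearMap.det (τ b) ≠ 0 := by
      intro h0
      have h9 := congrArg LinearMap.det (tau_mul_inv τ b)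
      rw [map_mul, h0, zero_mul, map_one] at h9
      exact zero_ne_one h9
    have h10 : (z ^ finrank ℂ V - 1) * LinearMap.det (τ b) = 0 := by
      rw [sub_mul, one_mul, ← h7, sub_self]
    rcases mul_eq_zero.1 h10 with h | h
    · exact sub_eq_zero.1 h
    · exact absurd h h8
  refine finiteOrbit τ hτ (τ b) ?_
  have hsub : Set.range (fun n : N => τ n * τ b * τ n⁻¹) ⊆
      ⋃ χ₀ ∈ {χ : B → ℂ | ∃ v : Module.End ℂ V, v ≠ 0 ∧ ∀ i, f i v = χ i • v},
        {X | ∃ n : N, χ n = χ₀ ∧ X = τ (n * b * n⁻¹)} := by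
    rintro _ ⟨n, rfl⟩
    simp only [Set.mem_iUnion]
    refine ⟨χ n, ⟨τ (n * b * n⁻¹), hne _, hχ n⟩, n, rfl, ?_⟩
    rw [map_mul, map_mul]
  refine (hfin.biUnion ?_).subset hsub
  intro χ₀ _
  by_cases hex : ∃ m : N, χ m = χ₀
  · obtain ⟨m, hm⟩ := hex
    refine ((finite_roots (finrank ℂ V) hd).image (fun z => z • τ (m * b * m⁻¹))).subset ?_
    rintro X ⟨n, hn, rfl⟩
    obtain ⟨z, hz1, hz2⟩ := hroot n m (hn.trans hm.symm)
    exact ⟨z, hz1, hz2.symm⟩
  · convert Set.finite_empty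
    ext X
    simp only [Set.mem_ofPred_eq, Set.mem_empty_iff_false, iff_false]
    rintro ⟨n, hn, _⟩
    exact hex ⟨n, hn⟩

/-- **Mal'cev step.** -/
theorem malcev [Nontrivial V] (hτ : SIrr τ) (k : ℕ)
    (hk : ∀ x ∈ derivedSeries N k, τ x = 1) : ∀ n : N, ∃ c : ℂ, τ n = c • 1 := by
  have h0 : ∀ j, (∀ x ∈ derivedSeries N j, ∃ c : ℂ, τ x = c • 1) →
      ∀ x ∈ derivedSeries N 0, ∃ c : ℂ, τ x = c • 1 := by
    intro j
    induction j with
    | zero => exact fun h => h
    | succ j ih =>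
      intro h
      apply ih
      rw [derivedSeries_succ] at h
      exact scalar_step τ hτ _ h
  intro n
  refine h0 k (fun x hx => ⟨1, ?_⟩) n ?_
  · rw [hk x hx, one_smul]
  · rw [derivedSeries_zero]; trivial

end

end Pool.Agent.Lib.BettiInt
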