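import Pool.Agent.Lib.MP_89b6e6_ag.Degen
import Pool.Agent.Lib.MP_89b6e6_ag.Logs
import Pool.Agent.Lib.MP_89b6e6_ag.Malcev

/-!
The family of representations joining a representation with a diagonal normal subgroup of finite
index to one with finite image.
-/

namespace Pool.Agent.Lib.BettiInt

open Complex

variable {G : Type} [Group G] {r : ℕ}

/-- `N` acts diagonally -/
def DiagOn (N : Subgroup G) (ρ : G →* GL (Fin r) ℂ) : Prop :=
  ∀ n ∈ N, ∀ i j, i ≠ j → (ρ n : Matrix (Fin r) (Fin r) ℂ) i j = 0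

section
variable {N : Subgroup G} {ρ : G →* GL (Fin r) ℂ}

lemma diag_eq (hD : DiagOn N ρ) (n : G) (hn : n ∈ N) :
    (ρ n : Matrix (Fin r) (Fin r) ℂ) =
      Matrix.diagonal (fun i => (ρ n : Matrix (Fin r) (Fin r) ℂ) i i) := by
  ext i j
  by_cases hij : i = j
  · subst hij; simp
  · rw [hD n hn i j hij, Matrix.diagonal_apply_ne _ hij]

lemma diag_mul (hD : DiagOn N ρ) (n m : G) (hn : n ∈ N) (hm : m ∈ N) (i : Fin r) :
    (ρ (n * m) : Matrix (Fin r) (Fin r) ℂ) i i =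
      (ρ n : Matrix (Fin r) (Fin r) ℂ) i i * (ρ m : Matrix (Fin r) (Fin r) ℂ) i i := by
  rw [map_mul, Units.val_mul, diag_eq hD n hn, diag_eq hD m hm, Matrix.diagonal_mul_diagonal]
  simp

lemma diag_one (i : Fin r) : (ρ 1 : Matrix (Fin r) (Fin r) ℂ) i i = 1 := by
  simp

lemma diag_ne_zero (hD : DiagOn N ρ) (n : G) (hn : n ∈ N) (i : Fin r) :
    (ρ n : Matrix (Fin r) (Fin r) ℂ) i i ≠ 0 := by
  intro h
  have h1 := diag_mul hD n n⁻¹ hn (N.inv_mem hn) i
  rw [mul_inv_cancel, diag_one, h, zero_mul] at h1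
  exact one_ne_zero h1

lemma diag_conj (hD : DiagOn N ρ) [hN : N.Normal] (g n : G) (hn : n ∈ N) (i k : Fin r)
    (h : (ρ g : Matrix (Fin r) (Fin r) ℂ) i k ≠ 0) :
    (ρ n : Matrix (Fin r) (Fin r) ℂ) k k =
      (ρ (g * n * g⁻¹) : Matrix (Fin r) (Fin r) ℂ) i i := by
  have hn' : g * n * g⁻¹ ∈ N := hN.conj_mem n hn g
  have e : (ρ g : Matrix (Fin r) (Fin r) ℂ) * (ρ n : Matrix (Fin r) (Fin r) ℂ) =
      (ρ (g * n * g⁻¹) : Matrix (Fin r) (Fin r) ℂ) * (ρ g : Matrix (Fin r) (Fin r) ℂ) := by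
    rw [← Units.val_mul, ← Units.val_mul, ← map_mul, ← map_mul]
    congr 2
    group
  have e2 := congrFun (congrFun e i) k
  rw [diag_eq hD n hn, diag_eq hD _ hn', Matrix.mul_diagonal, Matrix.diagonal_mul] at e2
  rw [mul_comm] at e2
  exact mul_right_cancel₀ h e2

end

/-- the transfer element -/
noncomputable def tr (N : Subgroup G) [N.Normal] (g : G) (y : G ⧸ N) : G :=
  g * y.out * ((g : G ⧸ N) * y).out⁻¹

lemma tr_mem (N : Subgroup G) [N.Normal] (g : G) (y : G ⧸ N) : tr N g y ∈ N := by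
  rw [← QuotientGroup.eq_one_iff]
  unfold tr
  rw [QuotientGroup.mk_mul, QuotientGroup.mk_mul, QuotientGroup.mk_inv, QuotientGroup.out_eq',
    QuotientGroup.out_eq', mul_inv_cancel]

lemma tr_mul (N : Subgroup G) [N.Normal] (g h : G) (y : G ⧸ N) :
    tr N (g * h) y = (g * tr N h y * g⁻¹) * tr N g ((h : G ⧸ N) * y) := by
  unfold tr
  rw [QuotientGroup.mk_mul, mul_assoc (g : G ⧸ N) (h : G ⧸ N) y]
  group

lemma tr_of_mem (N : Subgroup G) [N.Normal] (n : G) (hn : n ∈ N) (y : G ⧸ N) :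
    tr N n y = n := by
  unfold tr
  have : (n : G ⧸ N) = 1 := (QuotientGroup.eq_one_iff n).2 hn
  rw [this, one_mul]
  group

/-- the transfer cocycle -/
noncomputable def Bf (N : Subgroup G) [N.Normal] [Fintype (G ⧸ N)] (ρ : G →* GL (Fin r) ℂ)
    (i : Fin r) (g : G) : ℂ :=
  ∏ y : G ⧸ N, (ρ (tr N g y) : Matrix (Fin r) (Fin r) ℂ) i i

section
variable {N : Subgroup G} [hN : N.Normal] [Fintype (G ⧸ N)] {ρ : G →* GL (Fin r) ℂ}

lemma Bf_ne_zero (hD : DiagOn N ρ) (i : Fin r) (g : G) : Bf N ρ i g ≠ 0 :=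
  Finset.prod_ne_zero_iff.2 fun y _ => diag_ne_zero hD _ (tr_mem N g y) i

lemma Bf_mul (hD : DiagOn N ρ) (i k : Fin r) (g h : G)
    (hik : (ρ g : Matrix (Fin r) (Fin r) ℂ) i k ≠ 0) :
    Bf N ρ i (g * h) = Bf N ρ i g * Bf N ρ k h := by
  unfold Bf
  have h1 : ∀ y : G ⧸ N, (ρ (tr N (g * h) y) : Matrix (Fin r) (Fin r) ℂ) i i =
      (ρ (tr N h y) : Matrix (Fin r) (Fin r) ℂ) k k *
      (ρ (tr N g ((h : G ⧸ N) * y)) : Matrix (Fin r) (Fin r) ℂ) i i := by
    intro y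
    rw [tr_mul, diag_mul hD _ _ (hN.conj_mem _ (tr_mem N h y) g) (tr_mem N g _),
      diag_conj hD g _ (tr_mem N h y) i k hik]
  rw [Finset.prod_congr rfl (fun y _ => h1 y), Finset.prod_mul_distrib, mul_comm]
  congr 1
  exact Fintype.prod_equiv (Equiv.mulLeft (h : G ⧸ N)) _ _ (fun y => rfl)

lemma Bf_of_mem (i : Fin r) (n : G) (hn : n ∈ N) :
    Bf N ρ i n = ((ρ n : Matrix (Fin r) (Fin r) ℂ) i i) ^ Fintype.card (G ⧸ N) := by
  unfold Bf
  rw [Finset.prod_congr rfl (fun y _ => by rw [tr_of_mem N n hn y]), Finset.prod_const,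
    Finset.card_univ]

/-- the exponential entire function with given exponent -/
noncomputable def eE (b c : ℂ) : Ent :=
  ⟨fun z => exp (z * b) * c, (((differentiable_id.mul_const b).cexp).mul_const c)⟩

/-- The family of representations over the ring of entire functions. -/
noncomputable def fam (hD : DiagOn N ρ) (L : ℂ → ℂ)
    (hL : ∀ x y, x ≠ 0 → y ≠ 0 → L (x * y) = L x + L y) : G →* GL (Fin r) Ent :=
  MonoidHom.toHomUnits
    { toFun := fun g => Matrix.of fun i j =>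
        eE (-(L (Bf N ρ i g) / Fintype.card (G ⧸ N))) ((ρ g : Matrix (Fin r) (Fin r) ℂ) i j)
      map_one' := by
        have hL1 : L 1 = 0 := by
          have := hL 1 1 one_ne_zero one_ne_zero
          rw [mul_one] at this
          linear_combination -this
        ext i j z
        have h1 : Bf N ρ i 1 = 1 := by
          rw [Bf_of_mem i 1 N.one_mem]; simp
        change exp (z * (-(L (Bf N ρ i 1) / Fintype.card (G ⧸ N)))) *
          (ρ 1 : Matrix (Fin r) (Fin r) ℂ) i j = ((1 : Matrix (Fin r) (Fin r) Ent) i j : ℂ → ℂ) z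
        rw [h1, hL1, map_one, Units.val_one]
        by_cases hij : i = j
        · subst hij; simp
        · simp [Matrix.one_apply_ne hij]
      map_mul' := by
        intro g h
        ext i j z
        rw [Matrix.mul_apply]
        have hsum : ((∑ k, (Matrix.of fun i j =>
            eE (-(L (Bf N ρ i g) / Fintype.card (G ⧸ N)))
              ((ρ g : Matrix (Fin r) (Fin r) ℂ) i j)) i k *
            (Matrix.of fun i j =>
            eE (-(L (Bf N ρ i h) / Fintype.card (G ⧸ N)))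
              ((ρ h : Matrix (Fin r) (Fin r) ℂ) i j)) k j : Ent) : ℂ → ℂ) z =
            ∑ k, (exp (z * (-(L (Bf N ρ i g) / Fintype.card (G ⧸ N)))) *
              (ρ g : Matrix (Fin r) (Fin r) ℂ) i k) *
              (exp (z * (-(L (Bf N ρ k h) / Fintype.card (G ⧸ N)))) *
              (ρ h : Matrix (Fin r) (Fin r) ℂ) k j) := by
          rw [← evalZ_apply, map_sum]
          rfl
        rw [hsum]
        change exp (z * (-(L (Bf N ρ i (g * h)) / Fintype.card (G ⧸ N)))) *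
          (ρ (g * h) : Matrix (Fin r) (Fin r) ℂ) i j = _
        rw [map_mul, Units.val_mul, Matrix.mul_apply, Finset.mul_sum]
        refine Finset.sum_congr rfl fun k _ => ?_
        by_cases hik : (ρ g : Matrix (Fin r) (Fin r) ℂ) i k = 0
        · rw [hik]; simp
        · rw [Bf_mul hD i k g h hik, hL _ _ (Bf_ne_zero hD i g) (Bf_ne_zero hD k h)]
          have : z * (-((L (Bf N ρ i g) + L (Bf N ρ k h)) / Fintype.card (G ⧸ N))) =
            z * (-(L (Bf N ρ i g) / Fintype.card (G ⧸ N))) +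
            z * (-(L (Bf N ρ k h) / Fintype.card (G ⧸ N))) := by ring
          rw [this, exp_add]
          ring }

lemma fam_apply (hD : DiagOn N ρ) (L : ℂ → ℂ)
    (hL : ∀ x y, x ≠ 0 → y ≠ 0 → L (x * y) = L x + L y) (z : ℂ) (g : G) (i j : Fin r) :
    (mapRep (evalZ z : Ent →+* ℂ) (fam hD L hL) g : Matrix (Fin r) (Fin r) ℂ) i j =
      exp (z * (-(L (Bf N ρ i g) / Fintype.card (G ⧸ N)))) *
        (ρ g : Matrix (Fin r) (Fin r) ℂ) i j := rfl

lemma fam_zero (hD : DiagOn N ρ) (L : ℂ → ℂ)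
    (hL : ∀ x y, x ≠ 0 → y ≠ 0 → L (x * y) = L x + L y) :
    mapRep (evalZ 0 : Ent →+* ℂ) (fam hD L hL) = ρ := by
  refine MonoidHom.ext fun g => Units.ext ?_
  ext i j
  rw [fam_apply]
  simp

lemma fam_one_diag (hD : DiagOn N ρ) (L : ℂ → ℂ)
    (hL : ∀ x y, x ≠ 0 → y ≠ 0 → L (x * y) = L x + L y) : DiagOn N
      (mapRep (evalZ 1 : Ent →+* ℂ) (fam hD L hL)) := by
  intro n hn i j hij
  rw [fam_apply, hD n hn i j hij, mul_zero]

lemma L_pow (L : ℂ → ℂ) (hL : ∀ x y, x ≠ 0 → y ≠ 0 → L (x * y) = L x + L y) (x : ℂ)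
    (hx : x ≠ 0) (m : ℕ) : L (x ^ m) = m * L x := by
  induction m with
  | zero =>
    have := hL 1 1 one_ne_zero one_ne_zero
    rw [mul_one] at this
    simp only [pow_zero, Nat.cast_zero, zero_mul]
    linear_combination -this
  | succ m ih =>
    rw [pow_succ, hL _ _ (pow_ne_zero m hx) hx, ih]
    push_cast
    ring

lemma fam_one_root (hD : DiagOn N ρ) (L : ℂ → ℂ)
    (hL : ∀ x y, x ≠ 0 → y ≠ 0 → L (x * y) = L x + L y)
    (hL2 : ∀ x, x ≠ 0 → ∃ M : ℕ, 0 < M ∧ exp (L x) ^ M = x ^ M)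
    (n : G) (hn : n ∈ N) (i : Fin r) : ∃ M : ℕ, 0 < M ∧
      ((mapRep (evalZ 1 : Ent →+* ℂ) (fam hD L hL) n : Matrix (Fin r) (Fin r) ℂ) i i) ^ M = 1 := by
  have ha := diag_ne_zero hD n hn i
  obtain ⟨M, hM, hM2⟩ := hL2 _ ha
  refine ⟨M, hM, ?_⟩
  have hc : (Fintype.card (G ⧸ N) : ℂ) ≠ 0 := by
    have : 0 < Fintype.card (G ⧸ N) := Fintype.card_pos
    exact_mod_cast this.ne'
  rw [fam_apply, Bf_of_mem i n hn, L_pow L hL _ ha, mul_div_cancel_left₀ _ hc, one_mul, mul_pow,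
    ← hM2, ← mul_pow, ← exp_add, neg_add_cancel, exp_zero, one_pow]

/-- The end of the family has finite image. -/
theorem fam_one_finite [hG : Group.FG G] (hD : DiagOn N ρ) (L : ℂ → ℂ)
    (hL : ∀ x y, x ≠ 0 → y ≠ 0 → L (x * y) = L x + L y)
    (hL2 : ∀ x, x ≠ 0 → ∃ M : ℕ, 0 < M ∧ exp (L x) ^ M = x ^ M) :
    Finite (mapRep (evalZ 1 : Ent →+* ℂ) (fam hD L hL)).range := by
  classical
  have hfi : N.FiniteIndex := Subgroup.finiteIndex_of_finite_quotient
  set ρ₁ := mapRep (evalZ 1 : Ent →+* ℂ) (fam hD L hL) with hρ₁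
  have hD1 : DiagOn N ρ₁ := fam_one_diag hD L hL
  have hroot := fam_one_root hD L hL hL2
  have hNfg : Group.FG N := Subgroup.fg_of_index_ne_zero N
  obtain ⟨S, hS⟩ := Group.fg_def.1 hNfg
  -- a common exponent
  choose M hM1 hM2 using fun (n : N) (i : Fin r) => hroot n n.2 i
  let E : ℕ := ∏ s ∈ S, ∏ i, M s i
  have hE0 : 0 < E := Finset.prod_pos fun s _ => Finset.prod_pos fun i _ => hM1 s i
  have hEdvd : ∀ s ∈ S, ∀ i, M s i ∣ E := fun s hs i =>
    (Finset.dvd_prod_of_mem (fun i => M s i) (Finset.mem_univ i)).trans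
      (Finset.dvd_prod_of_mem (fun s => ∏ i, M s i) hs)
  have hall : ∀ n : N, ∀ i, ((ρ₁ n : Matrix (Fin r) (Fin r) ℂ) i i) ^ E = 1 := by
    intro n
    have hn : n ∈ Subgroup.closure (S : Set N) := by rw [hS]; trivial
    refine Subgroup.closure_induction
      (p := fun (n : N) _ => ∀ i, ((ρ₁ n : Matrix (Fin r) (Fin r) ℂ) i i) ^ E = 1) ?_ ?_ ?_ ?_ hn
    · intro s hs i
      obtain ⟨c, hc⟩ := hEdvd s hs i
      rw [hc, pow_mul, hM2 s i, one_pow]
    · intro i
      simp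
    · intro x y _ _ hx hy i
      rw [Subgroup.coe_mul, diag_mul hD1 _ _ x.2 y.2, mul_pow, hx i, hy i, one_mul]
    · intro x _ hx i
      have h1 := diag_mul hD1 x x⁻¹ x.2 (N.inv_mem x.2) i
      rw [mul_inv_cancel, diag_one] at h1
      have h2 := congrArg (fun z => z ^ E) h1
      simp only [one_pow, mul_pow, hx i, one_mul] at h2
      rw [Subgroup.coe_inv]
      exact h2.symm
  -- the finite set of possible images of elements of `N`
  have hfinD : {D : Fin r → ℂ | ∀ i, (D i) ^ E = 1}.Finite := by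
    exact Set.Finite.pi' (fun _ : Fin r => finite_roots E hE0)
  have hfin2 : ((fun p : (G ⧸ N) × (Fin r → ℂ) =>
      (ρ₁ p.1.out : Matrix (Fin r) (Fin r) ℂ) * Matrix.diagonal p.2) ''
      ((Set.univ : Set (G ⧸ N)) ×ˢ {D : Fin r → ℂ | ∀ i, (D i) ^ E = 1})).Finite :=
    (Set.Finite.prod Set.finite_univ hfinD).image _
  have hfin3 : (Set.range (fun g : G => (ρ₁ g : Matrix (Fin r) (Fin r) ℂ))).Finite := by
    refine hfin2.subset ?_
    rintro _ ⟨g, rfl⟩
    let n : G := ((g : G ⧸ N).out)⁻¹ * g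
    have hn : n ∈ N := by
      rw [← QuotientGroup.eq]
      exact QuotientGroup.out_eq' _
    refine ⟨((g : G ⧸ N), fun i => (ρ₁ n : Matrix (Fin r) (Fin r) ℂ) i i), ⟨trivial, ?_⟩, ?_⟩
    · intro i
      exact hall ⟨n, hn⟩ i
    · simp only
      rw [← diag_eq hD1 n hn, ← Units.val_mul, ← map_mul]
      simp [n]
  have hfin4 : (Set.range (fun g : G => ρ₁ g)).Finite := by
    refine Set.Finite.of_finite_image (f := fun x : GL (Fin r) ℂ =>
      (x : Matrix (Fin r) (Fin r) ℂ)) ?_ (Units.val_injective.injOn)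
    rw [← Set.range_comp]
    exact hfin3
  have : Finite (Set.range ρ₁) := hfin4
  exact this

end

end Pool.Agent.Lib.BettiInt
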