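import Pool.Agent.Lib.MP_89b6e6_ag.Degen

/-!
A representation preserving a lattice over a valuation ring has its invariants in that ring.
-/

namespace Pool.Agent.Lib.BettiInt

open Module

variable {G : Type} [Group G] {r : ℕ}

section
variable (V : ValuationSubring ℂ)

/-- the action on a stable lattice -/
noncomputable def latAct (ρ : G →* GL (Fin r) ℂ) (L : Submodule V (Fin r → ℂ))
    (hst : ∀ g, ∀ v ∈ L, (ρ g : Matrix (Fin r) (Fin r) ℂ).mulVec v ∈ L) :
    G →* Module.End V L where
  toFun g := ((Matrix.mulVecLin (ρ g : Matrix (Fin r) (Fin r) ℂ)).restrictScalars V).restrict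
    (hst g)
  map_one' := by
    refine LinearMap.ext fun v => Subtype.ext ?_
    simp
  map_mul' := by
    intro n m
    refine LinearMap.ext fun v => Subtype.ext ?_
    simp [Matrix.mulVec_mulVec]

lemma latAct_apply (ρ : G →* GL (Fin r) ℂ) (L : Submodule V (Fin r → ℂ))
    (hst : ∀ g, ∀ v ∈ L, (ρ g : Matrix (Fin r) (Fin r) ℂ).mulVec v ∈ L) (g : G) (v : L) :
    ((latAct V ρ L hst g v : L) : Fin r → ℂ) = (ρ g : Matrix (Fin r) (Fin r) ℂ).mulVec v := rfl

theorem ev_mem_of_lattice (ρ : G →* GL (Fin r) ℂ) (L : Submodule V (Fin r → ℂ))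
    (hfg : L.FG) (hspan : Submodule.span ℂ (L : Set (Fin r → ℂ)) = ⊤)
    (hst : ∀ g, ∀ v ∈ L, (ρ g : Matrix (Fin r) (Fin r) ℂ).mulVec v ∈ L)
    (f : RepRing G r) (hf : f ∈ Inv G r) : ev ρ f ∈ V := by
  classical
  have hlat : Submodule.IsLattice ℂ L := ⟨hfg, hspan⟩
  have hfin : Module.Finite V L := Module.Finite.iff_fg.2 hfg
  have htf : Module.IsTorsionFree V L := inferInstance
  have hflat : Module.Flat V L := by
    rw [Module.Flat.flat_iff_torsion_eq_bot_of_isBezout]
    exact Submodule.isTorsionFree_iff_torsion_eq_bot.1 htf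
  have hfree : Module.Free V L := Module.free_of_flat_of_isLocalRing
  let b₀ := Module.Free.chooseBasis V L
  let bC₀ := b₀.extendOfIsLattice ℂ
  have hcard : Fintype.card (Module.Free.ChooseBasisIndex V L) = r := by
    rw [← Module.finrank_eq_card_basis bC₀]
    simp
  let b : Module.Basis (Fin r) V L := b₀.reindex (Fintype.equivFinOfCardEq hcard)
  let bC : Module.Basis (Fin r) ℂ (Fin r → ℂ) := b.extendOfIsLattice ℂ
  have hbC : ∀ i, bC i = (b i : Fin r → ℂ) := fun i => Module.Basis.extendOfIsLattice_apply _ b i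
  let B := Pi.basisFun ℂ (Fin r)
  let Q : GL (Fin r) ℂ :=
    { val := B.toMatrix bC
      inv := bC.toMatrix B
      val_inv := Module.Basis.toMatrix_mul_toMatrix_flip B bC
      inv_val := Module.Basis.toMatrix_mul_toMatrix_flip bC B }
  have hQ : ∀ j k, (Q : Matrix (Fin r) (Fin r) ℂ) k j = (b j : Fin r → ℂ) k := by
    intro j k
    rw [← hbC]
    simp [Q, B, Module.Basis.toMatrix_apply]
  let ρ' : G →* GL (Fin r) V := MonoidHom.toHomUnits
    (((LinearMap.toMatrixAlgEquiv b).toAlgHom : Module.End V L →* Matrix (Fin r) (Fin r) V).comp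
      (latAct V ρ L hst))
  have hρ' : mapRep V.subtype ρ' = conj Q⁻¹ ρ := by
    refine MonoidHom.ext fun g => ?_
    have h1 : Q * mapRep V.subtype ρ' g = ρ g * Q := by
      refine Units.ext ?_
      rw [Units.val_mul, Units.val_mul]
      ext k j
      rw [Matrix.mul_apply, Matrix.mul_apply]
      have h2 : ∑ i, (LinearMap.toMatrixAlgEquiv b (latAct V ρ L hst g)) i j • b i =
          latAct V ρ L hst g (b j) := by
        have := b.sum_repr (latAct V ρ L hst g (b j))
        rw [← this]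
        refine Finset.sum_congr rfl fun i _ => ?_
        rw [LinearMap.toMatrixAlgEquiv_apply]
      have h3 := congrFun (congrArg Subtype.val h2) k
      rw [latAct_apply] at h3
      have h4 : ((∑ i, (LinearMap.toMatrixAlgEquiv b (latAct V ρ L hst g)) i j • b i : L) :
          Fin r → ℂ) k = ∑ i, (Q : Matrix (Fin r) (Fin r) ℂ) k i *
            (mapRep V.subtype ρ' g : Matrix (Fin r) (Fin r) ℂ) i j := by
        rw [Submodule.coe_sum, Finset.sum_apply]
        refine Finset.sum_congr rfl fun i _ => ?_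
        rw [hQ, mul_comm]
        rfl
      rw [← h4, h3]
      rw [Matrix.mulVec, dotProduct]
      refine Finset.sum_congr rfl fun i _ => ?_
      rw [hQ]
    change mapRep V.subtype ρ' g = Q⁻¹ * ρ g * (Q⁻¹)⁻¹
    rw [inv_inv, mul_assoc, ← h1, inv_mul_cancel_left]
  have h5 : ev ρ f = V.subtype (ev ρ' f) := by
    rw [← ev_mapRep, hρ', hf ℂ ρ Q⁻¹]
  rw [h5]
  exact (ev ρ' f).2

end

lemma isIntegral_of_forall (x : ℂ) (h : ∀ V : ValuationSubring ℂ, x ∈ V) : IsIntegral ℤ x := by
  have h1 := iInf_valuationSubring_superset (K := ℂ) (s := ∅)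
  have h2 : x ∈ (⨅ V : {V : ValuationSubring ℂ // (∅ : Set ℂ) ⊆ V.toSubring},
      V.1.toSubring) := by
    rw [Subring.mem_iInf]
    intro V
    exact h V.1
  rw [h1] at h2
  have h3 : IsIntegral (Subring.closure (∅ : Set ℂ)) x := h2
  have h4 : Algebra.IsIntegral ℤ (Subring.closure (∅ : Set ℂ)) := by
    constructor
    rintro ⟨y, hy⟩
    rw [Subring.closure_empty, Subring.mem_bot] at hy
    obtain ⟨n, rfl⟩ := hy
    exact isIntegral_algebraMap (R := ℤ) (A := Subring.closure (∅ : Set ℂ)) (x := n)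
  exact isIntegral_trans x h3

theorem ev_integral_of_finite (ρ : G →* GL (Fin r) ℂ) (hfin : Finite ρ.range)
    (f : RepRing G r) (hf : f ∈ Inv G r) : IsIntegral ℤ (ev ρ f) := by
  refine isIntegral_of_forall _ fun V => ?_
  let S : Set (Fin r → ℂ) := Set.range (fun p : ρ.range × Fin r =>
    ((p.1 : GL (Fin r) ℂ) : Matrix (Fin r) (Fin r) ℂ).mulVec (Pi.single p.2 1))
  have hS : S.Finite := Set.finite_range _
  refine ev_mem_of_lattice V ρ (Submodule.span V S) (Submodule.fg_span hS) ?_ ?_ f hf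
  · rw [Submodule.span_span_of_tower, eq_top_iff]
    rw [← (Pi.basisFun ℂ (Fin r)).span_eq]
    refine Submodule.span_mono ?_
    rintro _ ⟨i, rfl⟩
    refine ⟨(1, i), ?_⟩
    change (((1 : ρ.range) : GL (Fin r) ℂ) : Matrix (Fin r) (Fin r) ℂ).mulVec (Pi.single i 1) = _
    rw [OneMemClass.coe_one, Units.val_one, Matrix.one_mulVec, Pi.basisFun_apply]
  · intro g v hv
    refine Submodule.span_induction
      (p := fun v _ => (ρ g : Matrix (Fin r) (Fin r) ℂ).mulVec v ∈ Submodule.span V S)
      ?_ ?_ ?_ ?_ hv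
    · rintro _ ⟨⟨x, i⟩, rfl⟩
      refine Submodule.subset_span ⟨(ρ.rangeRestrict g * x, i), ?_⟩
      change ((ρ g * x : GL (Fin r) ℂ) : Matrix (Fin r) (Fin r) ℂ).mulVec (Pi.single i 1) = _
      rw [Units.val_mul, ← Matrix.mulVec_mulVec]
    · simp
    · intro x y _ _ hx hy
      rw [Matrix.mulVec_add]
      exact Submodule.add_mem _ hx hy
    · intro c x _ hx
      have : (ρ g : Matrix (Fin r) (Fin r) ℂ).mulVec (c • x) =
        c • (ρ g : Matrix (Fin r) (Fin r) ℂ).mulVec x := by
        have := Matrix.mulVec_smul (ρ g : Matrix (Fin r) (Fin r) ℂ) (c : ℂ) x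
        exact this
      rw [this]
      exact Submodule.smul_mem _ c hx

end Pool.Agent.Lib.BettiInt
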