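import Pool.Agent.Lib.MP_89b6e6_ag.Reduce
import Pool.Agent.Lib.MP_89b6e6_ag.Family
import Pool.Agent.Lib.MP_89b6e6_ag.Integral

/-!
The main argument.
-/

open TensorProduct

namespace Pool.Agent.Lib.BettiInt

variable {G : Type} [Group G] {r : ℕ}

lemma extC_tmul {A : Type} [CommRing A] [Algebra ℂ A] (φ : Inv G r →+* A) (c : ℂ)
    (f : Inv G r) : extC φ (c ⊗ₜ[ℤ] f) = algebraMap ℂ A c * φ f := by
  unfold extC
  rw [Algebra.TensorProduct.lift_tmul]
  rfl

lemma extC_comp {A B : Type} [CommRing A] [Algebra ℂ A] [CommRing B] [Algebra ℂ B]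
    (φ : Inv G r →+* A) (ψ : A →ₐ[ℂ] B) :
    extC ((ψ : A →+* B).comp φ) = ψ.comp (extC φ) := by
  refine Algebra.TensorProduct.ext' fun c f => ?_
  rw [extC_tmul, AlgHom.comp_apply, extC_tmul, map_mul, AlgHom.commutes]
  rfl

/-- irreducible components are the zero loci of minimal primes -/
lemma component_iff {B : Type} [CommRing B] (W : Set (PrimeSpectrum B)) :
    W ∈ irreducibleComponents (PrimeSpectrum B) ↔
      ∃ p ∈ minimalPrimes B, W = PrimeSpectrum.zeroLocus (p : Set B) := by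
  rw [← PrimeSpectrum.zeroLocus_minimalPrimes]
  constructor
  · rintro ⟨p, hp, rfl⟩
    exact ⟨p, hp, rfl⟩
  · rintro ⟨p, hp, rfl⟩
    exact ⟨p, hp, rfl⟩

/-- The points of an irreducible family all lie on the component of any point of the family which
lies on one component only. -/
theorem family_point {A : Type} [CommRing A] [IsDomain A] [Algebra ℂ A]
    (Θ : G →* GL (Fin r) A) (y₀ y₁ : A →ₐ[ℂ] ℂ) (W : Set (MB G r))
    (h1 : ∀ W' ∈ irreducibleComponents (MB G r),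
      pt (mapRep (y₀ : A →+* ℂ) Θ) ∈ W' → W' = W) :
    pt (mapRep (y₁ : A →+* ℂ) Θ) ∈ W := by
  let φ : Inv G r →+* A := (ev Θ).comp (Inv G r).subtype
  let 𝔞 : Ideal (ℂ ⊗[ℤ] Inv G r) := RingHom.ker (extC φ)
  have h𝔞 : 𝔞.IsPrime := RingHom.ker_isPrime _
  have hle : ∀ y : A →ₐ[ℂ] ℂ, 𝔞 ≤ (pt (mapRep (y : A →+* ℂ) Θ)).asIdeal := by
    intro y x hx
    have e : (ev (mapRep (y : A →+* ℂ) Θ)).comp (Inv G r).subtype =
        ((y : A →+* ℂ).comp φ) := by
      ext f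
      exact ev_mapRep (y : A →+* ℂ) Θ f.1
    change x ∈ RingHom.ker (extC ((ev (mapRep (y : A →+* ℂ) Θ)).comp (Inv G r).subtype))
    rw [e, extC_comp, RingHom.mem_ker]
    change y (extC φ x) = 0
    have hx' : extC φ x = 0 := hx
    rw [hx', map_zero]
  obtain ⟨p, hp, hpa⟩ := Ideal.exists_minimalPrimes_le (I := ⊥) (J := 𝔞) bot_le
  have hp' : p ∈ minimalPrimes (ℂ ⊗[ℤ] Inv G r) := hp
  have hcomp : PrimeSpectrum.zeroLocus (p : Set (ℂ ⊗[ℤ] Inv G r)) ∈
      irreducibleComponents (MB G r) := (component_iff _).2 ⟨p, hp', rfl⟩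
  have hW := h1 _ hcomp (by
    rw [PrimeSpectrum.mem_zeroLocus]
    exact hpa.trans (hle y₀))
  rw [← hW, PrimeSpectrum.mem_zeroLocus]
  exact hpa.trans (hle y₁)

/-- The main theorem: single point version. -/
theorem main_point [Group.FG G] (W : Set (MB G r)) (ρ : G →* GL (Fin r) ℂ)
    (h1 : ∀ W' ∈ irreducibleComponents (MB G r), pt ρ ∈ W' → W' = W)
    (hsol : VirtuallySolvable ρ) :
    ∃ ρ₀ : G →* GL (Fin r) ℂ, Finite ρ₀.range ∧ pt ρ₀ ∈ W := by
  classical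
  obtain ⟨N, ρ', hN, hNf, hsame, hD⟩ := exists_diag ρ hsol
  have hfin : Finite (G ⧸ N) := Subgroup.finite_quotient_of_finiteIndex
  have : Fintype (G ⧸ N) := Fintype.ofFinite _
  obtain ⟨L, hL, hL2⟩ := exists_log
  have hD' : DiagOn N ρ' := hD
  refine ⟨mapRep (evalZ 1 : Ent →+* ℂ) (fam hD' L hL), fam_one_finite hD' L hL hL2, ?_⟩
  refine family_point (fam hD' L hL) (evalZ 0) (evalZ 1) W ?_
  intro W' hW' hpt
  refine h1 W' hW' ?_
  rw [pt_eq_of_sameInv hsame]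
  have h0 := fam_zero hD' L hL
  rw [h0] at hpt
  exact hpt

/-- integrality of points of finite image -/
theorem zbar_of_finite (ρ₀ : G →* GL (Fin r) ℂ) (hfin : Finite ρ₀.range) :
    ∃ φ : Inv G r →+* integralClosure ℤ ℂ, zbarPoint φ = pt ρ₀ := by
  refine ⟨((ev ρ₀).comp (Inv G r).subtype).codRestrict (integralClosure ℤ ℂ).toSubring
    (fun f => ev_integral_of_finite ρ₀ hfin f.1 f.2), ?_⟩
  unfold zbarPoint pt
  congr 1

end Pool.Agent.Lib.BettiInt
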