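import Pool.Agent.Lib.MP_89b6e6_ag.Lattice
import Pool.Agent.Lib.MP_89b6e6_ag.Main

/-!
Twisting a sum of projectively integral simple submodules to an integral representation.
-/

namespace Pool.Agent.Lib.BettiInt

open Module Complex

variable {G : Type} [Group G] {r : ℕ}

lemma det_mem_sub (O : ValuationSubring ℂ) {V : Type} [AddCommGroup V] [Module ℂ V]
    [FiniteDimensional ℂ V] [Module O V] [IsScalarTower O ℂ V] (U : Submodule ℂ V)
    (L : Submodule O V) (hfg : L.FG) (hspan : Submodule.span ℂ (L : Set V) = U)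
    (F : Module.End ℂ U) (hF : ∀ v : U, (v : V) ∈ L → ((F v : U) : V) ∈ L) :
    LinearMap.det F ∈ O := by
  let ι : U →ₗ[O] V := U.subtype.restrictScalars O
  have hι : Function.Injective ι := U.injective_subtype
  have hmap : (L.comap ι).map ι = L := by
    rw [Submodule.map_comap_eq]
    refine inf_eq_right.2 ?_
    intro v hv
    have : v ∈ U := by rw [← hspan]; exact Submodule.subset_span hv
    exact ⟨⟨v, this⟩, rfl⟩
  refine det_mem O (L.comap ι) ?_ ?_ F (fun v hv => hF v hv)
  · refine Submodule.fg_of_fg_map_injective ι hι ?_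
    rw [hmap]
    exact hfg
  · refine Submodule.map_injective_of_injective U.injective_subtype ?_
    rw [Submodule.map_span, Submodule.map_subtype_top]
    have h1 : U.subtype '' ((L.comap ι : Submodule O U) : Set U) = (L : Set V) := by
      have h2 := congrArg (fun S : Submodule O V => (S : Set V)) hmap
      simp only [Submodule.map_coe] at h2
      exact h2
    rw [h1]
    exact hspan

section
variable {N : Subgroup G} [hN : N.Normal] {ρ : G →* GL (Fin r) ℂ} {β : Fin r → ℕ}

open Classical in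
/-- the determinant on a block -/
noncomputable def Dj (hB : BlockOn N ρ β) (j : ℕ) (n : G) : ℂ :=
  if h : n ∈ N then LinearMap.det (resAct N ρ (cs β j) (cs_stable hB j) ⟨n, h⟩) else 1

omit hN in
lemma Dj_of_mem (hB : BlockOn N ρ β) (j : ℕ) (n : G) (h : n ∈ N) :
    Dj hB j n = LinearMap.det (resAct N ρ (cs β j) (cs_stable hB j) ⟨n, h⟩) := dif_pos h

omit hN in
lemma Dj_mul (hB : BlockOn N ρ β) (j : ℕ) (n m : G) (hn : n ∈ N) (hm : m ∈ N) :
    Dj hB j (n * m) = Dj hB j n * Dj hB j m := by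
  rw [Dj_of_mem hB j n hn, Dj_of_mem hB j m hm, Dj_of_mem hB j _ (N.mul_mem hn hm), ← map_mul,
    ← map_mul]
  rfl

omit hN in
lemma Dj_one (hB : BlockOn N ρ β) (j : ℕ) : Dj hB j 1 = 1 := by
  rw [Dj_of_mem hB j 1 N.one_mem]
  have : (⟨1, N.one_mem⟩ : N) = 1 := rfl
  rw [this, map_one, map_one]

omit hN in
lemma Dj_ne_zero (hB : BlockOn N ρ β) (j : ℕ) (n : G) (hn : n ∈ N) : Dj hB j n ≠ 0 := by
  intro h
  have h1 := Dj_mul hB j n n⁻¹ hn (N.inv_mem hn)
  rw [mul_inv_cancel, Dj_one, h, zero_mul] at h1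
  exact one_ne_zero h1

/-- the scalars -/
noncomputable def Cj (hB : BlockOn N ρ β) (i : Fin r) (n : G) : ℂ :=
  (Dj hB (β i) n) ^ (r.factorial / finrank ℂ (cs β (β i)))

lemma finrank_cs_pos (β : Fin r → ℕ) (i : Fin r) : 0 < finrank ℂ (cs β (β i)) := by
  have hmem : Pi.single i (1 : ℂ) ∈ cs β (β i) := by
    intro l hl
    have : l ≠ i := fun h => hl (by rw [h])
    simp [this]
  have : Nontrivial (cs β (β i)) := by
    refine ⟨⟨⟨Pi.single i 1, hmem⟩, 0, ?_⟩⟩
    intro h
    have h1 := congrFun (congrArg Subtype.val h) i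
    simp at h1
  exact finrank_pos

lemma finrank_cs_dvd (β : Fin r → ℕ) (i : Fin r) : finrank ℂ (cs β (β i)) ∣ r.factorial := by
  refine Nat.dvd_factorial (finrank_cs_pos β i) ?_
  have := Submodule.finrank_le (cs β (β i))
  simpa using this

lemma twistData (hB : BlockOn N ρ β) (hS : ∀ i, SimpleSub N ρ (cs β (β i))) :
    TwistData N ρ (Cj hB) where
  ne_zero i n hn := pow_ne_zero _ (Dj_ne_zero hB _ n hn)
  one i := by rw [Cj, Dj_one, one_pow]
  mul i n hn m hm := by rw [Cj, Cj, Cj, Dj_mul hB _ n m hn hm, mul_pow]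
  conj g n hn i k hik := by
    have hn' : g * n * g⁻¹ ∈ N := hN.conj_mem n hn g
    obtain ⟨h1, h2⟩ := schur_det hB hS g n hn hn' i k hik
    rw [Cj, Cj, h1, Dj_of_mem hB _ n hn, Dj_of_mem hB _ _ hn', h2]

variable [Fintype (G ⧸ N)]

/-- The end of the twisting family is integral. -/
theorem twist_integral (hB : BlockOn N ρ β) (hS : ∀ i, SimpleSub N ρ (cs β (β i)))
    (hP : ∀ i, ProjIntegral N ρ (cs β (β i))) (L : ℂ → ℂ)
    (hL : ∀ x y, x ≠ 0 → y ≠ 0 → L (x * y) = L x + L y)
    (hL2 : ∀ x, x ≠ 0 → ∃ M : ℕ, 0 < M ∧ exp (L x) ^ M = x ^ M)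
    (f : RepRing G r) (hf : f ∈ Inv G r) :
    IsIntegral ℤ (ev (mapRep (evalZ 1 : Ent →+* ℂ)
      (twist (twistData hB hS) r.factorial L hL)) f) := by
  classical
  refine isIntegral_of_forall _ fun O => ?_
  choose Λ hfg hspan hhom using fun i => hP i O
  set σ := mapRep (evalZ 1 : Ent →+* ℂ) (twist (twistData hB hS) r.factorial L hL) with hσ
  have hkey : ∀ n ∈ N, ∀ i, ∀ v ∈ Λ i, (σ n : Matrix (Fin r) (Fin r) ℂ).mulVec v ∈ Λ i := by
    intro n hn i v hv
    obtain ⟨c, hc0, hc⟩ := hhom i n hn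
    set d := finrank ℂ (cs β (β i)) with hd
    have hd0 : 0 < d := finrank_cs_pos β i
    set D := Dj hB (β i) n with hD
    have hD0 : D ≠ 0 := Dj_ne_zero hB _ n hn
    set lam : ℂ := exp (-(L (Cj hB i n) / r.factorial)) with hlam
    have hlamd : lam ^ d = exp (-L D) := by
      rw [hlam, ← exp_nat_mul]
      congr 1
      rw [Cj, L_pow L hL _ hD0, ← hd]
      have h1 : ((r.factorial / d : ℕ) : ℂ) * (d : ℂ) = (r.factorial : ℂ) := by
        rw [← Nat.cast_mul, Nat.div_mul_cancel (finrank_cs_dvd β i)]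
      have h2 : (r.factorial : ℂ) ≠ 0 := by exact_mod_cast r.factorial_ne_zero
      have h3 : (d : ℂ) ≠ 0 := by exact_mod_cast hd0.ne'
      rw [← h1] at h2 ⊢
      have h4 : ((r.factorial / d : ℕ) : ℂ) ≠ 0 := left_ne_zero_of_mul h2
      field_simp
    -- the action on the block is the scalar times the old one
    have hvU : v ∈ cs β (β i) := by
      rw [← hspan i]; exact Submodule.subset_span hv
    have hact : (σ n : Matrix (Fin r) (Fin r) ℂ).mulVec v =
        lam • (ρ n : Matrix (Fin r) (Fin r) ℂ).mulVec v := by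
      ext a
      rw [Pi.smul_apply, smul_eq_mul, Matrix.mulVec, Matrix.mulVec, dotProduct, dotProduct,
        Finset.mul_sum]
      refine Finset.sum_congr rfl fun k _ => ?_
      by_cases hk : β k = β i
      · by_cases ha : β a = β i
        · rw [hσ, twist_one_of_mem _ _ L hL n hn a k]
          have : Cj hB a n = Cj hB i n := by rw [Cj, Cj, ha]
          rw [this, mul_assoc]
        · rw [hσ, twist_one_of_mem _ _ L hL n hn a k,
            hB n hn a k (by rw [hk]; exact ha)]
          ring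
      · rw [hvU k hk]
        ring
    -- the determinant of the rescaled action is a unit
    have hdet : (c ^ d * D)⁻¹ ∈ O := by
      have h1 := det_mem_sub O (cs β (β i)) (Λ i) (hfg i) (hspan i)
        (c⁻¹ • resAct N ρ (cs β (β i)) (cs_stable hB (β i)) ⟨n⁻¹, N.inv_mem hn⟩) (by
        intro w hw
        rw [← SetLike.mem_coe, ← hc] at hw
        obtain ⟨w', hw', hww⟩ := hw
        have : (((c⁻¹ • resAct N ρ (cs β (β i)) (cs_stable hB (β i)) ⟨n⁻¹, N.inv_mem hn⟩) w :
            cs β (β i)) : Fin r → ℂ) = w' := by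
          rw [LinearMap.smul_apply, Submodule.coe_smul, resAct_apply, ← hww]
          simp only
          rw [Matrix.mulVec_smul, Matrix.mulVec_mulVec, ← Units.val_mul, ← map_mul,
            inv_mul_cancel, map_one, Units.val_one, Matrix.one_mulVec, smul_smul,
            inv_mul_cancel₀ hc0, one_smul]
        rw [this]
        exact hw')
      rw [LinearMap.det_smul, ← Dj_of_mem hB (β i) n⁻¹ (N.inv_mem hn)] at h1
      have h2 : Dj hB (β i) n⁻¹ = D⁻¹ := by
        have h3 := Dj_mul hB (β i) n n⁻¹ hn (N.inv_mem hn)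
        rw [mul_inv_cancel, Dj_one] at h3
        exact (eq_inv_of_mul_eq_one_right h3.symm)
      rw [h2, inv_pow, ← mul_inv] at h1
      exact h1
    have hroot : lam ^ d * D ∈ O := by
      obtain ⟨K, hK, hK2⟩ := hL2 D hD0
      refine root_mem O _ K hK ?_
      rw [hlamd, mul_pow, ← hK2, ← mul_pow, ← exp_add, neg_add_cancel, exp_zero, one_pow]
    have hkap : lam / c ∈ O := by
      refine mem_of_pow_mem O _ (div_ne_zero (exp_ne_zero _) hc0) d hd0 ?_
      have : (lam / c) ^ d = (lam ^ d * D) * (c ^ d * D)⁻¹ := by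
        rw [div_pow, mul_inv]
        field_simp
      rw [this]
      exact mul_mem hroot hdet
    have hmem : c • (ρ n : Matrix (Fin r) (Fin r) ℂ).mulVec v ∈ Λ i := by
      rw [← SetLike.mem_coe, ← hc]
      exact ⟨v, hv, rfl⟩
    have : (σ n : Matrix (Fin r) (Fin r) ℂ).mulVec v =
        (⟨lam / c, hkap⟩ : O) • (c • (ρ n : Matrix (Fin r) (Fin r) ℂ).mulVec v) := by
      rw [hact]
      have h5 : ∀ w : Fin r → ℂ, (⟨lam / c, hkap⟩ : O) • w = (lam / c) • w := fun w => rfl
      rw [h5, smul_smul, div_mul_cancel₀ _ hc0]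
    rw [this]
    exact Submodule.smul_mem _ _ hmem
  refine ev_mem_of_normal O N σ (⨆ i, Λ i) (Submodule.fg_iSup _ hfg) ?_ ?_ f hf
  · rw [eq_top_iff]
    rw [← (Pi.basisFun ℂ (Fin r)).span_eq]
    refine Submodule.span_le.2 ?_
    rintro _ ⟨i, rfl⟩
    rw [Pi.basisFun_apply]
    have hmem : Pi.single i (1 : ℂ) ∈ cs β (β i) := by
      intro l hl
      have : l ≠ i := fun h => hl (by rw [h])
      simp [this]
    rw [← hspan i] at hmem
    exact Submodule.span_mono (fun v hv => (le_iSup Λ i : Λ i ≤ _) hv) hmem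
  · intro n hn v hv
    have : (⨆ i, Λ i) ≤ (⨆ i, Λ i).comap (gm O σ n) := by
      refine iSup_le fun i => ?_
      intro w hw
      exact (le_iSup Λ i : Λ i ≤ _) (hkey n hn i w hw)
    exact this hv

end

end Pool.Agent.Lib.BettiInt
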