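import Mathlib

/-!
The Betti moduli space of a group over the integers: definitions.
-/

open MvPolynomial TensorProduct

namespace Pool.Agent.Lib.BettiInt

/-- The relations defining the representation scheme: the generic matrices `X(g)` multiply as the
group elements do, and `X(1)` is the identity matrix. -/
noncomputable def repIdeal (G : Type) [Group G] (r : ℕ) : Ideal (MvPolynomial (G × Fin r × Fin r) ℤ) :=
  Ideal.span
    ({p | ∃ (g h : G) (i j : Fin r),
        p = X (g * h, i, j) - ∑ k : Fin r, X (g, i, k) * X (h, k, j)} ∪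
     {p | ∃ i j : Fin r, p = X (1, i, j) - (if i = j then 1 else 0)})

/-- The coordinate ring over `ℤ` of the scheme `Hom(G, GL_r)`. -/
abbrev RepRing (G : Type) [Group G] (r : ℕ) : Type :=
  MvPolynomial (G × Fin r × Fin r) ℤ ⧸ repIdeal G r

noncomputable instance instRep (G : Type) [Group G] (r : ℕ) : CommRing (RepRing G r) :=
  inferInstanceAs (CommRing (MvPolynomial (G × Fin r × Fin r) ℤ ⧸ repIdeal G r))

variable {G : Type} [Group G] {r : ℕ}

lemma repIdeal_le {A : Type} [CommRing A] (ρ : G →* GL (Fin r) A)
    (a : MvPolynomial (G × Fin r × Fin r) ℤ) (ha : a ∈ repIdeal G r) :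
    eval₂Hom (Int.castRingHom A)
      (fun p : G × Fin r × Fin r => (ρ p.1 : Matrix (Fin r) (Fin r) A) p.2.1 p.2.2) a = 0 := by
  have : repIdeal G r ≤ RingHom.ker (eval₂Hom (Int.castRingHom A)
    (fun p : G × Fin r × Fin r => (ρ p.1 : Matrix (Fin r) (Fin r) A) p.2.1 p.2.2)) := by
    refine Ideal.span_le.2 ?_
    rintro p (⟨g, h, i, j, rfl⟩ | ⟨i, j, rfl⟩)
    · simp [RingHom.mem_ker, Matrix.mul_apply]
    · by_cases hij : i = j <;> simp [RingHom.mem_ker, hij]
  exact this ha

/-- The evaluation of functions on the representation scheme at an `A`-valued representation: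
the coordinate `X(g,i,j)` goes to the entry `(i,j)` of the matrix of `g`. -/
noncomputable def ev {A : Type} [CommRing A] (ρ : G →* GL (Fin r) A) : RepRing G r →+* A :=
  Ideal.Quotient.lift (repIdeal G r)
    (eval₂Hom (Int.castRingHom A)
      (fun p : G × Fin r × Fin r => (ρ p.1 : Matrix (Fin r) (Fin r) A) p.2.1 p.2.2))
    (fun a ha => repIdeal_le ρ a ha)

/-- The homomorphism `ρ` followed by conjugation with `P`. -/
def conj {H : Type} [Group H] (P : H) (ρ : G →* H) : G →* H :=
  (MulAut.conj P).toMonoidHom.comp ρ

/-- The ring of `GL_r`-invariant functions on the representation scheme over `ℤ`: functions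
which take the same value at conjugate `A`-valued representations, for every commutative
ring `A`. -/
noncomputable def Inv (G : Type) [Group G] (r : ℕ) : Subring (RepRing G r) where
  carrier := {f | ∀ (A : Type) [CommRing A] (ρ : G →* GL (Fin r) A) (P : GL (Fin r) A),
    ev (conj P ρ) f = ev ρ f}
  mul_mem' := by
    intro a b ha hb A _ ρ P
    rw [map_mul, map_mul, ha A ρ P, hb A ρ P]
  one_mem' := by
    intro A _ ρ P
    rw [map_one, map_one]
  add_mem' := by
    intro a b ha hb A _ ρ P
    rw [map_add, map_add, ha A ρ P, hb A ρ P]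
  zero_mem' := by
    intro A _ ρ P
    rw [map_zero, map_zero]
  neg_mem' := by
    intro a ha A _ ρ P
    rw [map_neg, map_neg, ha A ρ P]

noncomputable instance instInv (G : Type) [Group G] (r : ℕ) : CommRing (Inv G r) :=
  inferInstanceAs (CommRing (Inv G r))

/-- The base change `ℂ ⊗ R` of a commutative ring `R`. -/
abbrev BaseC (R : Type) [CommRing R] : Type := ℂ ⊗[ℤ] R

noncomputable instance instBaseC (R : Type) [CommRing R] : CommRing (BaseC R) :=
  inferInstanceAs (CommRing (ℂ ⊗[ℤ] R))

noncomputable instance instBaseCAlg (R : Type) [CommRing R] : Algebra ℂ (BaseC R) :=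
  inferInstanceAs (Algebra ℂ (ℂ ⊗[ℤ] R))

/-- The `ℂ`-algebra homomorphism `ℂ ⊗ R → A` given by a ring homomorphism from `R` to a
`ℂ`-algebra `A`. -/
noncomputable def extC {R A : Type} [CommRing R] [CommRing A] [Algebra ℂ A] (φ : R →+* A) :
    BaseC R →ₐ[ℂ] A :=
  Algebra.TensorProduct.lift (Algebra.ofId ℂ A) φ.toIntAlgHom (fun _ _ => Commute.all _ _)

/-- The closed point of the spectrum of `ℂ ⊗ R` given by a complex-valued point `R →+* ℂ` of
the spectrum of `R`. -/
noncomputable def pointOf {R : Type} [CommRing R] (φ : R →+* ℂ) : PrimeSpectrum (BaseC R) :=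
  ⟨RingHom.ker (extC φ), RingHom.ker_isPrime _⟩

/-- The complex Betti moduli space: the base change to `ℂ` of the spectrum of the ring of
invariants over `ℤ`. -/
abbrev MB (G : Type) [Group G] (r : ℕ) : Type := PrimeSpectrum (BaseC (Inv G r))

/-- The point of the Betti moduli space of a complex representation. -/
noncomputable def pt (ρ : G →* GL (Fin r) ℂ) : MB G r :=
  pointOf ((ev ρ).comp (Inv G r).subtype)

/-- The complex point determined by a point of the Betti moduli space over the ring of all
algebraic integers. -/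
noncomputable def zbarPoint (φ : Inv G r →+* integralClosure ℤ ℂ) : MB G r :=
  pointOf ((algebraMap (integralClosure ℤ ℂ) ℂ).comp φ)

/-- The image has a solvable subgroup of finite index. -/
def VirtuallySolvable {H : Type} [Group H] (ρ : G →* H) : Prop :=
  ∃ K : Subgroup ρ.range, K.FiniteIndex ∧ Group.IsSolvable K

end Pool.Agent.Lib.BettiInt
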