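import Pool.Agent.Lib.MP_89b6e6_ag.Defs

/-!
Simple constituents and projective integrality: definitions.
-/

namespace Pool.Agent.Lib.BettiInt

variable {G : Type} [Group G] {r : ℕ}

/-- `U` is a simple submodule of `ℂ ^ r` for the action of the subgroup `N`: it is nonzero,
stable under `N`, and has no stable subspaces besides `0` and itself. -/
def SimpleSub (N : Subgroup G) (ρ : G →* GL (Fin r) ℂ) (U : Submodule ℂ (Fin r → ℂ)) : Prop :=
  U ≠ ⊥ ∧ (∀ n ∈ N, ∀ u ∈ U, (ρ n : Matrix (Fin r) (Fin r) ℂ).mulVec u ∈ U) ∧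
    ∀ U' : Submodule ℂ (Fin r → ℂ), U' ≤ U →
      (∀ n ∈ N, ∀ u ∈ U', (ρ n : Matrix (Fin r) (Fin r) ℂ).mulVec u ∈ U') → U' = ⊥ ∨ U' = U

/-- The action of `N` on `U` is projectively integral: for every valuation subring `O` of `ℂ`
there is an `O`-lattice `L` in `U` (a finitely generated `O`-module spanning `U` over `ℂ`) such
that for each `n` in `N` some nonzero multiple of `ρ(n)` maps `L` onto itself. -/
def ProjIntegral (N : Subgroup G) (ρ : G →* GL (Fin r) ℂ) (U : Submodule ℂ (Fin r → ℂ)) :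
    Prop :=
  ∀ O : ValuationSubring ℂ, ∃ L : Submodule O (Fin r → ℂ), L.FG ∧
    Submodule.span ℂ (L : Set (Fin r → ℂ)) = U ∧
    ∀ n ∈ N, ∃ c : ℂ, c ≠ 0 ∧
      (fun v => c • (ρ n : Matrix (Fin r) (Fin r) ℂ).mulVec v) '' (L : Set (Fin r → ℂ)) = L

/-- `ρ` is semisimple: `ℂ ^ r` is the sum of its simple submodules. -/
def Semisimple (ρ : G →* GL (Fin r) ℂ) : Prop :=
  sSup {U | SimpleSub ⊤ ρ U} = ⊤

/-- Restricted to some normal subgroup of finite index, `ρ` is a sum of simple submodules which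
are projectively integral. -/
def VirtuallyProjIntegral (ρ : G →* GL (Fin r) ℂ) : Prop :=
  ∃ N : Subgroup G, N.Normal ∧ N.FiniteIndex ∧
    sSup {U | SimpleSub N ρ U ∧ ProjIntegral N ρ U} = ⊤

end Pool.Agent.Lib.BettiInt
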