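import Pool.Agent.Lib.MP_89b6e6_ag.Defs
import Pool.Agent.Lib.MP_89b6e6_ag.Malcev

/-!
One step degenerations of representations do not change the invariants.
-/

namespace Pool.Agent.Lib.BettiInt

open Module Polynomial

variable {G : Type} [Group G] {r : ℕ}

/-- base change of a representation -/
def mapRep {A B : Type} [CommRing A] [CommRing B] (φ : A →+* B) (ρ : G →* GL (Fin r) A) :
    G →* GL (Fin r) B := (Matrix.GeneralLinearGroup.map φ).comp ρ

lemma mapRep_coe {A B : Type} [CommRing A] [CommRing B] (φ : A →+* B) (ρ : G →* GL (Fin r) A)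
    (g : G) : (mapRep φ ρ g : Matrix (Fin r) (Fin r) B) =
      (ρ g : Matrix (Fin r) (Fin r) A).map φ := rfl

lemma ev_mk {A : Type} [CommRing A] (ρ : G →* GL (Fin r) A)
    (p : MvPolynomial (G × Fin r × Fin r) ℤ) :
    ev ρ (Ideal.Quotient.mk _ p) = MvPolynomial.eval₂Hom (Int.castRingHom A)
      (fun p : G × Fin r × Fin r => (ρ p.1 : Matrix (Fin r) (Fin r) A) p.2.1 p.2.2) p :=
  Ideal.Quotient.lift_mk _ _ _

lemma ev_mapRep {A B : Type} [CommRing A] [CommRing B] (φ : A →+* B) (ρ : G →* GL (Fin r) A)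
    (f : RepRing G r) : ev (mapRep φ ρ) f = φ (ev ρ f) := by
  obtain ⟨p, rfl⟩ := Ideal.Quotient.mk_surjective f
  rw [ev_mk, ev_mk]
  induction p using MvPolynomial.induction_on with
  | C a => simp
  | add p q hp hq => rw [map_add, map_add, map_add, hp, hq]
  | mul_X p i hp => rw [map_mul, map_mul, map_mul, hp]; simp [mapRep_coe]

/-- Two representations with the same invariants. -/
def SameInv {A : Type} [CommRing A] (ρ ρ' : G →* GL (Fin r) A) : Prop :=
  ∀ f ∈ Inv G r, ev ρ f = ev ρ' f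

lemma SameInv.refl {A : Type} [CommRing A] (ρ : G →* GL (Fin r) A) : SameInv ρ ρ :=
  fun _ _ => rfl

lemma SameInv.trans {A : Type} [CommRing A] {ρ ρ' ρ'' : G →* GL (Fin r) A}
    (h : SameInv ρ ρ') (h' : SameInv ρ' ρ'') : SameInv ρ ρ'' :=
  fun f hf => (h f hf).trans (h' f hf)

lemma sameInv_conj {A : Type} [CommRing A] (P : GL (Fin r) A) (ρ : G →* GL (Fin r) A) :
    SameInv ρ (conj P ρ) := fun _ hf => (hf A ρ P).symm

lemma pt_eq_of_sameInv {ρ ρ' : G →* GL (Fin r) ℂ} (h : SameInv ρ ρ') : pt ρ = pt ρ' := by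
  unfold pt
  congr 1
  ext f
  exact h f.1 f.2

section
variable {R : Type} [CommRing R]

/-- the degeneration of a matrix -/
def dg (e : Matrix (Fin r) (Fin r) R) (t : R) (x : Matrix (Fin r) (Fin r) R) :
    Matrix (Fin r) (Fin r) R :=
  e * x * e + t • (e * x * (1 - e)) + (1 - e) * x * (1 - e)

lemma dg_one (e : Matrix (Fin r) (Fin r) R) (he : e * e = e) (t : R) : dg e t 1 = 1 := by
  unfold dg
  have h1 : e * 1 * e = e := by rw [mul_one, he]
  have h2 : e * 1 * (1 - e) = 0 := by rw [mul_one, mul_sub, mul_one, he, sub_self]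
  have h3 : (1 - e) * 1 * (1 - e) = 1 - e := by
    rw [mul_one, mul_sub, mul_one, sub_mul, one_mul, he, sub_self, sub_zero]
  rw [h1, h2, h3, smul_zero]
  abel

lemma dg_mul (e : Matrix (Fin r) (Fin r) R) (he : e * e = e) (t : R)
    (x y : Matrix (Fin r) (Fin r) R) (hx : e * x * e = x * e) (hy : e * y * e = y * e) :
    dg e t (x * y) = dg e t x * dg e t y := by
  unfold dg
  set d := 1 - e with hd
  have hed : e * d = 0 := by rw [hd, mul_sub, mul_one, he, sub_self]
  have hde : d * e = 0 := by rw [hd, sub_mul, one_mul, he, sub_self]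
  have hdd : d * d = d := by rw [hd, mul_sub, mul_one, ← hd, hde, sub_zero]
  have hdxe : d * x * e = 0 := by
    rw [hd, sub_mul, sub_mul, one_mul, hx, sub_self]
  have hdye : d * y * e = 0 := by
    rw [hd, sub_mul, sub_mul, one_mul, hy, sub_self]
  have h1 : e * (x * y) * e = (e * x * e) * (e * y * e) := by
    have : x * y = x * (e + d) * y := by rw [hd]; simp
    rw [this]
    calc e * (x * (e + d) * y) * e = e * x * e * y * e + e * x * (d * y * e) := by
          simp only [mul_add, add_mul, mul_assoc]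
      _ = e * x * (e * e) * y * e := by rw [hdye, he]; simp
      _ = _ := by simp only [mul_assoc]
  have h2 : e * (x * y) * d = (e * x * e) * (e * y * d) + (e * x * d) * (d * y * d) := by
    have : x * y = x * (e + d) * y := by rw [hd]; simp
    rw [this]
    calc e * (x * (e + d) * y) * d = e * x * e * y * d + e * x * d * y * d := by
          simp only [mul_add, add_mul, mul_assoc]
      _ = e * x * (e * e) * y * d + e * x * (d * d) * y * d := by rw [he, hdd]
      _ = _ := by simp only [mul_assoc]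
  have h3 : d * (x * y) * d = (d * x * d) * (d * y * d) := by
    have : x * y = x * (e + d) * y := by rw [hd]; simp
    rw [this]
    calc d * (x * (e + d) * y) * d = (d * x * e) * y * d + d * x * d * y * d := by
          simp only [mul_add, add_mul, mul_assoc]
      _ = d * x * (d * d) * y * d := by rw [hdxe, hdd]; simp
      _ = _ := by simp only [mul_assoc]
  have z1 : (e * x * e) * (d * y * d) = 0 := by
    calc (e * x * e) * (d * y * d) = e * x * (e * d) * y * d := by simp only [mul_assoc]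
      _ = 0 := by rw [hed]; simp
  have z2 : (e * x * d) * (e * y * e) = 0 := by
    calc (e * x * d) * (e * y * e) = e * x * (d * e) * y * e := by simp only [mul_assoc]
      _ = 0 := by rw [hde]; simp
  have z3 : (e * x * d) * (e * y * d) = 0 := by
    calc (e * x * d) * (e * y * d) = e * x * (d * e) * y * d := by simp only [mul_assoc]
      _ = 0 := by rw [hde]; simp
  have z4 : (d * x * d) * (e * y * e) = 0 := by
    calc (d * x * d) * (e * y * e) = d * x * (d * e) * y * e := by simp only [mul_assoc]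
      _ = 0 := by rw [hde]; simp
  have z5 : (d * x * d) * (e * y * d) = 0 := by
    calc (d * x * d) * (e * y * d) = d * x * (d * e) * y * d := by simp only [mul_assoc]
      _ = 0 := by rw [hde]; simp
  rw [h1, h2, h3]
  simp only [add_mul, mul_add, smul_mul_assoc, mul_smul_comm, z1, z2, z3, z4, z5, smul_zero,
    add_zero, zero_add, smul_add]
  abel

/-- the degeneration of a representation -/
def dgRep (e : Matrix (Fin r) (Fin r) R) (he : e * e = e) (t : R) (ρ : G →* GL (Fin r) R)
    (hρ : ∀ g, e * (ρ g : Matrix (Fin r) (Fin r) R) * e = (ρ g : Matrix (Fin r) (Fin r) R) * e) :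
    G →* GL (Fin r) R :=
  MonoidHom.toHomUnits
    { toFun := fun g => dg e t (ρ g : Matrix (Fin r) (Fin r) R)
      map_one' := by
        rw [map_one, Units.val_one]
        exact dg_one e he t
      map_mul' := by
        intro g h
        rw [map_mul, Units.val_mul]
        exact dg_mul e he t _ _ (hρ g) (hρ h) }

lemma dgRep_coe (e : Matrix (Fin r) (Fin r) R) (he : e * e = e) (t : R) (ρ : G →* GL (Fin r) R)
    (hρ : ∀ g, e * (ρ g : Matrix (Fin r) (Fin r) R) * e = (ρ g : Matrix (Fin r) (Fin r) R) * e)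
    (g : G) : (dgRep e he t ρ hρ g : Matrix (Fin r) (Fin r) R) =
      dg e t (ρ g : Matrix (Fin r) (Fin r) R) := rfl

end

/-- the conjugating matrix -/
noncomputable def dgP (e : Matrix (Fin r) (Fin r) ℂ) (he : e * e = e) (t : ℂ) (ht : t ≠ 0) :
    GL (Fin r) ℂ where
  val := t • e + (1 - e)
  inv := t⁻¹ • e + (1 - e)
  val_inv := by
    have hed : e * (1 - e) = 0 := by rw [mul_sub, mul_one, he, sub_self]
    have hde : (1 - e) * e = 0 := by rw [sub_mul, one_mul, he, sub_self]
    have hdd : (1 - e) * (1 - e) = 1 - e := by rw [mul_sub, mul_one, hde, sub_zero]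
    rw [add_mul, mul_add, mul_add, smul_mul_smul_comm, he, smul_mul_assoc, hed, mul_smul_comm,
      hde, hdd, mul_inv_cancel₀ ht]
    simp
  inv_val := by
    have hed : e * (1 - e) = 0 := by rw [mul_sub, mul_one, he, sub_self]
    have hde : (1 - e) * e = 0 := by rw [sub_mul, one_mul, he, sub_self]
    have hdd : (1 - e) * (1 - e) = 1 - e := by rw [mul_sub, mul_one, hde, sub_zero]
    rw [add_mul, mul_add, mul_add, smul_mul_smul_comm, he, smul_mul_assoc, hed, mul_smul_comm,
      hde, hdd, inv_mul_cancel₀ ht]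
    simp

lemma dgRep_eq_conj (e : Matrix (Fin r) (Fin r) ℂ) (he : e * e = e) (t : ℂ) (ht : t ≠ 0)
    (ρ : G →* GL (Fin r) ℂ)
    (hρ : ∀ g, e * (ρ g : Matrix (Fin r) (Fin r) ℂ) * e =
      (ρ g : Matrix (Fin r) (Fin r) ℂ) * e) :
    dgRep e he t ρ hρ = conj (dgP e he t ht) ρ := by
  refine MonoidHom.ext fun g => Units.ext ?_
  rw [dgRep_coe]
  change dg e t (ρ g : Matrix (Fin r) (Fin r) ℂ) =
    (t • e + (1 - e)) * (ρ g : Matrix (Fin r) (Fin r) ℂ) * (t⁻¹ • e + (1 - e))
  have h0 : (1 - e) * (ρ g : Matrix (Fin r) (Fin r) ℂ) * e = 0 := by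
    rw [sub_mul, sub_mul, one_mul, hρ, sub_self]
  unfold dg
  rw [add_mul, add_mul, mul_add, mul_add]
  simp only [smul_mul_assoc, mul_smul_comm, h0, smul_zero, zero_add]
  rw [smul_smul, inv_mul_cancel₀ ht, one_smul]

theorem sameInv_dgRep (e : Matrix (Fin r) (Fin r) ℂ) (he : e * e = e)
    (ρ : G →* GL (Fin r) ℂ)
    (hρ : ∀ g, e * (ρ g : Matrix (Fin r) (Fin r) ℂ) * e =
      (ρ g : Matrix (Fin r) (Fin r) ℂ) * e) (t : ℂ) :
    SameInv ρ (dgRep e he t ρ hρ) := by
  intro f hf
  have heC : (e.map (C : ℂ →+* ℂ[X])) * (e.map (C : ℂ →+* ℂ[X])) = e.map (C : ℂ →+* ℂ[X]) := by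
    rw [← Matrix.map_mul, he]
  have hρC : ∀ g, (e.map (C : ℂ →+* ℂ[X])) *
      (mapRep (C : ℂ →+* ℂ[X]) ρ g : Matrix (Fin r) (Fin r) ℂ[X]) * (e.map (C : ℂ →+* ℂ[X]))
      = (mapRep (C : ℂ →+* ℂ[X]) ρ g : Matrix (Fin r) (Fin r) ℂ[X]) *
        (e.map (C : ℂ →+* ℂ[X])) := by
    intro g
    rw [mapRep_coe, ← Matrix.map_mul, ← Matrix.map_mul, hρ, Matrix.map_mul]
  let Θ := dgRep (e.map (C : ℂ →+* ℂ[X])) heC (X : ℂ[X]) (mapRep (C : ℂ →+* ℂ[X]) ρ) hρC
  have hΘ : ∀ t : ℂ, mapRep (evalRingHom t) Θ = dgRep e he t ρ hρ := by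
    intro t
    refine MonoidHom.ext fun g => Units.ext ?_
    rw [mapRep_coe, dgRep_coe, dgRep_coe, mapRep_coe]
    have hmm : ∀ x : Matrix (Fin r) (Fin r) ℂ,
        (x.map (C : ℂ →+* ℂ[X])).map (evalRingHom t) = x := by
      intro x
      ext i j
      simp
    have hone : (1 : Matrix (Fin r) (Fin r) ℂ[X]) - e.map (C : ℂ →+* ℂ[X]) =
        (1 - e).map (C : ℂ →+* ℂ[X]) := by
      ext i j
      by_cases hij : i = j
      · subst hij; simp
      · simp [Matrix.one_apply_ne hij]
    have hgen : ∀ A B D : Matrix (Fin r) (Fin r) ℂ,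
        (A.map (C : ℂ →+* ℂ[X]) + (X : ℂ[X]) • B.map (C : ℂ →+* ℂ[X]) +
          D.map (C : ℂ →+* ℂ[X])).map (evalRingHom t) = A + t • B + D := by
      intro A B D
      ext i j
      simp
      ring
    unfold dg
    rw [hone, ← Matrix.map_mul, ← Matrix.map_mul, ← Matrix.map_mul, ← Matrix.map_mul,
      ← Matrix.map_mul]
    exact hgen _ _ _
  have hconst : ev Θ f = C (ev ρ f) := by
    refine Polynomial.eq_of_infinite_eval_eq _ _ ?_
    have hsub : {t : ℂ | t ≠ 0} ⊆ {x | eval x (ev Θ f) = eval x (C (ev ρ f))} := by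
      intro t ht
      change eval t (ev Θ f) = eval t (C (ev ρ f))
      rw [eval_C]
      have h1 := ev_mapRep (evalRingHom t) Θ f
      rw [hΘ t, dgRep_eq_conj e he t ht, hf ℂ ρ _] at h1
      exact h1.symm
    refine Set.Infinite.mono hsub ?_
    have : {t : ℂ | t ≠ 0} = {0}ᶜ := by ext; simp
    rw [this]
    exact (Set.finite_singleton 0).infinite_compl
  have h1 := ev_mapRep (evalRingHom t) Θ f
  rw [hΘ t, hconst] at h1
  rw [h1]
  simp

end Pool.Agent.Lib.BettiInt
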