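import Pool.Agent.Lib.MP_89b6e6_ag.Degen

/-!
A representation whose restriction to a finite index normal subgroup has solvable image has the
same invariants as a representation for which that subgroup acts diagonally.
-/

namespace Pool.Agent.Lib.BettiInt

open Module

variable {G : Type} [Group G] {r : ℕ}

/-- every finite index subgroup of `N` spans the same matrix algebra as `N` -/
def PropS (N : Subgroup G) (ρ : G →* GL (Fin r) ℂ) : Prop :=
  ∀ K : Subgroup G, K ≤ N → K.FiniteIndex → ∀ n ∈ N,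
    (ρ n : Matrix (Fin r) (Fin r) ℂ) ∈
      Submodule.span ℂ ((fun k => (ρ k : Matrix (Fin r) (Fin r) ℂ)) '' (K : Set G))

/-- the degeneration at `0` as a linear map -/
def dgL (e : Matrix (Fin r) (Fin r) ℂ) :
    Matrix (Fin r) (Fin r) ℂ →ₗ[ℂ] Matrix (Fin r) (Fin r) ℂ where
  toFun x := dg e 0 x
  map_add' x y := by
    unfold dg
    simp only [zero_smul, mul_add, add_mul]
    abel
  map_smul' c x := by
    unfold dg
    simp only [zero_smul, mul_smul_comm, smul_mul_assoc, RingHom.id_apply, smul_add, add_zero]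

lemma propS_dg (N : Subgroup G) (ρ : G →* GL (Fin r) ℂ) (hS : PropS N ρ)
    (e : Matrix (Fin r) (Fin r) ℂ) (he : e * e = e)
    (hρ : ∀ g, e * (ρ g : Matrix (Fin r) (Fin r) ℂ) * e =
      (ρ g : Matrix (Fin r) (Fin r) ℂ) * e) :
    PropS N (dgRep e he 0 ρ hρ) := by
  intro K hK hKf n hn
  have h1 := hS K hK hKf n hn
  have h2 := Submodule.mem_map_of_mem (f := dgL e) h1
  rw [Submodule.map_span, ← Set.image_comp] at h2
  exact h2

lemma stable_of_propS (N : Subgroup G) (ρ : G →* GL (Fin r) ℂ) (hS : PropS N ρ)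
    (K : Subgroup G) (hK : K ≤ N) (hKf : K.FiniteIndex) (U : Submodule ℂ (Fin r → ℂ))
    (hU : ∀ k ∈ K, ∀ u ∈ U, (ρ k : Matrix (Fin r) (Fin r) ℂ).mulVec u ∈ U) :
    ∀ n ∈ N, ∀ u ∈ U, (ρ n : Matrix (Fin r) (Fin r) ℂ).mulVec u ∈ U := by
  intro n hn u hu
  have h1 := hS K hK hKf n hn
  refine Submodule.span_induction (p := fun x _ => x.mulVec u ∈ U) ?_ ?_ ?_ ?_ h1
  · rintro _ ⟨k, hk, rfl⟩
    exact hU k hk u hu
  · simp
  · intro x y _ _ hx hy
    rw [Matrix.add_mulVec]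
    exact U.add_mem hx hy
  · intro c x _ hx
    rw [Matrix.smul_mulVec]
    exact U.smul_mem c hx

/-- common eigenvectors of `N` -/
def CE (N : Subgroup G) (ρ : G →* GL (Fin r) ℂ) : Set (Fin r → ℂ) :=
  {v | ∀ n ∈ N, ∃ c : ℂ, (ρ n : Matrix (Fin r) (Fin r) ℂ).mulVec v = c • v}

/-- their span -/
def SE (N : Subgroup G) (ρ : G →* GL (Fin r) ℂ) : Submodule ℂ (Fin r → ℂ) :=
  Submodule.span ℂ (CE N ρ)

lemma SE_stable (N : Subgroup G) [N.Normal] (ρ : G →* GL (Fin r) ℂ) (g : G) (u : Fin r → ℂ)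
    (hu : u ∈ SE N ρ) : (ρ g : Matrix (Fin r) (Fin r) ℂ).mulVec u ∈ SE N ρ := by
  refine Submodule.span_induction
    (p := fun u _ => (ρ g : Matrix (Fin r) (Fin r) ℂ).mulVec u ∈ SE N ρ) ?_ ?_ ?_ ?_ hu
  · intro v hv
    refine Submodule.subset_span ?_
    intro n hn
    obtain ⟨c, hc⟩ := hv (g⁻¹ * n * g) (by
      simpa using Subgroup.Normal.conj_mem (H := N) inferInstance n hn g⁻¹)
    refine ⟨c, ?_⟩
    have e : (ρ n : Matrix (Fin r) (Fin r) ℂ) * (ρ g : Matrix (Fin r) (Fin r) ℂ) =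
        (ρ g : Matrix (Fin r) (Fin r) ℂ) * (ρ (g⁻¹ * n * g) : Matrix (Fin r) (Fin r) ℂ) := by
      rw [← Units.val_mul, ← Units.val_mul, ← map_mul, ← map_mul]
      congr 2
      group
    rw [Matrix.mulVec_mulVec, e, ← Matrix.mulVec_mulVec, hc, Matrix.mulVec_smul]
  · simp
  · intro x y _ _ hx hy
    rw [Matrix.mulVec_add]
    exact Submodule.add_mem _ hx hy
  · intro c x _ hx
    rw [Matrix.mulVec_smul]
    exact Submodule.smul_mem _ c hx

lemma exists_proj (U : Submodule ℂ (Fin r → ℂ)) : ∃ e : Matrix (Fin r) (Fin r) ℂ,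
    e * e = e ∧ (∀ v, e.mulVec v ∈ U) ∧ (∀ u ∈ U, e.mulVec u = u) := by
  obtain ⟨U', hU'⟩ := Submodule.exists_isCompl U
  let p : (Fin r → ℂ) →ₗ[ℂ] (Fin r → ℂ) := U.subtype ∘ₗ (Submodule.projectionOnto U U' hU')
  have hp : ∀ v, (LinearMap.toMatrix' p).mulVec v = p v := by
    intro v
    rw [← Matrix.toLin'_apply, Matrix.toLin'_toMatrix']
  have hp1 : ∀ v, p v ∈ U := fun v => by simp [p]
  have hp2 : ∀ u ∈ U, p u = u := by
    intro u hu
    have := Submodule.projectionOnto_apply_left hU' ⟨u, hu⟩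
    simp only [p, LinearMap.comp_apply, Submodule.subtype_apply]
    exact congrArg Subtype.val this
  refine ⟨LinearMap.toMatrix' p, ?_, fun v => by rw [hp]; exact hp1 v,
    fun u hu => by rw [hp]; exact hp2 u hu⟩
  rw [← LinearMap.toMatrix'_mul]
  congr 1
  refine LinearMap.ext fun v => ?_
  rw [Module.End.mul_apply]
  exact hp2 _ (hp1 v)

/-- the restricted action on a stable subspace -/
noncomputable def resAct (N : Subgroup G) (ρ : G →* GL (Fin r) ℂ)
    (V₁ : Submodule ℂ (Fin r → ℂ))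
    (h : ∀ n ∈ N, ∀ u ∈ V₁, (ρ n : Matrix (Fin r) (Fin r) ℂ).mulVec u ∈ V₁) :
    N →* Module.End ℂ V₁ where
  toFun n := (Matrix.mulVecLin (ρ n : Matrix (Fin r) (Fin r) ℂ)).restrict (h n n.2)
  map_one' := by
    refine LinearMap.ext fun v => Subtype.ext ?_
    simp
  map_mul' := by
    intro n m
    refine LinearMap.ext fun v => Subtype.ext ?_
    simp [Matrix.mulVec_mulVec]

lemma resAct_apply (N : Subgroup G) (ρ : G →* GL (Fin r) ℂ)
    (V₁ : Submodule ℂ (Fin r → ℂ))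
    (h : ∀ n ∈ N, ∀ u ∈ V₁, (ρ n : Matrix (Fin r) (Fin r) ℂ).mulVec u ∈ V₁) (n : N) (v : V₁) :
    ((resAct N ρ V₁ h n v : V₁) : Fin r → ℂ) = (ρ n : Matrix (Fin r) (Fin r) ℂ).mulVec v := rfl

/-- `N` kills its `k`-th derived subgroup -/
def SolvDeg (N : Subgroup G) (ρ : G →* GL (Fin r) ℂ) (k : ℕ) : Prop :=
  ∀ x : N, x ∈ derivedSeries N k → ρ x = 1

lemma exists_eig (N : Subgroup G) [N.FiniteIndex] (ρ : G →* GL (Fin r) ℂ) (hS : PropS N ρ)
    (k : ℕ) (hk : SolvDeg N ρ k) (W : Submodule ℂ (Fin r → ℂ)) (hW0 : W ≠ ⊥)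
    (hW : ∀ n ∈ N, ∀ u ∈ W, (ρ n : Matrix (Fin r) (Fin r) ℂ).mulVec u ∈ W) :
    ∃ v ∈ W, v ≠ 0 ∧ v ∈ CE N ρ := by
  obtain ⟨V₁, ⟨hV0, hVW, hVst⟩, hVmin⟩ := WellFounded.has_min
    (α := Submodule ℂ (Fin r → ℂ)) wellFounded_lt
    {U : Submodule ℂ (Fin r → ℂ) | U ≠ ⊥ ∧ U ≤ W ∧
      ∀ n ∈ N, ∀ u ∈ U, (ρ n : Matrix (Fin r) (Fin r) ℂ).mulVec u ∈ U}
    ⟨W, hW0, le_rfl, hW⟩
  have hnt : Nontrivial V₁ := (Submodule.nontrivial_iff_ne_bot).2 hV0
  let τ := resAct N ρ V₁ hVst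
  have hτ : SIrr τ := by
    intro K hK U hU
    have hK' : (K.map N.subtype).FiniteIndex := by
      constructor
      rw [Subgroup.index_map_subtype]
      exact mul_ne_zero hK.index_ne_zero Subgroup.FiniteIndex.index_ne_zero
    have hKN : K.map N.subtype ≤ N := by
      rintro _ ⟨x, _, rfl⟩
      exact x.2
    have hst := stable_of_propS N ρ hS (K.map N.subtype) hKN hK' (U.map V₁.subtype) (by
      rintro _ ⟨x, hx, rfl⟩ _ ⟨u, hu, rfl⟩
      exact ⟨τ x u, hU x hx u hu, rfl⟩)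
    by_cases hb : U = ⊥
    · exact Or.inl hb
    · right
      have hne : U.map V₁.subtype ≠ ⊥ := by
        intro h
        apply hb
        have h' : U.map V₁.subtype = (⊥ : Submodule ℂ V₁).map V₁.subtype := by
          rw [h, Submodule.map_bot]
        exact Submodule.map_injective_of_injective V₁.injective_subtype h'
      have hle : U.map V₁.subtype ≤ V₁ := Submodule.map_subtype_le V₁ U
      have heq : U.map V₁.subtype = V₁ := by
        by_contra hne'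
        exact hVmin _ ⟨hne, hle.trans hVW, hst⟩ (lt_of_le_of_ne hle hne')
      have h2 : U.map V₁.subtype = (⊤ : Submodule ℂ V₁).map V₁.subtype := by
        rw [heq, Submodule.map_subtype_top]
      exact Submodule.map_injective_of_injective V₁.injective_subtype h2
  have hk' : ∀ x ∈ derivedSeries N k, τ x = 1 := by
    intro x hx
    refine LinearMap.ext fun v => Subtype.ext ?_
    rw [resAct_apply, hk x hx]
    simp
  have hm := malcev τ hτ k hk'
  obtain ⟨v, hv, hv0⟩ := Submodule.exists_mem_ne_zero_of_ne_bot hV0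
  refine ⟨v, hVW hv, hv0, ?_⟩
  intro n hn
  obtain ⟨c, hc⟩ := hm ⟨n, hn⟩
  refine ⟨c, ?_⟩
  have := congrArg (fun Y : Module.End ℂ V₁ => ((Y ⟨v, hv⟩ : V₁) : Fin r → ℂ)) hc
  simpa [τ, resAct_apply] using this

theorem exists_span (N : Subgroup G) [N.Normal] [N.FiniteIndex] (ρ : G →* GL (Fin r) ℂ)
    (hS : PropS N ρ) (k : ℕ) (hk : SolvDeg N ρ k) :
    ∃ ρ' : G →* GL (Fin r) ℂ, SameInv ρ ρ' ∧ SE N ρ' = ⊤ := by
  classical
  obtain ⟨ρ', ⟨h1, h2, h3⟩, hmin⟩ := WellFounded.has_min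
    (measure (fun ρ' : G →* GL (Fin r) ℂ => r - finrank ℂ (SE N ρ'))).wf
    {ρ' | SameInv ρ ρ' ∧ PropS N ρ' ∧ SolvDeg N ρ' k} ⟨ρ, SameInv.refl ρ, hS, hk⟩
  refine ⟨ρ', h1, ?_⟩
  by_contra hne
  obtain ⟨e, he, heU, heu⟩ := exists_proj (SE N ρ')
  have hρe : ∀ g, e * (ρ' g : Matrix (Fin r) (Fin r) ℂ) * e =
      (ρ' g : Matrix (Fin r) (Fin r) ℂ) * e := by
    intro g
    refine Matrix.ext_of_mulVec_single fun i => ?_
    rw [← Matrix.mulVec_mulVec, ← Matrix.mulVec_mulVec, ← Matrix.mulVec_mulVec]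
    exact heu _ (SE_stable N ρ' g _ (heU _))
  let ρ'' := dgRep e he 0 ρ' hρe
  have hcoe : ∀ g, (ρ'' g : Matrix (Fin r) (Fin r) ℂ) =
      e * (ρ' g : Matrix (Fin r) (Fin r) ℂ) * e +
        (1 - e) * (ρ' g : Matrix (Fin r) (Fin r) ℂ) * (1 - e) := by
    intro g
    simp only [ρ'', dgRep_coe, dg, zero_smul, add_zero]
  have hP : SameInv ρ ρ'' ∧ PropS N ρ'' ∧ SolvDeg N ρ'' k := by
    refine ⟨h1.trans (sameInv_dgRep e he ρ' hρe 0), propS_dg N ρ' h2 e he hρe, ?_⟩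
    intro x hx
    refine Units.ext ?_
    rw [dgRep_coe, h3 x hx]
    exact dg_one e he 0
  -- the new representation agrees with the old one on the span
  have hon : ∀ g, ∀ u ∈ SE N ρ', (ρ'' g : Matrix (Fin r) (Fin r) ℂ).mulVec u =
      (ρ' g : Matrix (Fin r) (Fin r) ℂ).mulVec u := by
    intro g u hu
    rw [hcoe, hρe, Matrix.add_mulVec, ← Matrix.mulVec_mulVec, ← Matrix.mulVec_mulVec, heu u hu,
      Matrix.sub_mulVec, heu u hu, Matrix.one_mulVec, sub_self, Matrix.mulVec_zero, add_zero]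
  have hle : SE N ρ' ≤ SE N ρ'' := by
    refine Submodule.span_le.2 ?_
    intro v hv
    refine Submodule.subset_span ?_
    intro n hn
    obtain ⟨c, hc⟩ := hv n hn
    exact ⟨c, by rw [hon n v (Submodule.subset_span hv), hc]⟩
  let W : Submodule ℂ (Fin r → ℂ) := LinearMap.ker (Matrix.mulVecLin e)
  have hWm : ∀ w, w ∈ W ↔ e.mulVec w = 0 := by
    intro w
    simp [W]
  have hW0 : W ≠ ⊥ := by
    obtain ⟨v, -, hv⟩ := SetLike.exists_of_lt (lt_top_iff_ne_top.2 hne)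
    intro hb
    have hw : v - e.mulVec v ∈ W := by
      rw [hWm, Matrix.mulVec_sub, Matrix.mulVec_mulVec, he, sub_self]
    rw [hb, Submodule.mem_bot, sub_eq_zero] at hw
    apply hv
    rw [hw]
    exact heU v
  have hWst : ∀ n ∈ N, ∀ u ∈ W, (ρ'' n : Matrix (Fin r) (Fin r) ℂ).mulVec u ∈ W := by
    intro n _ u hu
    rw [hWm] at hu ⊢
    have h0 : e * (1 - e) = 0 := by rw [mul_sub, mul_one, he, sub_self]
    have h1 : e * ((1 - e) * (ρ' n : Matrix (Fin r) (Fin r) ℂ) * (1 - e)) = 0 := by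
      rw [mul_assoc, ← mul_assoc e (1 - e), h0, zero_mul]
    rw [hcoe, Matrix.mulVec_mulVec, mul_add, h1, add_zero, ← Matrix.mulVec_mulVec,
      ← Matrix.mulVec_mulVec, hu, Matrix.mulVec_zero, Matrix.mulVec_zero]
  obtain ⟨v, hvW, hv0, hvC⟩ := exists_eig N ρ'' hP.2.1 k hP.2.2 W hW0 hWst
  have hvn : v ∉ SE N ρ' := by
    intro h
    apply hv0
    rw [← heu v h]
    exact (hWm v).1 hvW
  have hlt : SE N ρ' < SE N ρ'' := by
    refine lt_of_le_of_ne hle ?_
    intro h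
    apply hvn
    rw [h]
    exact Submodule.subset_span hvC
  have hfr := Submodule.finrank_lt_finrank_of_lt hlt
  have hfr2 : finrank ℂ (SE N ρ'') ≤ r := by
    have := Submodule.finrank_le (SE N ρ'')
    simpa using this
  refine hmin ρ'' hP ?_
  change r - finrank ℂ (SE N ρ'') < r - finrank ℂ (SE N ρ')
  omega

end Pool.Agent.Lib.BettiInt
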