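import Pool.Agent.Lib.MP_89b6e6_ag.Main

/-!
Every nonempty open part of a component contains the point of a representation which lies on no
other component.
-/

open TensorProduct

namespace Pool.Agent.Lib.BettiInt

variable {G : Type} [Group G] {r : ℕ}

/-- coordinates -/
noncomputable def coo (g : G) (i j : Fin r) : RepRing G r :=
  Ideal.Quotient.mk _ (MvPolynomial.X (g, i, j))

lemma coo_mul (g h : G) (i j : Fin r) :
    (coo (g * h) i j : RepRing G r) = ∑ k, coo g i k * coo h k j := by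
  have h1 : (MvPolynomial.X (g * h, i, j) -
      ∑ k : Fin r, MvPolynomial.X (g, i, k) * MvPolynomial.X (h, k, j) :
      MvPolynomial (G × Fin r × Fin r) ℤ) ∈ repIdeal G r :=
    Ideal.subset_span (Or.inl ⟨g, h, i, j, rfl⟩)
  have h2 := Ideal.Quotient.eq_zero_iff_mem.2 h1
  rw [map_sub, map_sum, sub_eq_zero] at h2
  simpa [coo] using h2

lemma coo_one (i j : Fin r) : (coo (1 : G) i j : RepRing G r) = if i = j then 1 else 0 := by
  have h1 : (MvPolynomial.X (1, i, j) - (if i = j then 1 else 0) :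
      MvPolynomial (G × Fin r × Fin r) ℤ) ∈ repIdeal G r :=
    Ideal.subset_span (Or.inr ⟨i, j, rfl⟩)
  have h2 := Ideal.Quotient.eq_zero_iff_mem.2 h1
  rw [map_sub, sub_eq_zero] at h2
  unfold coo
  rw [h2]
  split_ifs <;> simp

/-- the universal representation -/
noncomputable def univRep (G : Type) [Group G] (r : ℕ) : G →* GL (Fin r) (RepRing G r) :=
  MonoidHom.toHomUnits
    { toFun := fun g => Matrix.of fun i j => coo g i j
      map_one' := by
        ext i j
        rw [Matrix.of_apply, coo_one, Matrix.one_apply]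
      map_mul' := by
        intro g h
        ext i j
        rw [Matrix.of_apply, coo_mul, Matrix.mul_apply]
        rfl }

lemma ev_univ {A : Type} [CommRing A] (ψ : RepRing G r →+* A) :
    ev (mapRep ψ (univRep G r)) = ψ := by
  refine Ideal.Quotient.ringHom_ext ?_
  refine MvPolynomial.ringHom_ext ?_ ?_
  · intro n
    simp
  · rintro ⟨g, i, j⟩
    rw [RingHom.comp_apply, RingHom.comp_apply, ev_mk]
    simp only [MvPolynomial.coe_eval₂Hom, MvPolynomial.eval₂_X]
    rfl

lemma finiteType [Group.FG G] : Algebra.FiniteType ℤ (RepRing G r) := by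
  classical
  have hm : Monoid.FG G := Group.fg_iff_monoid_fg.1 inferInstance
  obtain ⟨S, hS⟩ := hm.fg_top
  let T : Finset (RepRing G r) := (S ×ˢ (Finset.univ ×ˢ Finset.univ)).image
    (fun p : G × Fin r × Fin r => coo p.1 p.2.1 p.2.2)
  refine ⟨⟨T, ?_⟩⟩
  have hX : ∀ g : G, ∀ i j : Fin r, (coo g i j : RepRing G r) ∈
      Algebra.adjoin ℤ (T : Set (RepRing G r)) := by
    intro g
    have hg : g ∈ Submonoid.closure (S : Set G) := by rw [hS]; trivial
    induction hg using Submonoid.closure_induction with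
    | mem s hs =>
      intro i j
      refine Algebra.subset_adjoin ?_
      rw [Finset.mem_coe, Finset.mem_image]
      exact ⟨(s, i, j), by simpa using hs, rfl⟩
    | one =>
      intro i j
      rw [coo_one]
      split_ifs
      · exact Subalgebra.one_mem _
      · exact Subalgebra.zero_mem _
    | mul x y _ _ hx hy =>
      intro i j
      rw [coo_mul]
      exact Subalgebra.sum_mem _ fun k _ => Subalgebra.mul_mem _ (hx i k) (hy k j)
  rw [eq_top_iff]
  rintro x -
  obtain ⟨p, rfl⟩ := Ideal.Quotient.mk_surjective x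
  induction p using MvPolynomial.induction_on with
  | C a =>
    have : (Ideal.Quotient.mk (repIdeal G r)) (MvPolynomial.C a) =
      algebraMap ℤ (RepRing G r) a := by simp
    rw [this]
    exact Subalgebra.algebraMap_mem _ a
  | add p q hp hq => rw [map_add]; exact Subalgebra.add_mem _ hp hq
  | mul_X p i hp => rw [map_mul]; exact Subalgebra.mul_mem _ hp (hX i.1 i.2.1 i.2.2)

/-- the map from invariants to all functions, over the complex numbers -/
noncomputable def iot (G : Type) [Group G] (r : ℕ) :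
    ℂ ⊗[ℤ] Inv G r →ₐ[ℂ] ℂ ⊗[ℤ] RepRing G r :=
  Algebra.TensorProduct.map (AlgHom.id ℂ ℂ) (Inv G r).subtype.toIntAlgHom

lemma iot_injective : Function.Injective (iot G r) := by
  have h1 := Module.Flat.lTensor_preserves_injective_linearMap (M := ℂ)
    ((Inv G r).subtype.toIntAlgHom.toLinearMap) (by
      exact Subtype.val_injective)
  exact h1

lemma iot_tmul (c : ℂ) (f : Inv G r) : iot G r (c ⊗ₜ[ℤ] f) = c ⊗ₜ[ℤ] (f : RepRing G r) := rfl

/-- **Nullstellensatz.** -/
lemma exists_point {R : Type} [CommRing R] [Algebra ℂ R] [Algebra.FiniteType ℂ R]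
    (q : Ideal R) (hq : q.IsPrime) (x : R) (hx : x ∉ q) :
    ∃ ψ : R →ₐ[ℂ] ℂ, (∀ y ∈ q, ψ y = 0) ∧ ψ x ≠ 0 := by
  have hJ : IsJacobsonRing R := isJacobsonRing_of_finiteType (A := ℂ)
  have h1 : q.jacobson = q := hJ.out hq.isRadical
  rw [← h1, Ideal.jacobson, Ideal.mem_sInf] at hx
  push Not at hx
  obtain ⟨m, ⟨hqm, hm⟩, hxm⟩ := hx
  let := Ideal.Quotient.field m
  have hfin : Module.Finite ℂ (R ⧸ m) := finite_of_finite_type_of_isJacobsonRing ℂ (R ⧸ m)
  have hbij : Function.Bijective (algebraMap ℂ (R ⧸ m)) :=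
    IsAlgClosed.algebraMap_bijective_of_isIntegral
  let e : ℂ ≃ₐ[ℂ] (R ⧸ m) := AlgEquiv.ofBijective (Algebra.ofId ℂ (R ⧸ m)) hbij
  refine ⟨(e.symm : (R ⧸ m) →ₐ[ℂ] ℂ).comp (Ideal.Quotient.mkₐ ℂ m), ?_, ?_⟩
  · intro y hy
    have : (Ideal.Quotient.mkₐ ℂ m) y = 0 := Ideal.Quotient.eq_zero_iff_mem.2 (hqm hy)
    rw [AlgHom.comp_apply, this, map_zero]
  · intro h
    rw [AlgHom.comp_apply] at h
    have h2 : (Ideal.Quotient.mkₐ ℂ m) x = 0 := by
      have h3 : e.symm ((Ideal.Quotient.mkₐ ℂ m) x) = 0 := h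
      rwa [EmbeddingLike.map_eq_zero_iff] at h3
    exact hxm (Ideal.Quotient.eq_zero_iff_mem.1 h2)

/-- The algebraic content: for an injection into an algebra of finite type, every nonempty open
part of a component contains a point of the larger spectrum on no other component. -/
lemma exists_point' {B R : Type} [CommRing B] [CommRing R] [Algebra ℂ B] [Algebra ℂ R]
    [Algebra.FiniteType ℂ R] (f : B →ₐ[ℂ] R) (hf : Function.Injective f) (p : Ideal B)
    (hp : p ∈ minimalPrimes B) (x : B) (hx : x ∉ p) :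
    ∃ ψ : R →ₐ[ℂ] ℂ, (∀ y ∈ p, ψ (f y) = 0) ∧ ψ (f x) ≠ 0 ∧
      ∀ p' ∈ minimalPrimes B, p' ≠ p → ∃ y ∈ p', ψ (f y) ≠ 0 := by
  classical
  have hpp : p.IsPrime := hp.isPrime
  have hnoeth : IsNoetherianRing R := Algebra.FiniteType.isNoetherianRing ℂ R
  have hfin : (minimalPrimes B).Finite := by
    have h1 : (minimalPrimes R).Finite := minimalPrimes.finite_of_isNoetherianRing R
    refine (h1.image (Ideal.comap (f : B →+* R))).subset ?_
    intro p' hp'
    exact Ideal.exists_minimalPrimes_comap_eq (I := (⊥ : Ideal R)) (f : B →+* R) p' (by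
      rw [Ideal.comap_bot_of_injective (f : B →+* R) hf]
      exact hp')
  obtain ⟨q, hq, hqp⟩ := Ideal.exists_comap_eq_of_mem_minimalPrimes_of_injective
    (f := (f : B →+* R)) hf p hp
  have hsep : ∀ p' ∈ hfin.toFinset.erase p, ∃ h ∈ p', h ∉ p := by
    intro p' hp'
    rw [Finset.mem_erase, Set.Finite.mem_toFinset] at hp'
    by_contra hcon
    push Not at hcon
    have hle : p' ≤ p := hcon
    exact hp'.1 (le_antisymm hle (hp.2 ⟨hp'.2.isPrime, bot_le⟩ hle))
  choose! hh hh1 hh2 using hsep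
  let H := ∏ p' ∈ hfin.toFinset.erase p, hh p'
  have hHp : H ∉ p := by
    intro hH
    obtain ⟨p', hp', hp''⟩ := (Ideal.IsPrime.prod_mem_iff).1 hH
    exact hh2 p' hp' hp''
  have hfH : x * H ∉ p := fun h => (hpp.mem_or_mem h).elim hx hHp
  have hfHq : f (x * H) ∉ q := by
    intro h
    apply hfH
    rw [← hqp]
    exact h
  obtain ⟨ψ, hψ1, hψ2⟩ := exists_point q hq _ hfHq
  rw [map_mul, map_mul] at hψ2
  refine ⟨ψ, ?_, left_ne_zero_of_mul hψ2, ?_⟩
  · intro y hy
    refine hψ1 _ ?_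
    rw [← hqp] at hy
    exact hy
  · intro p' hp' hne
    have hpe : p' ∈ hfin.toFinset.erase p := by
      rw [Finset.mem_erase, Set.Finite.mem_toFinset]
      exact ⟨hne, hp'⟩
    refine ⟨hh p', hh1 p' hpe, ?_⟩
    intro h1
    have h2 : H = hh p' * ∏ p'' ∈ (hfin.toFinset.erase p).erase p', hh p'' :=
      (Finset.mul_prod_erase _ _ hpe).symm
    apply right_ne_zero_of_mul hψ2
    rw [h2, map_mul, map_mul, h1, zero_mul]

/-- Every nonempty open part of a component contains the point of a representation lying on no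
other component. -/
theorem generic_point [Group.FG G] (W : Set (MB G r)) (hW : W ∈ irreducibleComponents (MB G r))
    (U : Set (MB G r)) (hU : IsOpen U) (hUW : (U ∩ W).Nonempty) :
    ∃ ρ : G →* GL (Fin r) ℂ, pt ρ ∈ U ∧ pt ρ ∈ W ∧
      ∀ W' ∈ irreducibleComponents (MB G r), pt ρ ∈ W' → W' = W := by
  classical
  have hft : Algebra.FiniteType ℤ (RepRing G r) := finiteType
  obtain ⟨p, hp, rfl⟩ := (component_iff W).1 hW
  -- the generic point is in the open set
  obtain ⟨y, hyU, hyW⟩ := hUW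
  obtain ⟨_, ⟨_, ⟨f, rfl⟩, rfl⟩, hyf, hfU⟩ :=
    PrimeSpectrum.isBasis_basic_opens.exists_subset_of_mem_open hyU hU
  have hfp : f ∉ p := by
    intro hf
    rw [PrimeSpectrum.mem_zeroLocus] at hyW
    exact hyf (hyW hf)
  have hft2 : Algebra.FiniteType ℂ (ℂ ⊗[ℤ] RepRing G r) :=
    Algebra.FiniteType.baseChange (R := ℤ) (A := RepRing G r) ℂ
  obtain ⟨ψ, hψ1, hψ2, hψ3⟩ := exists_point' (B := ℂ ⊗[ℤ] Inv G r) (R := ℂ ⊗[ℤ] RepRing G r)
    (iot G r) iot_injective p hp f hfp
  let ψ' : RepRing G r →+* ℂ := ψ.toRingHom.comp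
    (Algebra.TensorProduct.includeRight : RepRing G r →ₐ[ℤ] ℂ ⊗[ℤ] RepRing G r).toRingHom
  have hext : extC ((ev (mapRep ψ' (univRep G r))).comp (Inv G r).subtype) =
      ψ.comp (iot G r) := by
    rw [ev_univ]
    refine Algebra.TensorProduct.ext' fun c f => ?_
    rw [extC_tmul, AlgHom.comp_apply, iot_tmul]
    have : (c ⊗ₜ[ℤ] (f : RepRing G r) : ℂ ⊗[ℤ] RepRing G r) =
        c • ((1 : ℂ) ⊗ₜ[ℤ] (f : RepRing G r)) := by
      rw [TensorProduct.smul_tmul', smul_eq_mul, mul_one]
    have h2 : ψ (c ⊗ₜ[ℤ] (f : RepRing G r)) = c * ψ ((1 : ℂ) ⊗ₜ[ℤ] (f : RepRing G r)) := by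
      rw [this]
      exact map_smul ψ c _
    exact h2.symm
  have hmem : ∀ x, x ∈ (pt (mapRep ψ' (univRep G r))).asIdeal ↔ ψ (iot G r x) = 0 := by
    intro x
    change x ∈ RingHom.ker (extC ((ev (mapRep ψ' (univRep G r))).comp (Inv G r).subtype)) ↔ _
    rw [hext]
    rfl
  refine ⟨mapRep ψ' (univRep G r), hfU ?_, ?_, ?_⟩
  · change f ∉ (pt (mapRep ψ' (univRep G r))).asIdeal
    rw [hmem]
    exact hψ2
  · rw [PrimeSpectrum.mem_zeroLocus]
    intro x hx
    exact (hmem x).2 (hψ1 _ hx)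
  · intro W' hW' hpt
    obtain ⟨p', hp', rfl⟩ := (component_iff W').1 hW'
    by_contra hne
    obtain ⟨y, hy, hy2⟩ := hψ3 p' hp' (fun h => hne (by rw [h]))
    rw [PrimeSpectrum.mem_zeroLocus] at hpt
    exact hy2 ((hmem _).1 (hpt hy))

end Pool.Agent.Lib.BettiInt
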