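import Pool.Agent.Lib.MP_89b6e6_ag.Family

/-!
The twisting family for a general cocycle.
-/

namespace Pool.Agent.Lib.BettiInt

open Complex

variable {G : Type} [Group G] {r : ℕ}

/-- Scalars attached to the elements of a normal subgroup which are permuted by the group in the
same way as the coordinates. -/
structure TwistData (N : Subgroup G) (ρ : G →* GL (Fin r) ℂ) (C : Fin r → G → ℂ) : Prop where
  ne_zero : ∀ i, ∀ n ∈ N, C i n ≠ 0
  one : ∀ i, C i 1 = 1
  mul : ∀ i, ∀ n ∈ N, ∀ m ∈ N, C i (n * m) = C i n * C i m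
  conj : ∀ (g n : G), n ∈ N → ∀ i k, (ρ g : Matrix (Fin r) (Fin r) ℂ) i k ≠ 0 →
    C k n = C i (g * n * g⁻¹)

/-- the transfer cocycle -/
noncomputable def Tf (N : Subgroup G) [N.Normal] [Fintype (G ⧸ N)] (C : Fin r → G → ℂ)
    (i : Fin r) (g : G) : ℂ := ∏ y : G ⧸ N, C i (tr N g y)

section
variable {N : Subgroup G} [hN : N.Normal] [Fintype (G ⧸ N)] {ρ : G →* GL (Fin r) ℂ}
  {C : Fin r → G → ℂ}

lemma Tf_ne_zero (hC : TwistData N ρ C) (i : Fin r) (g : G) : Tf N C i g ≠ 0 :=
  Finset.prod_ne_zero_iff.2 fun y _ => hC.ne_zero i _ (tr_mem N g y)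

lemma Tf_mul (hC : TwistData N ρ C) (i k : Fin r) (g h : G)
    (hik : (ρ g : Matrix (Fin r) (Fin r) ℂ) i k ≠ 0) :
    Tf N C i (g * h) = Tf N C i g * Tf N C k h := by
  unfold Tf
  have h1 : ∀ y : G ⧸ N, C i (tr N (g * h) y) =
      C k (tr N h y) * C i (tr N g ((h : G ⧸ N) * y)) := by
    intro y
    rw [tr_mul, hC.mul i _ (hN.conj_mem _ (tr_mem N h y) g) _ (tr_mem N g _),
      hC.conj g _ (tr_mem N h y) i k hik]
  rw [Finset.prod_congr rfl (fun y _ => h1 y), Finset.prod_mul_distrib, mul_comm]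
  congr 1
  exact Fintype.prod_equiv (Equiv.mulLeft (h : G ⧸ N)) _ _ (fun y => rfl)

lemma Tf_of_mem (i : Fin r) (n : G) (hn : n ∈ N) :
    Tf N C i n = (C i n) ^ Fintype.card (G ⧸ N) := by
  unfold Tf
  rw [Finset.prod_congr rfl (fun y _ => by rw [tr_of_mem N n hn y]), Finset.prod_const,
    Finset.card_univ]

/-- The twisting family of representations over the ring of entire functions. -/
noncomputable def twist (hC : TwistData N ρ C) (M : ℕ) (L : ℂ → ℂ)
    (hL : ∀ x y, x ≠ 0 → y ≠ 0 → L (x * y) = L x + L y) : G →* GL (Fin r) Ent :=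
  MonoidHom.toHomUnits
    { toFun := fun g => Matrix.of fun i j =>
        eE (-(L (Tf N C i g) / (M * Fintype.card (G ⧸ N))))
          ((ρ g : Matrix (Fin r) (Fin r) ℂ) i j)
      map_one' := by
        have hL1 : L 1 = 0 := by
          have := hL 1 1 one_ne_zero one_ne_zero
          rw [mul_one] at this
          linear_combination -this
        ext i j z
        have h1 : Tf N C i 1 = 1 := by
          rw [Tf_of_mem i 1 N.one_mem, hC.one]; simp
        change exp (z * (-(L (Tf N C i 1) / (M * Fintype.card (G ⧸ N))))) *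
          (ρ 1 : Matrix (Fin r) (Fin r) ℂ) i j = ((1 : Matrix (Fin r) (Fin r) Ent) i j : ℂ → ℂ) z
        rw [h1, hL1, map_one, Units.val_one]
        by_cases hij : i = j
        · subst hij; simp
        · simp [Matrix.one_apply_ne hij]
      map_mul' := by
        intro g h
        ext i j z
        rw [Matrix.mul_apply]
        have hsum : ((∑ k, (Matrix.of fun i j =>
            eE (-(L (Tf N C i g) / (M * Fintype.card (G ⧸ N))))
              ((ρ g : Matrix (Fin r) (Fin r) ℂ) i j)) i k *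
            (Matrix.of fun i j =>
            eE (-(L (Tf N C i h) / (M * Fintype.card (G ⧸ N))))
              ((ρ h : Matrix (Fin r) (Fin r) ℂ) i j)) k j : Ent) : ℂ → ℂ) z =
            ∑ k, (exp (z * (-(L (Tf N C i g) / (M * Fintype.card (G ⧸ N))))) *
              (ρ g : Matrix (Fin r) (Fin r) ℂ) i k) *
              (exp (z * (-(L (Tf N C k h) / (M * Fintype.card (G ⧸ N))))) *
              (ρ h : Matrix (Fin r) (Fin r) ℂ) k j) := by
          rw [← evalZ_apply, map_sum]
          rfl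
        rw [hsum]
        change exp (z * (-(L (Tf N C i (g * h)) / (M * Fintype.card (G ⧸ N))))) *
          (ρ (g * h) : Matrix (Fin r) (Fin r) ℂ) i j = _
        rw [map_mul, Units.val_mul, Matrix.mul_apply, Finset.mul_sum]
        refine Finset.sum_congr rfl fun k _ => ?_
        by_cases hik : (ρ g : Matrix (Fin r) (Fin r) ℂ) i k = 0
        · rw [hik]; simp
        · rw [Tf_mul hC i k g h hik, hL _ _ (Tf_ne_zero hC i g) (Tf_ne_zero hC k h)]
          have : z * (-((L (Tf N C i g) + L (Tf N C k h)) / (M * Fintype.card (G ⧸ N)))) =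
            z * (-(L (Tf N C i g) / (M * Fintype.card (G ⧸ N)))) +
            z * (-(L (Tf N C k h) / (M * Fintype.card (G ⧸ N)))) := by ring
          rw [this, exp_add]
          ring }

lemma twist_apply (hC : TwistData N ρ C) (M : ℕ) (L : ℂ → ℂ)
    (hL : ∀ x y, x ≠ 0 → y ≠ 0 → L (x * y) = L x + L y) (z : ℂ) (g : G) (i j : Fin r) :
    (mapRep (evalZ z : Ent →+* ℂ) (twist hC M L hL) g : Matrix (Fin r) (Fin r) ℂ) i j =
      exp (z * (-(L (Tf N C i g) / (M * Fintype.card (G ⧸ N))))) *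
        (ρ g : Matrix (Fin r) (Fin r) ℂ) i j := rfl

lemma twist_zero (hC : TwistData N ρ C) (M : ℕ) (L : ℂ → ℂ)
    (hL : ∀ x y, x ≠ 0 → y ≠ 0 → L (x * y) = L x + L y) :
    mapRep (evalZ 0 : Ent →+* ℂ) (twist hC M L hL) = ρ := by
  refine MonoidHom.ext fun g => Units.ext ?_
  ext i j
  rw [twist_apply]
  simp

lemma twist_one_of_mem (hC : TwistData N ρ C) (M : ℕ) (L : ℂ → ℂ)
    (hL : ∀ x y, x ≠ 0 → y ≠ 0 → L (x * y) = L x + L y) (n : G) (hn : n ∈ N) (i j : Fin r) :
    (mapRep (evalZ 1 : Ent →+* ℂ) (twist hC M L hL) n : Matrix (Fin r) (Fin r) ℂ) i j =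
      exp (-(L (C i n) / M)) * (ρ n : Matrix (Fin r) (Fin r) ℂ) i j := by
  have hc : (Fintype.card (G ⧸ N) : ℂ) ≠ 0 := by
    have : 0 < Fintype.card (G ⧸ N) := Fintype.card_pos
    exact_mod_cast this.ne'
  rw [twist_apply, Tf_of_mem i n hn, L_pow L hL _ (hC.ne_zero i n hn), one_mul]
  congr 2
  rw [mul_comm (M : ℂ), mul_div_mul_left _ _ hc]

end

end Pool.Agent.Lib.BettiInt
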