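import Pool.Agent.Lib.MP_89b6e6_ag.DefsTwo
import Pool.Agent.Lib.MP_89b6e6_ag.Diag
import Pool.Agent.Lib.MP_89b6e6_ag.Twist

/-!
Coordinate subspaces which are simple for a normal subgroup.
-/

namespace Pool.Agent.Lib.BettiInt

open Module

variable {G : Type} [Group G] {r : ℕ}

/-- the coordinate subspace of a block -/
def cs (β : Fin r → ℕ) (j : ℕ) : Submodule ℂ (Fin r → ℂ) where
  carrier := {v | ∀ i, β i ≠ j → v i = 0}
  add_mem' := by
    intro a b ha hb i hi
    rw [Pi.add_apply, ha i hi, hb i hi, add_zero]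
  zero_mem' := fun i _ => rfl
  smul_mem' := by
    intro c a ha i hi
    rw [Pi.smul_apply, ha i hi, smul_zero]

lemma mem_cs (β : Fin r → ℕ) (j : ℕ) (v : Fin r → ℂ) :
    v ∈ cs β j ↔ ∀ i, β i ≠ j → v i = 0 := Iff.rfl

/-- the projection onto a block -/
def pr (β : Fin r → ℕ) (j : ℕ) : (Fin r → ℂ) →ₗ[ℂ] (Fin r → ℂ) where
  toFun v := fun i => if β i = j then v i else 0
  map_add' a b := by
    ext i
    by_cases h : β i = j <;> simp [h]
  map_smul' c a := by
    ext i
    by_cases h : β i = j <;> simp [h]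

lemma pr_apply (β : Fin r → ℕ) (j : ℕ) (v : Fin r → ℂ) (i : Fin r) :
    pr β j v i = if β i = j then v i else 0 := rfl

lemma pr_mem (β : Fin r → ℕ) (j : ℕ) (v : Fin r → ℂ) : pr β j v ∈ cs β j := by
  intro i hi
  rw [pr_apply, if_neg hi]

/-- block diagonal action -/
def BlockOn (N : Subgroup G) (ρ : G →* GL (Fin r) ℂ) (β : Fin r → ℕ) : Prop :=
  ∀ n ∈ N, ∀ i j, β i ≠ β j → (ρ n : Matrix (Fin r) (Fin r) ℂ) i j = 0

lemma cs_stable {N : Subgroup G} {ρ : G →* GL (Fin r) ℂ} {β : Fin r → ℕ} (hB : BlockOn N ρ β)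
    (j : ℕ) : ∀ n ∈ N, ∀ u ∈ cs β j, (ρ n : Matrix (Fin r) (Fin r) ℂ).mulVec u ∈ cs β j := by
  intro n hn u hu i hi
  rw [Matrix.mulVec, dotProduct]
  refine Finset.sum_eq_zero fun k _ => ?_
  by_cases hk : β k = j
  · rw [hB n hn i k (by rw [hk]; exact hi), zero_mul]
  · rw [hu k hk, mul_zero]

lemma pr_comm {N : Subgroup G} {ρ : G →* GL (Fin r) ℂ} {β : Fin r → ℕ} (hB : BlockOn N ρ β)
    (j : ℕ) (n : G) (hn : n ∈ N) (v : Fin r → ℂ) :
    pr β j ((ρ n : Matrix (Fin r) (Fin r) ℂ).mulVec v) =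
      (ρ n : Matrix (Fin r) (Fin r) ℂ).mulVec (pr β j v) := by
  ext i
  rw [pr_apply]
  by_cases hi : β i = j
  · rw [if_pos hi, Matrix.mulVec, Matrix.mulVec, dotProduct, dotProduct]
    refine Finset.sum_congr rfl fun k _ => ?_
    by_cases hk : β k = j
    · rw [pr_apply, if_pos hk]
    · rw [hB n hn i k (by rw [hi]; exact fun h => hk h.symm), zero_mul, zero_mul]
  · rw [if_neg hi]
    exact (cs_stable hB j n hn _ (pr_mem β j v) i hi).symm

/-- **Schur's lemma.** -/
lemma schur_det {N : Subgroup G} [hN : N.Normal] {ρ : G →* GL (Fin r) ℂ} {β : Fin r → ℕ}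
    (hB : BlockOn N ρ β) (hS : ∀ i, SimpleSub N ρ (cs β (β i))) (g n : G) (hn : n ∈ N)
    (hn' : g * n * g⁻¹ ∈ N) (i k : Fin r) (hik : (ρ g : Matrix (Fin r) (Fin r) ℂ) i k ≠ 0) :
    finrank ℂ (cs β (β i)) = finrank ℂ (cs β (β k)) ∧
    LinearMap.det (resAct N ρ (cs β (β k)) (cs_stable hB (β k)) ⟨n, hn⟩) =
      LinearMap.det (resAct N ρ (cs β (β i)) (cs_stable hB (β i)) ⟨g * n * g⁻¹, hn'⟩) := by
  -- the intertwining map
  let T : cs β (β k) →ₗ[ℂ] cs β (β i) :=
    LinearMap.codRestrict (cs β (β i))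
      ((pr β (β i)) ∘ₗ (Matrix.mulVecLin (ρ g : Matrix (Fin r) (Fin r) ℂ)) ∘ₗ
        (cs β (β k)).subtype) (fun v => pr_mem _ _ _)
  have hT : ∀ v : cs β (β k), ((T v : cs β (β i)) : Fin r → ℂ) =
      pr β (β i) ((ρ g : Matrix (Fin r) (Fin r) ℂ).mulVec v) := fun v => rfl
  have hcomm : ∀ m (hm : m ∈ N) (hm' : g * m * g⁻¹ ∈ N) (v : cs β (β k)),
      T (resAct N ρ (cs β (β k)) (cs_stable hB (β k)) ⟨m, hm⟩ v) =
        resAct N ρ (cs β (β i)) (cs_stable hB (β i)) ⟨g * m * g⁻¹, hm'⟩ (T v) := by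
    intro m hm hm' v
    refine Subtype.ext ?_
    rw [hT, resAct_apply, resAct_apply, hT, ← pr_comm hB _ _ hm', Matrix.mulVec_mulVec,
      Matrix.mulVec_mulVec, ← Units.val_mul, ← Units.val_mul, ← map_mul, ← map_mul]
    congr 4
    group
  have hconj : ∀ m, m ∈ N → g * m * g⁻¹ ∈ N := fun m hm => hN.conj_mem m hm g
  -- nonzero
  have hT0 : T ≠ 0 := by
    intro h0
    apply hik
    have hmem : Pi.single k (1 : ℂ) ∈ cs β (β k) := by
      intro l hl
      have : l ≠ k := fun h => hl (by rw [h])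
      simp [this]
    have h1 := congrArg (fun F : cs β (β k) →ₗ[ℂ] cs β (β i) =>
      ((F ⟨Pi.single k 1, hmem⟩ : cs β (β i)) : Fin r → ℂ) i) h0
    simp only [hT, pr_apply, if_true, Matrix.mulVec_single_one, LinearMap.zero_apply] at h1
    exact h1
  -- injective
  have hinj : LinearMap.ker T = ⊥ := by
    have hst : ∀ n ∈ N, ∀ u ∈ (LinearMap.ker T).map (cs β (β k)).subtype,
        (ρ n : Matrix (Fin r) (Fin r) ℂ).mulVec u ∈
          (LinearMap.ker T).map (cs β (β k)).subtype := by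
      rintro m hm _ ⟨u, hu, rfl⟩
      refine ⟨resAct N ρ (cs β (β k)) (cs_stable hB (β k)) ⟨m, hm⟩ u, ?_, rfl⟩
      rw [SetLike.mem_coe, LinearMap.mem_ker, hcomm m hm (hconj m hm), LinearMap.mem_ker.1 hu,
        map_zero]
    rcases (hS k).2.2 _ (Submodule.map_subtype_le _ _) hst with h | h
    · have h' : (LinearMap.ker T).map (cs β (β k)).subtype =
          (⊥ : Submodule ℂ (cs β (β k))).map (cs β (β k)).subtype := by
        rw [h, Submodule.map_bot]
      exact Submodule.map_injective_of_injective (cs β (β k)).injective_subtype h'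
    · exfalso
      apply hT0
      have h' : (LinearMap.ker T).map (cs β (β k)).subtype =
          (⊤ : Submodule ℂ (cs β (β k))).map (cs β (β k)).subtype := by
        rw [h, Submodule.map_subtype_top]
      have h2 := Submodule.map_injective_of_injective (cs β (β k)).injective_subtype h'
      exact LinearMap.ker_eq_top.1 h2
  -- surjective
  have hsur : LinearMap.range T = ⊤ := by
    have hst : ∀ n ∈ N, ∀ u ∈ (LinearMap.range T).map (cs β (β i)).subtype,
        (ρ n : Matrix (Fin r) (Fin r) ℂ).mulVec u ∈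
          (LinearMap.range T).map (cs β (β i)).subtype := by
      rintro m hm _ ⟨u, ⟨w, rfl⟩, rfl⟩
      have hm1 : g⁻¹ * m * g ∈ N := by
        simpa using hN.conj_mem m hm g⁻¹
      have hm2 : g * (g⁻¹ * m * g) * g⁻¹ ∈ N := hconj _ hm1
      refine ⟨T (resAct N ρ (cs β (β k)) (cs_stable hB (β k)) ⟨g⁻¹ * m * g, hm1⟩ w),
        ⟨_, rfl⟩, ?_⟩
      rw [hcomm _ hm1 hm2, Submodule.subtype_apply, resAct_apply, Submodule.subtype_apply]
      congr 3
      group
    rcases (hS i).2.2 _ (Submodule.map_subtype_le _ _) hst with h | h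
    · exfalso
      apply hT0
      have h' : (LinearMap.range T).map (cs β (β i)).subtype =
          (⊥ : Submodule ℂ (cs β (β i))).map (cs β (β i)).subtype := by
        rw [h, Submodule.map_bot]
      have h2 := Submodule.map_injective_of_injective (cs β (β i)).injective_subtype h'
      exact LinearMap.range_eq_bot.1 h2
    · have h' : (LinearMap.range T).map (cs β (β i)).subtype =
          (⊤ : Submodule ℂ (cs β (β i))).map (cs β (β i)).subtype := by
        rw [h, Submodule.map_subtype_top]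
      exact Submodule.map_injective_of_injective (cs β (β i)).injective_subtype h'
  let e : cs β (β k) ≃ₗ[ℂ] cs β (β i) :=
    LinearEquiv.ofBijective T ⟨LinearMap.ker_eq_bot.1 hinj, LinearMap.range_eq_top.1 hsur⟩
  refine ⟨(LinearEquiv.finrank_eq e).symm, ?_⟩
  rw [← LinearMap.det_conj (resAct N ρ (cs β (β k)) (cs_stable hB (β k)) ⟨n, hn⟩) e]
  congr 1
  refine LinearMap.ext fun v => ?_
  obtain ⟨w, rfl⟩ := e.surjective v
  simp only [LinearMap.comp_apply, LinearEquiv.coe_coe, LinearEquiv.symm_apply_apply]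
  exact hcomm n hn hn' w

end Pool.Agent.Lib.BettiInt
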