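import Pool.Agent.Lib.MP_89b6e6_ag.DefsTwo
import Pool.Agent.Lib.MP_89b6e6_ag.Integral
import Pool.Agent.Lib.MP_89b6e6_ag.Schur

/-!
Lattices over valuation rings.
-/

namespace Pool.Agent.Lib.BettiInt

open Module

variable {G : Type} [Group G] {r : ℕ}

section
variable (O : ValuationSubring ℂ)

/-- an endomorphism preserving a lattice over `O` has determinant in `O` -/
lemma det_mem {U : Type} [AddCommGroup U] [Module ℂ U] [FiniteDimensional ℂ U]
    [Module O U] [IsScalarTower O ℂ U] (L : Submodule O U) (hfg : L.FG)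
    (hspan : Submodule.span ℂ (L : Set U) = ⊤) (f : Module.End ℂ U) (hf : ∀ v ∈ L, f v ∈ L) :
    LinearMap.det f ∈ O := by
  classical
  have hlat : Submodule.IsLattice ℂ L := ⟨hfg, hspan⟩
  have hfin : Module.Finite O L := Module.Finite.iff_fg.2 hfg
  have htf0 : Module.IsTorsionFree O U := Module.IsTorsionFree.trans_faithfulSMul O ℂ U
  have htf : Module.IsTorsionFree O L := inferInstance
  have hflat : Module.Flat O L := by
    rw [Module.Flat.flat_iff_torsion_eq_bot_of_isBezout]
    exact Submodule.isTorsionFree_iff_torsion_eq_bot.1 htf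
  have hfree : Module.Free O L := Module.free_of_flat_of_isLocalRing
  let b := Module.Free.chooseBasis O L
  let bC := b.extendOfIsLattice ℂ
  have hbC : ∀ i, bC i = (b i : U) := fun i => Module.Basis.extendOfIsLattice_apply _ b i
  let fO : Module.End O L := (f.restrictScalars O).restrict hf
  have hfO : ∀ v : L, ((fO v : L) : U) = f v := fun v => rfl
  have hmat : LinearMap.toMatrix bC bC f = (LinearMap.toMatrix b b fO).map O.subtype := by
    ext i j
    rw [LinearMap.toMatrix_apply, Matrix.map_apply, LinearMap.toMatrix_apply, hbC]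
    have h1 : f (b j : U) = ∑ i, ((b.repr (fO (b j)) i : O) : ℂ) • bC i := by
      rw [← hfO, ← b.sum_repr (fO (b j)), Submodule.coe_sum]
      refine Finset.sum_congr rfl fun i _ => ?_
      rw [hbC, b.sum_repr, Submodule.coe_smul, ← algebraMap_smul ℂ (b.repr (fO (b j)) i)]
      rfl
    rw [h1, map_sum, Finsupp.finsetSum_apply]
    rw [Finset.sum_eq_single i]
    · simp
    · intro l _ hl
      simp [hl]
    · intro h
      exact absurd (Finset.mem_univ i) h
  rw [← LinearMap.det_toMatrix bC f, hmat]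
  have := RingHom.map_det O.subtype (LinearMap.toMatrix b b fO)
  rw [RingHom.mapMatrix_apply] at this
  rw [← this]
  exact (Matrix.det (LinearMap.toMatrix b b fO)).2

lemma root_mem (z : ℂ) (K : ℕ) (hK : 0 < K) (hz : z ^ K = 1) : z ∈ O := by
  have hz0 : z ≠ 0 := by
    rintro rfl
    rw [zero_pow hK.ne'] at hz
    exact zero_ne_one hz
  rcases O.mem_or_inv_mem z with h | h
  · exact h
  · have h1 : z = z⁻¹ ^ (K - 1) := by
      obtain ⟨k, rfl⟩ : ∃ k, K = k + 1 := ⟨K - 1, by omega⟩
      rw [Nat.add_sub_cancel, inv_pow]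
      exact eq_inv_of_mul_eq_one_left (by rw [← pow_succ']; exact hz)
    rw [h1]
    exact pow_mem h _

lemma mem_of_pow_mem (z : ℂ) (hz0 : z ≠ 0) (d : ℕ) (hd : 0 < d) (h1 : z ^ d ∈ O) : z ∈ O := by
  rcases O.mem_or_inv_mem z with h | h
  · exact h
  · have h2 : z = z⁻¹ ^ (d - 1) * z ^ d := by
      obtain ⟨k, rfl⟩ : ∃ k, d = k + 1 := ⟨d - 1, by omega⟩
      rw [Nat.add_sub_cancel, inv_pow, pow_succ z k, ← mul_assoc,
        inv_mul_cancel₀ (pow_ne_zero _ hz0), one_mul]
    rw [h2]
    exact mul_mem (pow_mem h _) h1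

/-- the action on lattices -/
noncomputable def gm (ρ : G →* GL (Fin r) ℂ) (g : G) : (Fin r → ℂ) →ₗ[O] (Fin r → ℂ) :=
  (Matrix.mulVecLin (ρ g : Matrix (Fin r) (Fin r) ℂ)).restrictScalars O

lemma gm_apply (ρ : G →* GL (Fin r) ℂ) (g : G) (v : Fin r → ℂ) :
    gm O ρ g v = (ρ g : Matrix (Fin r) (Fin r) ℂ).mulVec v := rfl

lemma gm_mul (ρ : G →* GL (Fin r) ℂ) (g h : G) (v : Fin r → ℂ) :
    gm O ρ (g * h) v = gm O ρ g (gm O ρ h v) := by
  rw [gm_apply, gm_apply, gm_apply, Matrix.mulVec_mulVec, map_mul, Units.val_mul]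

/-- a lattice stable under a normal subgroup of finite index gives a stable lattice -/
theorem ev_mem_of_normal (N : Subgroup G) [hN : N.Normal] [Finite (G ⧸ N)]
    (ρ : G →* GL (Fin r) ℂ) (L : Submodule O (Fin r → ℂ)) (hfg : L.FG)
    (hspan : Submodule.span ℂ (L : Set (Fin r → ℂ)) = ⊤)
    (hst : ∀ n ∈ N, ∀ v ∈ L, (ρ n : Matrix (Fin r) (Fin r) ℂ).mulVec v ∈ L)
    (f : RepRing G r) (hf : f ∈ Inv G r) : ev ρ f ∈ O := by
  let Λ : Submodule O (Fin r → ℂ) := ⨆ y : G ⧸ N, L.map (gm O ρ y.out)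
  have hle : ∀ y : G ⧸ N, L.map (gm O ρ y.out) ≤ Λ := fun y => le_iSup (fun y : G ⧸ N =>
    L.map (gm O ρ y.out)) y
  refine ev_mem_of_lattice O ρ Λ ?_ ?_ ?_ f hf
  · exact Submodule.fg_iSup _ fun y => hfg.map _
  · rw [eq_top_iff]
    -- the inverse image of the span is everything
    let y : G ⧸ N := 1
    have h1 : ∀ v ∈ (⊤ : Submodule ℂ (Fin r → ℂ)), (ρ y.out : Matrix (Fin r) (Fin r) ℂ).mulVec v ∈
        Submodule.span ℂ (Λ : Set (Fin r → ℂ)) := by
      intro v hv
      rw [← hspan] at hv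
      refine Submodule.span_induction (p := fun v _ =>
        (ρ y.out : Matrix (Fin r) (Fin r) ℂ).mulVec v ∈
          Submodule.span ℂ (Λ : Set (Fin r → ℂ))) ?_ ?_ ?_ ?_ hv
      · intro w hw
        exact Submodule.subset_span (hle y ⟨w, hw, rfl⟩)
      · simp
      · intro a b _ _ ha hb
        rw [Matrix.mulVec_add]
        exact Submodule.add_mem _ ha hb
      · intro c a _ ha
        rw [Matrix.mulVec_smul]
        exact Submodule.smul_mem _ c ha
    intro v _
    have h2 := h1 ((ρ (y.out)⁻¹ : Matrix (Fin r) (Fin r) ℂ).mulVec v) trivial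
    rw [Matrix.mulVec_mulVec, ← Units.val_mul, ← map_mul, mul_inv_cancel, map_one,
      Units.val_one, Matrix.one_mulVec] at h2
    exact h2
  · intro g v hv
    change gm O ρ g v ∈ Λ
    have : Λ ≤ Λ.comap (gm O ρ g) := by
      refine iSup_le fun y => ?_
      rintro _ ⟨w, hw, rfl⟩
      rw [Submodule.mem_comap, ← gm_mul]
      let y' : G ⧸ N := (g : G ⧸ N) * y
      let n : G := y'.out⁻¹ * (g * y.out)
      have hn : n ∈ N := by
        rw [← QuotientGroup.eq, QuotientGroup.out_eq', QuotientGroup.mk_mul,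
          QuotientGroup.out_eq']
      have e : g * y.out = y'.out * n := by
        change g * y.out = y'.out * (y'.out⁻¹ * (g * y.out))
        group
      rw [e, gm_mul]
      exact hle y' ⟨gm O ρ n w, hst n hn w hw, rfl⟩
    exact this hv

end

end Pool.Agent.Lib.BettiInt
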