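import Pool.Agent.Lib.MP_89b6e6_ag.PrFlat

/-!
The representation `(α ⊗ β) ⊕ σ` of a product of two groups.
-/

open TensorProduct

namespace Pool.Agent.Lib.BettiInt

variable {H K G : Type} [Group H] [Group K] [Group G] {n m s r : ℕ}

section
variable {A B : Type} [CommRing A] [CommRing B]

/-- the block matrix `(a ⊗ b) ⊕ c` -/
def blk (e : (Fin n × Fin m) ⊕ Fin s ≃ Fin r) (a : Matrix (Fin n) (Fin n) A)
    (b : Matrix (Fin m) (Fin m) A) (c : Matrix (Fin s) (Fin s) A) : Matrix (Fin r) (Fin r) A :=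
  Matrix.reindex e e (Matrix.fromBlocks (Matrix.kroneckerMap (· * ·) a b) 0 0 c)

lemma blk_mul (e : (Fin n × Fin m) ⊕ Fin s ≃ Fin r) (a a' : Matrix (Fin n) (Fin n) A)
    (b b' : Matrix (Fin m) (Fin m) A) (c c' : Matrix (Fin s) (Fin s) A) :
    blk e (a * a') (b * b') (c * c') = blk e a b c * blk e a' b' c' := by
  unfold blk
  rw [Matrix.mul_kronecker_mul]
  have : Matrix.fromBlocks (Matrix.kroneckerMap (· * ·) a b * Matrix.kroneckerMap (· * ·) a' b')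
      0 0 (c * c') = Matrix.fromBlocks (Matrix.kroneckerMap (· * ·) a b) 0 0 c *
      Matrix.fromBlocks (Matrix.kroneckerMap (· * ·) a' b') 0 0 c' := by
    rw [Matrix.fromBlocks_multiply]
    simp
  rw [this]
  simp only [Matrix.reindex_apply]
  rw [Matrix.submatrix_mul_equiv]

lemma blk_one (e : (Fin n × Fin m) ⊕ Fin s ≃ Fin r) :
    blk e (1 : Matrix (Fin n) (Fin n) A) 1 1 = 1 := by
  unfold blk
  have h1 : Matrix.kroneckerMap (· * ·) (1 : Matrix (Fin n) (Fin n) A)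
      (1 : Matrix (Fin m) (Fin m) A) = 1 := Matrix.one_kronecker_one
  rw [h1, Matrix.fromBlocks_one]
  simp

lemma blk_map (e : (Fin n × Fin m) ⊕ Fin s ≃ Fin r) (φ : A →+* B) (a : Matrix (Fin n) (Fin n) A)
    (b : Matrix (Fin m) (Fin m) A) (c : Matrix (Fin s) (Fin s) A) :
    (blk e a b c).map φ = blk e (a.map φ) (b.map φ) (c.map φ) := by
  ext i j
  unfold blk
  simp only [Matrix.map_apply, Matrix.reindex_apply, Matrix.submatrix_apply]
  rcases e.symm i with ⟨a1, a2⟩ | c1 <;> rcases e.symm j with ⟨b1, b2⟩ | d1 <;>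
    simp [Matrix.kroneckerMap_apply]

/-- the invertible block matrix -/
def blkU (e : (Fin n × Fin m) ⊕ Fin s ≃ Fin r) (P : GL (Fin n) A) (Q : GL (Fin m) A)
    (R : GL (Fin s) A) : GL (Fin r) A where
  val := blk e P Q R
  inv := blk e (P⁻¹ : GL (Fin n) A) (Q⁻¹ : GL (Fin m) A) (R⁻¹ : GL (Fin s) A)
  val_inv := by
    rw [← blk_mul, ← Units.val_mul, ← Units.val_mul, ← Units.val_mul, mul_inv_cancel,
      mul_inv_cancel, mul_inv_cancel]
    exact blk_one e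
  inv_val := by
    rw [← blk_mul, ← Units.val_mul, ← Units.val_mul, ← Units.val_mul, inv_mul_cancel,
      inv_mul_cancel, inv_mul_cancel]
    exact blk_one e

/-- the representation `(α ⊗ β) ⊕ σ` -/
def Phi (e : (Fin n × Fin m) ⊕ Fin s ≃ Fin r) (α : H →* GL (Fin n) A) (β : K →* GL (Fin m) A)
    (σ : H × K →* GL (Fin s) A) : H × K →* GL (Fin r) A where
  toFun := fun g => blkU e (α g.1) (β g.2) (σ g)
  map_one' := by
    refine Units.ext ?_
    change blk e _ _ _ = _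
    rw [Prod.fst_one, Prod.snd_one, map_one, map_one, map_one]
    exact blk_one e
  map_mul' := by
    intro g h
    refine Units.ext ?_
    change blk e _ _ _ = _ * _
    rw [Prod.fst_mul, Prod.snd_mul, map_mul, map_mul, map_mul]
    exact blk_mul e _ _ _ _ _ _

lemma Phi_coe (e : (Fin n × Fin m) ⊕ Fin s ≃ Fin r) (α : H →* GL (Fin n) A)
    (β : K →* GL (Fin m) A) (σ : H × K →* GL (Fin s) A) (g : H × K) :
    (Phi e α β σ g : Matrix (Fin r) (Fin r) A) = blk e (α g.1) (β g.2) (σ g) := rfl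

lemma Phi_conj (e : (Fin n × Fin m) ⊕ Fin s ≃ Fin r) (P : GL (Fin n) A) (Q : GL (Fin m) A)
    (R : GL (Fin s) A) (α : H →* GL (Fin n) A) (β : K →* GL (Fin m) A)
    (σ : H × K →* GL (Fin s) A) :
    Phi e (conj P α) (conj Q β) (conj R σ) = conj (blkU e P Q R) (Phi e α β σ) := by
  refine MonoidHom.ext fun g => Units.ext ?_
  change blk e (P * α g.1 * P⁻¹ : GL (Fin n) A) (Q * β g.2 * Q⁻¹ : GL (Fin m) A)
    (R * σ g * R⁻¹ : GL (Fin s) A) = blk e (P : Matrix (Fin n) (Fin n) A) Q R *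
      blk e (α g.1 : Matrix (Fin n) (Fin n) A) (β g.2) (σ g) *
      blk e ((P⁻¹ : GL (Fin n) A) : Matrix (Fin n) (Fin n) A)
        ((Q⁻¹ : GL (Fin m) A) : Matrix (Fin m) (Fin m) A)
        ((R⁻¹ : GL (Fin s) A) : Matrix (Fin s) (Fin s) A)
  rw [← blk_mul, ← blk_mul]
  rfl

lemma Phi_map (e : (Fin n × Fin m) ⊕ Fin s ≃ Fin r) (φ : A →+* B) (α : H →* GL (Fin n) A)
    (β : K →* GL (Fin m) A) (σ : H × K →* GL (Fin s) A) :
    mapRep φ (Phi e α β σ) = Phi e (mapRep φ α) (mapRep φ β) (mapRep φ σ) := by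
  refine MonoidHom.ext fun g => Units.ext ?_
  rw [mapRep_coe, Phi_coe, Phi_coe, blk_map]
  rfl

end

lemma conj_one {A : Type} [CommRing A] (α : G →* GL (Fin r) A) : conj 1 α = α := by
  refine MonoidHom.ext fun g => ?_
  change 1 * α g * 1⁻¹ = α g
  simp

lemma mapRep_alg {A B : Type} [CommRing A] [Algebra ℂ A] [CommRing B] [Algebra ℂ B]
    (φ : A →ₐ[ℂ] B) (β : G →* GL (Fin r) ℂ) :
    mapRep (φ : A →+* B) (mapRep (algebraMap ℂ A) β) = mapRep (algebraMap ℂ B) β := by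
  rw [mapRep_comp]
  congr 1
  exact AlgHom.comp_algebraMap φ

/-- first variable -/
def nat1 (e : (Fin n × Fin m) ⊕ Fin s ≃ Fin r) (β : K →* GL (Fin m) ℂ)
    (σ : H × K →* GL (Fin s) ℂ) : NatRep H (H × K) n r where
  toFun := fun A _ _ α => Phi e α (mapRep (algebraMap ℂ A) β) (mapRep (algebraMap ℂ A) σ)
  nat := by
    intro A B _ _ _ _ φ α
    rw [Phi_map, mapRep_alg, mapRep_alg]
  con := by
    intro A _ _ P α
    refine ⟨blkU e P 1 1, ?_⟩
    rw [← Phi_conj, conj_one, conj_one]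

/-- second variable -/
def nat2 (e : (Fin n × Fin m) ⊕ Fin s ≃ Fin r) (α : H →* GL (Fin n) ℂ)
    (σ : H × K →* GL (Fin s) ℂ) : NatRep K (H × K) m r where
  toFun := fun A _ _ β => Phi e (mapRep (algebraMap ℂ A) α) β (mapRep (algebraMap ℂ A) σ)
  nat := by
    intro A B _ _ _ _ φ β
    rw [Phi_map, mapRep_alg, mapRep_alg]
  con := by
    intro A _ _ P β
    refine ⟨blkU e 1 P 1, ?_⟩
    rw [← Phi_conj, conj_one, conj_one]

/-- third variable -/
def nat3 (e : (Fin n × Fin m) ⊕ Fin s ≃ Fin r) (α : H →* GL (Fin n) ℂ)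
    (β : K →* GL (Fin m) ℂ) : NatRep (H × K) (H × K) s r where
  toFun := fun A _ _ σ => Phi e (mapRep (algebraMap ℂ A) α) (mapRep (algebraMap ℂ A) β) σ
  nat := by
    intro A B _ _ _ _ φ σ
    rw [Phi_map, mapRep_alg, mapRep_alg]
  con := by
    intro A _ _ P σ
    refine ⟨blkU e 1 1 P, ?_⟩
    rw [← Phi_conj, conj_one, conj_one]

lemma mapRep_id (β : G →* GL (Fin r) ℂ) : mapRep (algebraMap ℂ ℂ) β = β := by
  refine MonoidHom.ext fun g => Units.ext ?_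
  rw [mapRep_coe]
  ext i j
  rfl

/-- linked representations give linked representations -/
theorem Phi_linked (e : (Fin n × Fin m) ⊕ Fin s ≃ Fin r) {α α' : H →* GL (Fin n) ℂ}
    {β β' : K →* GL (Fin m) ℂ} {σ σ' : H × K →* GL (Fin s) ℂ} (hα : Linked α α')
    (hβ : Linked β β') (hσ : Linked σ σ') : Linked (Phi e α β σ) (Phi e α' β' σ') := by
  obtain ⟨S, hS, a1, a2⟩ := hα
  obtain ⟨T, hT, b1, b2⟩ := hβ
  obtain ⟨U, hU, c1, c2⟩ := hσ
  have h1 : ∀ (β : RepC K m) (σ : RepC (H × K) s),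
      Continuous (fun α : RepC H n => (show RepC (H × K) r from Phi e
        (show H →* GL (Fin n) ℂ from α) (show K →* GL (Fin m) ℂ from β)
        (show H × K →* GL (Fin s) ℂ from σ))) := by
    intro β σ
    have := natRep_continuous (nat1 e (show K →* GL (Fin m) ℂ from β)
      (show H × K →* GL (Fin s) ℂ from σ))
    refine this.congr fun x => ?_
    change Phi e _ _ _ = Phi e _ _ _
    congr 1
  have h2 : ∀ (α : RepC H n) (σ : RepC (H × K) s),
      Continuous (fun β : RepC K m => (show RepC (H × K) r from Phi e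
        (show H →* GL (Fin n) ℂ from α) (show K →* GL (Fin m) ℂ from β)
        (show H × K →* GL (Fin s) ℂ from σ))) := by
    intro α σ
    have := natRep_continuous (nat2 e (show H →* GL (Fin n) ℂ from α)
      (show H × K →* GL (Fin s) ℂ from σ))
    refine this.congr fun x => ?_
    change Phi e _ _ _ = Phi e _ _ _
    congr 1
  have h3 : ∀ (α : RepC H n) (β : RepC K m),
      Continuous (fun σ : RepC (H × K) s => (show RepC (H × K) r from Phi e
        (show H →* GL (Fin n) ℂ from α) (show K →* GL (Fin m) ℂ from β)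
        (show H × K →* GL (Fin s) ℂ from σ))) := by
    intro α β
    have := natRep_continuous (nat3 e (show H →* GL (Fin n) ℂ from α)
      (show K →* GL (Fin m) ℂ from β))
    refine this.congr fun x => ?_
    change Phi e _ _ _ = Phi e _ _ _
    congr 1
  -- three variables: image2 twice, with the product topology replaced by separate continuity
  have key : ∀ u v : Set (RepC (H × K) r), IsOpen u → IsOpen v →
      (∃ a ∈ S, ∃ b ∈ T, ∃ c ∈ U, (show RepC (H × K) r from Phi e a b c) ∈ u) →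
      (∃ a ∈ S, ∃ b ∈ T, ∃ c ∈ U, (show RepC (H × K) r from Phi e a b c) ∈ v) →
      ∃ a ∈ S, ∃ b ∈ T, ∃ c ∈ U, (show RepC (H × K) r from Phi e a b c) ∈ u ∩ v := by
    rintro u v hu hv ⟨x1, hx1, y1, hy1, z1, hz1, hu1⟩ ⟨x2, hx2, y2, hy2, z2, hz2, hv1⟩
    obtain ⟨x, hx, hxu, hxv⟩ := hS _ _ (hu.preimage (h1 y1 z1)) (hv.preimage (h1 y2 z2))
      ⟨x1, hx1, hu1⟩ ⟨x2, hx2, hv1⟩
    obtain ⟨y, hy, hyu, hyv⟩ := hT _ _ (hu.preimage (h2 x z1)) (hv.preimage (h2 x z2))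
      ⟨y1, hy1, hxu⟩ ⟨y2, hy2, hxv⟩
    obtain ⟨z, hz, hzu, hzv⟩ := hU _ _ (hu.preimage (h3 x y)) (hv.preimage (h3 x y))
      ⟨z1, hz1, hyu⟩ ⟨z2, hz2, hyv⟩
    exact ⟨x, hx, y, hy, z, hz, hzu, hzv⟩
  refine ⟨{ρ | ∃ a ∈ S, ∃ b ∈ T, ∃ c ∈ U, (show RepC (H × K) r from Phi e a b c) = ρ}, ?_,
    ⟨_, a1, _, b1, _, c1, rfl⟩, ⟨_, a2, _, b2, _, c2, rfl⟩⟩
  rintro u v hu hv ⟨_, ⟨x1, hx1, y1, hy1, z1, hz1, rfl⟩, hu1⟩
    ⟨_, ⟨x2, hx2, y2, hy2, z2, hz2, rfl⟩, hv1⟩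
  obtain ⟨x, hx, y, hy, z, hz, h⟩ := key u v hu hv ⟨x1, hx1, y1, hy1, z1, hz1, hu1⟩
    ⟨x2, hx2, y2, hy2, z2, hz2, hv1⟩
  exact ⟨_, ⟨x, hx, y, hy, z, hz, rfl⟩, h⟩

/-- conjugate into `GL_r (O)` for every valuation subring `O` -/
def LocInt (ρ : G →* GL (Fin r) ℂ) : Prop :=
  ∀ O : ValuationSubring ℂ, ∃ P : GL (Fin r) ℂ, ∀ (g : G) (i j : Fin r),
    (conj P ρ g : Matrix (Fin r) (Fin r) ℂ) i j ∈ O

lemma Phi_locInt (e : (Fin n × Fin m) ⊕ Fin s ≃ Fin r) {α : H →* GL (Fin n) ℂ}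
    {β : K →* GL (Fin m) ℂ} {σ : H × K →* GL (Fin s) ℂ} (hα : LocInt α) (hβ : LocInt β)
    (hσ : LocInt σ) : LocInt (Phi e α β σ) := by
  intro O
  obtain ⟨P, hP⟩ := hα O
  obtain ⟨Q, hQ⟩ := hβ O
  obtain ⟨R, hR⟩ := hσ O
  refine ⟨blkU e P Q R, ?_⟩
  rw [← Phi_conj]
  intro g i j
  rw [Phi_coe]
  unfold blk
  simp only [Matrix.reindex_apply, Matrix.submatrix_apply]
  rcases e.symm i with ⟨a1, a2⟩ | c1 <;> rcases e.symm j with ⟨b1, b2⟩ | d1
  · rw [Matrix.fromBlocks_apply₁₁, Matrix.kroneckerMap_apply]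
    exact O.mul_mem _ _ (hP _ _ _) (hQ _ _ _)
  · rw [Matrix.fromBlocks_apply₁₂]
    exact O.zero_mem
  · rw [Matrix.fromBlocks_apply₂₁]
    exact O.zero_mem
  · rw [Matrix.fromBlocks_apply₂₂]
    exact hR _ _ _

end Pool.Agent.Lib.BettiInt
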