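import Pool.Agent.Lib.MP_89b6e6_ag.DefsTwo
import Pool.Agent.Lib.MP_89b6e6_ag.Diag

/-!
Every representation has the same invariants as a semisimple one.
-/

namespace Pool.Agent.Lib.BettiInt

open Module

variable {G : Type} [Group G] {r : ℕ}

/-- a nonzero stable subspace contains a simple one -/
lemma exists_simple (N : Subgroup G) (ρ : G →* GL (Fin r) ℂ) (W : Submodule ℂ (Fin r → ℂ))
    (hW0 : W ≠ ⊥)
    (hW : ∀ n ∈ N, ∀ u ∈ W, (ρ n : Matrix (Fin r) (Fin r) ℂ).mulVec u ∈ W) :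
    ∃ V₁, V₁ ≤ W ∧ SimpleSub N ρ V₁ := by
  obtain ⟨V₁, ⟨hV0, hVW, hVst⟩, hVmin⟩ := WellFounded.has_min
    (α := Submodule ℂ (Fin r → ℂ)) wellFounded_lt
    {U : Submodule ℂ (Fin r → ℂ) | U ≠ ⊥ ∧ U ≤ W ∧
      ∀ n ∈ N, ∀ u ∈ U, (ρ n : Matrix (Fin r) (Fin r) ℂ).mulVec u ∈ U}
    ⟨W, hW0, le_rfl, hW⟩
  refine ⟨V₁, hVW, hV0, hVst, ?_⟩
  intro U hU hst
  by_cases hb : U = ⊥
  · exact Or.inl hb
  · right
    by_contra hne
    exact hVmin U ⟨hb, hU.trans hVW, hst⟩ (lt_of_le_of_ne hU hne)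

lemma socle_stable (N : Subgroup G) (ρ : G →* GL (Fin r) ℂ) (n : G) (hn : n ∈ N)
    (u : Fin r → ℂ) (hu : u ∈ sSup {U | SimpleSub N ρ U}) :
    (ρ n : Matrix (Fin r) (Fin r) ℂ).mulVec u ∈ sSup {U | SimpleSub N ρ U} := by
  have : sSup {U | SimpleSub N ρ U} ≤ (sSup {U | SimpleSub N ρ U}).comap
      (Matrix.mulVecLin (ρ n : Matrix (Fin r) (Fin r) ℂ)) := by
    refine sSup_le fun U hU => ?_
    intro w hw
    exact (le_sSup hU : U ≤ _) (hU.2.1 n hn w hw)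
  exact this hu

theorem exists_semisimple (ρ : G →* GL (Fin r) ℂ) :
    ∃ ρ' : G →* GL (Fin r) ℂ, SameInv ρ ρ' ∧ Semisimple ρ' := by
  classical
  obtain ⟨ρ', h1, hmin⟩ := WellFounded.has_min
    (measure (fun ρ' : G →* GL (Fin r) ℂ =>
      r - finrank ℂ (sSup {U | SimpleSub ⊤ ρ' U} : Submodule ℂ (Fin r → ℂ)))).wf
    {ρ' | SameInv ρ ρ'} ⟨ρ, SameInv.refl ρ⟩
  refine ⟨ρ', h1, ?_⟩
  by_contra hne
  set S : Submodule ℂ (Fin r → ℂ) := sSup {U | SimpleSub ⊤ ρ' U} with hS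
  obtain ⟨e, he, heU, heu⟩ := exists_proj S
  have hρe : ∀ g, e * (ρ' g : Matrix (Fin r) (Fin r) ℂ) * e =
      (ρ' g : Matrix (Fin r) (Fin r) ℂ) * e := by
    intro g
    refine Matrix.ext_of_mulVec_single fun i => ?_
    rw [← Matrix.mulVec_mulVec, ← Matrix.mulVec_mulVec, ← Matrix.mulVec_mulVec]
    exact heu _ (socle_stable ⊤ ρ' g trivial _ (heU _))
  let ρ'' := dgRep e he 0 ρ' hρe
  have hcoe : ∀ g, (ρ'' g : Matrix (Fin r) (Fin r) ℂ) =
      e * (ρ' g : Matrix (Fin r) (Fin r) ℂ) * e +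
        (1 - e) * (ρ' g : Matrix (Fin r) (Fin r) ℂ) * (1 - e) := by
    intro g
    simp only [ρ'', dgRep_coe, dg, zero_smul, add_zero]
  have hP : SameInv ρ ρ'' := h1.trans (sameInv_dgRep e he ρ' hρe 0)
  have hon : ∀ g, ∀ u ∈ S, (ρ'' g : Matrix (Fin r) (Fin r) ℂ).mulVec u =
      (ρ' g : Matrix (Fin r) (Fin r) ℂ).mulVec u := by
    intro g u hu
    rw [hcoe, hρe, Matrix.add_mulVec, ← Matrix.mulVec_mulVec, ← Matrix.mulVec_mulVec, heu u hu,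
      Matrix.sub_mulVec, heu u hu, Matrix.one_mulVec, sub_self, Matrix.mulVec_zero, add_zero]
  have hle : S ≤ sSup {U | SimpleSub ⊤ ρ'' U} := by
    refine sSup_le fun U hU => ?_
    have hUS : U ≤ S := le_sSup hU
    refine le_sSup ⟨hU.1, ?_, ?_⟩
    · intro n hn u hu
      rw [hon n u (hUS hu)]
      exact hU.2.1 n hn u hu
    · intro U' hU' hst
      refine hU.2.2 U' hU' ?_
      intro n hn u hu
      rw [← hon n u (hUS (hU' hu))]
      exact hst n hn u hu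
  let W : Submodule ℂ (Fin r → ℂ) := LinearMap.ker (Matrix.mulVecLin e)
  have hWm : ∀ w, w ∈ W ↔ e.mulVec w = 0 := by
    intro w
    simp [W]
  have hW0 : W ≠ ⊥ := by
    obtain ⟨v, -, hv⟩ := SetLike.exists_of_lt (lt_top_iff_ne_top.2 hne)
    intro hb
    have hw : v - e.mulVec v ∈ W := by
      rw [hWm, Matrix.mulVec_sub, Matrix.mulVec_mulVec, he, sub_self]
    rw [hb, Submodule.mem_bot, sub_eq_zero] at hw
    apply hv
    rw [hw]
    exact heU v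
  have hWst : ∀ n ∈ (⊤ : Subgroup G), ∀ u ∈ W,
      (ρ'' n : Matrix (Fin r) (Fin r) ℂ).mulVec u ∈ W := by
    intro n _ u hu
    rw [hWm] at hu ⊢
    have h0 : e * (1 - e) = 0 := by rw [mul_sub, mul_one, he, sub_self]
    have h1 : e * ((1 - e) * (ρ' n : Matrix (Fin r) (Fin r) ℂ) * (1 - e)) = 0 := by
      rw [mul_assoc, ← mul_assoc e (1 - e), h0, zero_mul]
    rw [hcoe, Matrix.mulVec_mulVec, mul_add, h1, add_zero, ← Matrix.mulVec_mulVec,
      ← Matrix.mulVec_mulVec, hu, Matrix.mulVec_zero, Matrix.mulVec_zero]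
  obtain ⟨V₁, hV₁W, hV₁⟩ := exists_simple ⊤ ρ'' W hW0 hWst
  obtain ⟨v, hvV, hv0⟩ := Submodule.exists_mem_ne_zero_of_ne_bot hV₁.1
  have hvn : v ∉ S := by
    intro h
    apply hv0
    rw [← heu v h]
    exact (hWm v).1 (hV₁W hvV)
  have hlt : S < sSup {U | SimpleSub ⊤ ρ'' U} := by
    refine lt_of_le_of_ne hle ?_
    intro h
    apply hvn
    rw [h]
    exact (le_sSup hV₁ : V₁ ≤ _) hvV
  have hfr := Submodule.finrank_lt_finrank_of_lt hlt
  have hfr2 : finrank ℂ (sSup {U | SimpleSub ⊤ ρ'' U} : Submodule ℂ (Fin r → ℂ)) ≤ r := by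
    have := Submodule.finrank_le (sSup {U | SimpleSub ⊤ ρ'' U} : Submodule ℂ (Fin r → ℂ))
    simpa using this
  refine hmin ρ'' hP ?_
  change r - finrank ℂ (sSup {U | SimpleSub ⊤ ρ'' U} : Submodule ℂ (Fin r → ℂ)) <
    r - finrank ℂ (sSup {U | SimpleSub ⊤ ρ' U} : Submodule ℂ (Fin r → ℂ))
  rw [← hS]
  omega

end Pool.Agent.Lib.BettiInt
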