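import Pool.Agent.Lib.MP_89b6e6_ag.PrDens
import Pool.Agent.Lib.MP_89b6e6_ag.PrBlock
import Pool.Agent.Lib.MP_89b6e6_ag.Semi

/-!
Every representation of a product of two groups has the invariants of a representation
`(α ⊗ β) ⊕ σ`.
-/

namespace Pool.Agent.Lib.BettiInt

open Module

variable {G H K : Type} [Group G] [Group H] [Group K] {r : ℕ}

/-- A stable subspace splits off, up to the invariants. -/
theorem exists_block (ρ : G →* GL (Fin r) ℂ) {ι : Type} [Fintype ι] [DecidableEq ι]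
    (t : ι → (Fin r → ℂ)) (hli : LinearIndependent ℂ t) (A : G → Matrix ι ι ℂ)
    (hA : ∀ g i, (ρ g : Matrix (Fin r) (Fin r) ℂ).mulVec (t i) = ∑ j, A g j i • t j) :
    ∃ (s : ℕ) (e : ι ⊕ Fin s ≃ Fin r) (σ : G →* GL (Fin s) ℂ) (ρ' : G →* GL (Fin r) ℂ),
      SameInv ρ ρ' ∧ ∀ g, (ρ' g : Matrix (Fin r) (Fin r) ℂ) =
        Matrix.reindex e e (Matrix.fromBlocks (A g) 0 0 (σ g : Matrix (Fin s) (Fin s) ℂ)) := by
  classical
  set V₁ : Submodule ℂ (Fin r → ℂ) := Submodule.span ℂ (Set.range t) with hV₁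
  have htV : ∀ i, t i ∈ V₁ := fun i => Submodule.subset_span ⟨i, rfl⟩
  have hst : ∀ g, ∀ u ∈ V₁, (ρ g : Matrix (Fin r) (Fin r) ℂ).mulVec u ∈ V₁ := by
    intro g u hu
    induction hu using Submodule.span_induction with
    | mem x hx =>
      obtain ⟨i, rfl⟩ := hx
      rw [hA]
      exact Submodule.sum_mem _ fun j _ => Submodule.smul_mem _ _ (htV j)
    | zero => rw [Matrix.mulVec_zero]; exact Submodule.zero_mem _
    | add x y _ _ hx hy => rw [Matrix.mulVec_add]; exact Submodule.add_mem _ hx hy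
    | smul c x _ hx => rw [Matrix.mulVec_smul]; exact Submodule.smul_mem _ _ hx
  obtain ⟨e₀, he, heU, heu⟩ := exists_proj V₁
  have hρe : ∀ g, e₀ * (ρ g : Matrix (Fin r) (Fin r) ℂ) * e₀ =
      (ρ g : Matrix (Fin r) (Fin r) ℂ) * e₀ := by
    intro g
    refine Matrix.ext_of_mulVec_single fun i => ?_
    rw [← Matrix.mulVec_mulVec, ← Matrix.mulVec_mulVec, ← Matrix.mulVec_mulVec]
    exact heu _ (hst g _ (heU _))
  let ρ'' := dgRep e₀ he 0 ρ hρe
  have hcoe : ∀ g, (ρ'' g : Matrix (Fin r) (Fin r) ℂ) =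
      e₀ * (ρ g : Matrix (Fin r) (Fin r) ℂ) * e₀ +
        (1 - e₀) * (ρ g : Matrix (Fin r) (Fin r) ℂ) * (1 - e₀) := by
    intro g
    simp only [ρ'', dgRep_coe, dg, zero_smul, add_zero]
  have hon : ∀ g, ∀ u ∈ V₁, (ρ'' g : Matrix (Fin r) (Fin r) ℂ).mulVec u =
      (ρ g : Matrix (Fin r) (Fin r) ℂ).mulVec u := by
    intro g u hu
    rw [hcoe, hρe, Matrix.add_mulVec, ← Matrix.mulVec_mulVec, ← Matrix.mulVec_mulVec, heu u hu,
      Matrix.sub_mulVec, heu u hu, Matrix.one_mulVec, sub_self, Matrix.mulVec_zero, add_zero]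
  let W₂ : Submodule ℂ (Fin r → ℂ) := LinearMap.ker (Matrix.mulVecLin e₀)
  have hWm : ∀ w, w ∈ W₂ ↔ e₀.mulVec w = 0 := by
    intro w
    simp [W₂]
  have hWst : ∀ g, ∀ u ∈ W₂, (ρ'' g : Matrix (Fin r) (Fin r) ℂ).mulVec u ∈ W₂ := by
    intro g u hu
    rw [hWm] at hu ⊢
    have h0 : e₀ * (1 - e₀) = 0 := by rw [mul_sub, mul_one, he, sub_self]
    have h1 : e₀ * ((1 - e₀) * (ρ g : Matrix (Fin r) (Fin r) ℂ) * (1 - e₀)) = 0 := by
      rw [mul_assoc, ← mul_assoc e₀ (1 - e₀), h0, zero_mul]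
    rw [hcoe, Matrix.mulVec_mulVec, mul_add, h1, add_zero, ← Matrix.mulVec_mulVec,
      ← Matrix.mulVec_mulVec, hu, Matrix.mulVec_zero, Matrix.mulVec_zero]
  have hcompl : IsCompl V₁ W₂ := by
    refine ⟨?_, ?_⟩
    · rw [Submodule.disjoint_def]
      intro x hx hx2
      rw [hWm, heu x hx] at hx2
      exact hx2
    · rw [codisjoint_iff, eq_top_iff]
      intro x _
      rw [Submodule.mem_sup]
      refine ⟨e₀.mulVec x, heU x, x - e₀.mulVec x, ?_, by abel⟩
      rw [hWm, Matrix.mulVec_sub, Matrix.mulVec_mulVec, he, sub_self]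
  let c₁ : Basis ι ℂ V₁ := Basis.span hli
  have hc₁ : ∀ i, (c₁ i : Fin r → ℂ) = t i := fun i =>
    congrArg Subtype.val (Basis.span_apply hli i)
  let s := finrank ℂ W₂
  let c₂ : Basis (Fin s) ℂ W₂ := Module.finBasis ℂ W₂
  let c : Basis (ι ⊕ Fin s) ℂ (Fin r → ℂ) :=
    (c₁.prod c₂).map (Submodule.prodEquivOfIsCompl V₁ W₂ hcompl)
  have hcl : ∀ i, c (Sum.inl i) = t i := by
    intro i
    simp only [c, Basis.map_apply, Submodule.coe_prodEquivOfIsCompl', Basis.prod_apply_inl_fst,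
      Basis.prod_apply_inl_snd, hc₁]
    simp
  have hcr : ∀ i, c (Sum.inr i) = (c₂ i : Fin r → ℂ) := by
    intro i
    simp only [c, Basis.map_apply, Submodule.coe_prodEquivOfIsCompl', Basis.prod_apply_inr_fst,
      Basis.prod_apply_inr_snd]
    simp
  have hcard : Fintype.card (ι ⊕ Fin s) = Fintype.card (Fin r) := by
    rw [← Module.finrank_eq_card_basis c, Module.finrank_fintype_fun_eq_card]
  let e : ι ⊕ Fin s ≃ Fin r := Fintype.equivOfCardEq hcard
  let c' : Basis (Fin r) ℂ (Fin r → ℂ) := c.reindex e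
  have hc' : ∀ y, c' y = c (e.symm y) := fun y => Basis.reindex_apply _ _ _
  let P : GL (Fin r) ℂ :=
    { val := (Pi.basisFun ℂ (Fin r)).toMatrix c'
      inv := c'.toMatrix (Pi.basisFun ℂ (Fin r))
      val_inv := Basis.toMatrix_mul_toMatrix_flip _ _
      inv_val := Basis.toMatrix_mul_toMatrix_flip _ _ }
  have hP : ∀ x y, (P : Matrix (Fin r) (Fin r) ℂ) x y = c' y x := by
    intro x y
    change (Pi.basisFun ℂ (Fin r)).toMatrix c' x y = _
    rw [Basis.toMatrix_apply, Pi.basisFun_repr]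
  let τ : G →* Module.End ℂ W₂ :=
    { toFun := fun g => (Matrix.mulVecLin (ρ'' g : Matrix (Fin r) (Fin r) ℂ)).restrict (hWst g)
      map_one' := by
        refine LinearMap.ext fun v => Subtype.ext ?_
        simp
      map_mul' := by
        intro g h
        refine LinearMap.ext fun v => Subtype.ext ?_
        change (ρ'' (g * h) : Matrix (Fin r) (Fin r) ℂ).mulVec v =
          (ρ'' g : Matrix (Fin r) (Fin r) ℂ).mulVec
            ((ρ'' h : Matrix (Fin r) (Fin r) ℂ).mulVec v)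
        rw [map_mul, Units.val_mul, Matrix.mulVec_mulVec] }
  let σ : G →* GL (Fin s) ℂ := MonoidHom.toHomUnits
    (((LinearMap.toMatrixAlgEquiv c₂ : Module.End ℂ W₂ ≃ₐ[ℂ] _) : Module.End ℂ W₂ →* _).comp τ)
  have hσ : ∀ g i, (ρ'' g : Matrix (Fin r) (Fin r) ℂ).mulVec (c₂ i : Fin r → ℂ) =
      ∑ j, (σ g : Matrix (Fin s) (Fin s) ℂ) j i • (c₂ j : Fin r → ℂ) := by
    intro g i
    have h1 : (σ g : Matrix (Fin s) (Fin s) ℂ) = LinearMap.toMatrixAlgEquiv c₂ (τ g) := rfl
    have h2 : ∀ j, (σ g : Matrix (Fin s) (Fin s) ℂ) j i = c₂.repr (τ g (c₂ i)) j := by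
      intro j
      rw [h1, LinearMap.toMatrixAlgEquiv_apply]
    have h3 := c₂.sum_repr (τ g (c₂ i))
    have h4 := congrArg (fun w : W₂ => (w : Fin r → ℂ)) h3
    simp only [Submodule.coe_sum, Submodule.coe_smul] at h4
    simp only [h2]
    rw [h4]
    rfl
  refine ⟨s, e, σ, conj P⁻¹ ρ'', (sameInv_dgRep e₀ he ρ hρe 0).trans (sameInv_conj _ _), ?_⟩
  intro g
  set B := Matrix.reindex e e (Matrix.fromBlocks (A g) 0 0 (σ g : Matrix (Fin s) (Fin s) ℂ))
    with hB
  have key : (ρ'' g : Matrix (Fin r) (Fin r) ℂ) * (P : Matrix (Fin r) (Fin r) ℂ) =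
      (P : Matrix (Fin r) (Fin r) ℂ) * B := by
    ext x y
    have hL : ((ρ'' g : Matrix (Fin r) (Fin r) ℂ) * (P : Matrix (Fin r) (Fin r) ℂ)) x y =
        (ρ'' g : Matrix (Fin r) (Fin r) ℂ).mulVec (c' y) x := by
      rw [Matrix.mul_apply, Matrix.mulVec]
      exact Finset.sum_congr rfl fun z _ => by rw [hP]
    have hR : ((P : Matrix (Fin r) (Fin r) ℂ) * B) x y =
        ∑ z : ι ⊕ Fin s, c z x * Matrix.fromBlocks (A g) 0 0
          (σ g : Matrix (Fin s) (Fin s) ℂ) z (e.symm y) := by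
      rw [Matrix.mul_apply, ← Equiv.sum_comp e]
      refine Finset.sum_congr rfl fun z _ => ?_
      rw [hP, hc', Equiv.symm_apply_apply, hB, Matrix.reindex_apply, Matrix.submatrix_apply,
        Equiv.symm_apply_apply]
    rw [hL, hR, hc', Fintype.sum_sum_type]
    rcases e.symm y with i | i
    · rw [hcl, hon g _ (htV i), hA]
      simp only [Matrix.fromBlocks_apply₁₁, Matrix.fromBlocks_apply₂₁, Matrix.zero_apply, mul_zero,
        Finset.sum_const_zero, add_zero, hcl]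
      rw [Finset.sum_apply]
      exact Finset.sum_congr rfl fun j _ => by rw [Pi.smul_apply, smul_eq_mul, mul_comm]
    · rw [hcr, hσ]
      simp only [Matrix.fromBlocks_apply₁₂, Matrix.fromBlocks_apply₂₂, Matrix.zero_apply, mul_zero,
        Finset.sum_const_zero, zero_add, hcr]
      rw [Finset.sum_apply]
      exact Finset.sum_congr rfl fun j _ => by rw [Pi.smul_apply, smul_eq_mul, mul_comm]
  change (P⁻¹ * ρ'' g * (P⁻¹)⁻¹ : GL (Fin r) ℂ) = B
  rw [inv_inv, Units.val_mul, Units.val_mul, mul_assoc, key, ← mul_assoc, ← Units.val_mul,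
    inv_mul_cancel, Units.val_one, one_mul]

section
variable {n : ℕ} (ρ : H × K →* GL (Fin r) ℂ) (α : H →* GL (Fin n) ℂ)

/-- the equivariant matrices -/
def eqv : Submodule ℂ (Matrix (Fin r) (Fin n) ℂ) where
  carrier := {X | ∀ h, (ρ (h, 1) : Matrix (Fin r) (Fin r) ℂ) * X =
    X * (α h : Matrix (Fin n) (Fin n) ℂ)}
  add_mem' := by
    intro X Y hX hY h
    rw [Matrix.mul_add, Matrix.add_mul, hX, hY]
  zero_mem' := by
    intro h
    rw [Matrix.mul_zero, Matrix.zero_mul]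
  smul_mem' := by
    intro c X hX h
    rw [Matrix.mul_smul, Matrix.smul_mul, hX]

lemma eqv_mul (X : eqv ρ α) (h : H) :
    (ρ (h, 1) : Matrix (Fin r) (Fin r) ℂ) * (X : Matrix (Fin r) (Fin n) ℂ) =
      (X : Matrix (Fin r) (Fin n) ℂ) * (α h : Matrix (Fin n) (Fin n) ℂ) := X.2 h

/-- the action of an element of the second factor on the equivariant matrices -/
noncomputable def act2Fun (k : K) : Module.End ℂ (eqv ρ α) where
  toFun := fun X => ⟨(ρ (1, k) : Matrix (Fin r) (Fin r) ℂ) * (X : Matrix (Fin r) (Fin n) ℂ), by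
      intro h
      rw [← Matrix.mul_assoc, ← Units.val_mul, ← map_mul, Prod.mk_mul_mk, mul_one, one_mul,
        Matrix.mul_assoc, ← eqv_mul, ← Matrix.mul_assoc, ← Units.val_mul, ← map_mul,
        Prod.mk_mul_mk, mul_one, one_mul]⟩
  map_add' := by
    intro X Y
    exact Subtype.ext (Matrix.mul_add _ _ _)
  map_smul' := by
    intro c X
    exact Subtype.ext (Matrix.mul_smul _ _ _)

lemma act2Fun_apply (k : K) (X : eqv ρ α) :
    ((act2Fun ρ α k X : eqv ρ α) : Matrix (Fin r) (Fin n) ℂ) =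
      (ρ (1, k) : Matrix (Fin r) (Fin r) ℂ) * (X : Matrix (Fin r) (Fin n) ℂ) := rfl

/-- the action of the second factor on the equivariant matrices -/
noncomputable def act2 : K →* Module.End ℂ (eqv ρ α) where
  toFun := act2Fun ρ α
  map_one' := by
    refine LinearMap.ext fun X => Subtype.ext ?_
    rw [act2Fun_apply]
    have : ρ ((1 : H), (1 : K)) = 1 := map_one ρ
    rw [this, Units.val_one, Matrix.one_mul]
    rfl
  map_mul' := by
    intro k l
    refine LinearMap.ext fun X => Subtype.ext ?_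
    have : ρ ((1 : H), (k * l : K)) = ρ (1, k) * ρ (1, l) := by
      rw [← map_mul, Prod.mk_mul_mk, one_mul]
    rw [Module.End.mul_apply, act2Fun_apply, act2Fun_apply, act2Fun_apply, this, Units.val_mul,
      Matrix.mul_assoc]

/-- the endomorphisms which extend -/
def extAlg : Subalgebra ℂ (Module.End ℂ (Fin n → ℂ)) where
  carrier := {f | ∃ F : Module.End ℂ (Fin r → ℂ), ∀ X : eqv ρ α, ∀ u,
    (X : Matrix (Fin r) (Fin n) ℂ).mulVec (f u) =
      F ((X : Matrix (Fin r) (Fin n) ℂ).mulVec u)}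
  mul_mem' := by
    rintro f g ⟨F, hF⟩ ⟨F', hF'⟩
    refine ⟨F * F', fun X u => ?_⟩
    rw [Module.End.mul_apply, Module.End.mul_apply, hF, hF']
  add_mem' := by
    rintro f g ⟨F, hF⟩ ⟨F', hF'⟩
    refine ⟨F + F', fun X u => ?_⟩
    rw [LinearMap.add_apply, LinearMap.add_apply, Matrix.mulVec_add, hF, hF']
  algebraMap_mem' := by
    intro c
    refine ⟨algebraMap ℂ _ c, fun X u => ?_⟩
    rw [Module.algebraMap_end_apply, Module.algebraMap_end_apply, Matrix.mulVec_smul]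

lemma extAlg_top (hn : 0 < n) (hirr : ∀ W : Submodule ℂ (Fin n → ℂ),
    (∀ h : H, ∀ u ∈ W, (α h : Matrix (Fin n) (Fin n) ℂ).mulVec u ∈ W) →
    W = ⊥ ∨ W = ⊤) : extAlg ρ α = ⊤ := by
  have hUnt : Nontrivial (Fin n → ℂ) := by
    have : Nonempty (Fin n) := ⟨⟨0, hn⟩⟩
    infer_instance
  apply burnside
  intro W hW
  apply hirr
  intro h w hw
  have hτS : Matrix.mulVecLin (α h : Matrix (Fin n) (Fin n) ℂ) ∈ extAlg ρ α := by
    refine ⟨Matrix.mulVecLin (ρ (h, 1) : Matrix (Fin r) (Fin r) ℂ), fun X u => ?_⟩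
    rw [Matrix.mulVecLin_apply, Matrix.mulVecLin_apply, Matrix.mulVec_mulVec,
      Matrix.mulVec_mulVec, eqv_mul]
  exact hW _ hτS w hw

end

lemma eqv_inj {U : Type} [AddCommGroup U] [Module ℂ U] {V : Type} [AddCommGroup V] [Module ℂ V]
    {M : Type} [AddCommGroup M] [Module ℂ M] (φ : M →ₗ[ℂ] (U →ₗ[ℂ] V))
    (hφ : Function.Injective φ)
    (hext : ∀ f : Module.End ℂ U, ∃ F : Module.End ℂ V, ∀ (X : M) u, φ X (f u) = F (φ X u))
    {n m : ℕ} (bU : Basis (Fin n) ℂ U) (bE : Basis (Fin m) ℂ M) (u : Fin m → U)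
    (hu : ∑ j, φ (bE j) (u j) = 0) (j₀ : Fin m) : u j₀ = 0 := by
  have h1 : ∀ a, ∀ j, bU.coord a (u j) = 0 := by
    intro a
    have h2 : ∑ j, bU.coord a (u j) • bE j = 0 := by
      apply hφ
      rw [map_zero, map_sum]
      refine LinearMap.ext fun w => ?_
      rw [LinearMap.sum_apply, LinearMap.zero_apply]
      obtain ⟨F, hF⟩ := hext ((bU.coord a).smulRight w)
      have h3 : ∑ j, φ (bE j) ((bU.coord a).smulRight w (u j)) = 0 := by
        simp only [hF]
        rw [← map_sum, hu, map_zero]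
      rw [← h3]
      refine Finset.sum_congr rfl fun j _ => ?_
      rw [map_smul, LinearMap.smul_apply, LinearMap.smulRight_apply, map_smul]
    exact fun j => Fintype.linearIndependent_iff.1 bE.linearIndependent _ h2 j
  refine bU.ext_elem fun a => ?_
  have := h1 a j₀
  rw [Basis.coord_apply] at this
  rw [this]
  simp

/-- the matrix representation of an action in a basis -/
noncomputable def matRep {L : Type} [Group L] {M : Type} [AddCommGroup M] [Module ℂ M] {n : ℕ}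
    (b : Basis (Fin n) ℂ M) (τ : L →* Module.End ℂ M) : L →* GL (Fin n) ℂ :=
  MonoidHom.toHomUnits
    (((LinearMap.toMatrixAlgEquiv b : Module.End ℂ M ≃ₐ[ℂ] _) : Module.End ℂ M →* _).comp τ)

lemma matRep_sum {L : Type} [Group L] {M : Type} [AddCommGroup M] [Module ℂ M] {n : ℕ}
    (b : Basis (Fin n) ℂ M) (τ : L →* Module.End ℂ M) (l : L) (j : Fin n) :
    τ l (b j) = ∑ i, (matRep b τ l : Matrix (Fin n) (Fin n) ℂ) i j • b i := by
  have h2 : ∀ i, (matRep b τ l : Matrix (Fin n) (Fin n) ℂ) i j = b.repr (τ l (b j)) i := by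
    intro i
    have h1 : (matRep b τ l : Matrix (Fin n) (Fin n) ℂ) = LinearMap.toMatrixAlgEquiv b (τ l) :=
      rfl
    rw [h1, LinearMap.toMatrixAlgEquiv_apply]
  simp only [h2]
  exact (b.sum_repr _).symm

/-- **Decomposition.** -/
theorem exists_Phi (ρ : H × K →* GL (Fin r) ℂ) (hr : 0 < r) :
    ∃ (n m s : ℕ) (e : (Fin n × Fin m) ⊕ Fin s ≃ Fin r) (α : H →* GL (Fin n) ℂ)
      (β : K →* GL (Fin m) ℂ) (σ : H × K →* GL (Fin s) ℂ), 0 < n ∧ 0 < m ∧
      SameInv ρ (Phi e α β σ) := by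
  classical
  have hne : (⊤ : Submodule ℂ (Fin r → ℂ)) ≠ ⊥ := by
    have : Nontrivial (Fin r → ℂ) := by
      have : Nonempty (Fin r) := ⟨⟨0, hr⟩⟩
      infer_instance
    exact top_ne_bot
  obtain ⟨U, -, hU0, hUst0, hUirr0⟩ := exists_simple (Subgroup.prod (⊤ : Subgroup H)
    (⊥ : Subgroup K)) ρ ⊤ hne (fun _ _ _ _ => trivial)
  have hN : ∀ h : H, ((h, 1) : H × K) ∈ Subgroup.prod (⊤ : Subgroup H) (⊥ : Subgroup K) := by
    intro h
    rw [Subgroup.mem_prod]
    exact ⟨trivial, Subgroup.mem_bot.2 rfl⟩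
  have hUst : ∀ h : H, ∀ u ∈ U, (ρ (h, 1) : Matrix (Fin r) (Fin r) ℂ).mulVec u ∈ U :=
    fun h u hu => hUst0 _ (hN h) u hu
  let τ : H →* Module.End ℂ U :=
    { toFun := fun h =>
        (Matrix.mulVecLin (ρ (h, 1) : Matrix (Fin r) (Fin r) ℂ)).restrict (hUst h)
      map_one' := by
        refine LinearMap.ext fun v => Subtype.ext ?_
        change (ρ ((1 : H), (1 : K)) : Matrix (Fin r) (Fin r) ℂ).mulVec v = v
        have : ρ ((1 : H), (1 : K)) = 1 := map_one ρ
        rw [this, Units.val_one, Matrix.one_mulVec]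
      map_mul' := by
        intro g h
        refine LinearMap.ext fun v => Subtype.ext ?_
        change (ρ ((g * h : H), (1 : K)) : Matrix (Fin r) (Fin r) ℂ).mulVec v =
          (ρ (g, 1) : Matrix (Fin r) (Fin r) ℂ).mulVec
            ((ρ (h, 1) : Matrix (Fin r) (Fin r) ℂ).mulVec v)
        have : ρ ((g * h : H), (1 : K)) = ρ (g, 1) * ρ (h, 1) := by
          rw [← map_mul, Prod.mk_mul_mk, one_mul]
        rw [this, Units.val_mul, Matrix.mulVec_mulVec] }
  obtain ⟨n, bU, hn⟩ : ∃ (n : ℕ) (_ : Basis (Fin n) ℂ U), 0 < n := by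
    have hUnt : Nontrivial U := Submodule.nontrivial_iff_ne_bot.2 hU0
    exact ⟨_, Module.finBasis ℂ U, Module.finrank_pos⟩
  let α : H →* GL (Fin n) ℂ := matRep bU τ
  let J : Matrix (Fin r) (Fin n) ℂ := fun x a => (bU a : Fin r → ℂ) x
  have hJ : ∀ w : Fin n → ℂ, J.mulVec w = ((∑ a, w a • bU a : U) : Fin r → ℂ) := by
    intro w
    ext x
    rw [Submodule.coe_sum, Finset.sum_apply, Matrix.mulVec, dotProduct]
    refine Finset.sum_congr rfl fun a _ => ?_
    rw [Submodule.coe_smul, Pi.smul_apply, smul_eq_mul, mul_comm]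
  have hJinj : ∀ w : Fin n → ℂ, J.mulVec w = 0 → w = 0 := by
    intro w hw
    rw [hJ] at hw
    have h1 : ∑ a, w a • bU a = 0 := Subtype.ext hw
    funext a
    exact Fintype.linearIndependent_iff.1 bU.linearIndependent _ h1 a
  have hJe : ∀ h, (ρ (h, 1) : Matrix (Fin r) (Fin r) ℂ) * J =
      J * (α h : Matrix (Fin n) (Fin n) ℂ) := by
    intro h
    ext x a
    have h1 := matRep_sum bU τ h a
    have h2 := congrArg (fun u : U => (u : Fin r → ℂ) x) h1
    simp only [Submodule.coe_sum, Submodule.coe_smul, Finset.sum_apply, Pi.smul_apply,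
      smul_eq_mul] at h2
    rw [Matrix.mul_apply, Matrix.mul_apply]
    calc ∑ y, (ρ (h, 1) : Matrix (Fin r) (Fin r) ℂ) x y * J y a =
          ((τ h (bU a) : U) : Fin r → ℂ) x := rfl
      _ = _ := h2
      _ = _ := Finset.sum_congr rfl fun b _ => mul_comm _ _
  have hirr : ∀ W : Submodule ℂ (Fin n → ℂ),
      (∀ h : H, ∀ u ∈ W, (α h : Matrix (Fin n) (Fin n) ℂ).mulVec u ∈ W) → W = ⊥ ∨ W = ⊤ := by
    intro W hW
    rcases hUirr0 (W.map (Matrix.mulVecLin J)) (by
      rintro _ ⟨w, _, rfl⟩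
      rw [Matrix.mulVecLin_apply, hJ]
      exact (∑ a, w a • bU a : U).2) (by
      rintro ⟨h, k⟩ hk _ ⟨w, hw, rfl⟩
      rw [Subgroup.mem_prod, Subgroup.mem_bot] at hk
      obtain ⟨-, hk⟩ := hk
      simp only at hk
      subst hk
      refine ⟨_, hW h w hw, ?_⟩
      rw [Matrix.mulVecLin_apply, Matrix.mulVecLin_apply, Matrix.mulVec_mulVec,
        Matrix.mulVec_mulVec, hJe]) with h | h
    · left
      rw [eq_bot_iff]
      intro w hw
      have h1 : J.mulVec w ∈ W.map (Matrix.mulVecLin J) := ⟨w, hw, rfl⟩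
      rw [h, Submodule.mem_bot] at h1
      rw [Submodule.mem_bot]
      exact hJinj w h1
    · right
      rw [eq_top_iff]
      intro w _
      have h1 : J.mulVec w ∈ W.map (Matrix.mulVecLin J) := by
        rw [h, hJ]
        exact (∑ a, w a • bU a : U).2
      obtain ⟨w', hw', hww⟩ := h1
      rw [Matrix.mulVecLin_apply] at hww
      have h2 : w' - w = 0 := hJinj _ (by rw [Matrix.mulVec_sub, hww, sub_self])
      rw [← sub_eq_zero.1 h2]
      exact hw'
  have htop : extAlg ρ α = ⊤ := extAlg_top ρ α hn hirr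
  have hEnt : Nontrivial (eqv ρ α) := by
    refine ⟨⟨⟨J, hJe⟩, 0, ?_⟩⟩
    intro h
    have h1 : J = 0 := congrArg Subtype.val h
    have h2 := hJinj (Pi.single ⟨0, hn⟩ 1) (by rw [h1, Matrix.zero_mulVec])
    have h3 := congrFun h2 ⟨0, hn⟩
    rw [Pi.single_eq_same, Pi.zero_apply] at h3
    exact one_ne_zero h3
  obtain ⟨m, bE, hm⟩ : ∃ (m : ℕ) (_ : Basis (Fin m) ℂ (eqv ρ α)), 0 < m :=
    ⟨_, Module.finBasis ℂ (eqv ρ α), Module.finrank_pos⟩
  let β : K →* GL (Fin m) ℂ := matRep bE (act2 ρ α)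
  let t : Fin n × Fin m → (Fin r → ℂ) := fun p x => (bE p.2 : Matrix (Fin r) (Fin n) ℂ) x p.1
  have hli : LinearIndependent ℂ t := by
    rw [Fintype.linearIndependent_iff]
    intro v hv p
    have h1 : ∑ j, (bE j : Matrix (Fin r) (Fin n) ℂ).mulVec (fun a => v (a, j)) = 0 := by
      rw [← hv, Fintype.sum_prod_type_right]
      refine Finset.sum_congr rfl fun j _ => ?_
      ext x
      rw [Matrix.mulVec, dotProduct, Finset.sum_apply]
      refine Finset.sum_congr rfl fun a _ => ?_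
      rw [Pi.smul_apply, smul_eq_mul, mul_comm]
    have h2 := eqv_inj ((Matrix.toLin' : Matrix (Fin r) (Fin n) ℂ ≃ₗ[ℂ] _).toLinearMap ∘ₗ
      (eqv ρ α).subtype) (by
        rw [LinearMap.coe_comp]
        exact (LinearEquiv.injective _).comp Subtype.val_injective) (by
      intro f
      have hf : f ∈ extAlg ρ α := by rw [htop]; trivial
      exact hf) (Pi.basisFun ℂ (Fin n)) bE (fun j a => v (a, j)) h1 p.2
    exact congrFun h2 p.1
  obtain ⟨s, e, σ, ρ', hρ', hco⟩ := exists_block ρ t hli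
    (fun g => Matrix.kroneckerMap (· * ·) (α g.1 : Matrix (Fin n) (Fin n) ℂ)
      (β g.2 : Matrix (Fin m) (Fin m) ℂ)) (by
    rintro ⟨h, k⟩ ⟨a, j⟩
    have h1 : ρ (h, k) = ρ (h, 1) * ρ (1, k) := by
      rw [← map_mul, Prod.mk_mul_mk, mul_one, one_mul]
    ext x
    have h2 : (ρ (h, k) : Matrix (Fin r) (Fin r) ℂ).mulVec (t (a, j)) x =
        ((ρ (h, k) : Matrix (Fin r) (Fin r) ℂ) * (bE j : Matrix (Fin r) (Fin n) ℂ)) x a := rfl
    have h3 := congrArg (fun X : eqv ρ α => (X : Matrix (Fin r) (Fin n) ℂ))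
      (matRep_sum bE (act2 ρ α) k j)
    simp only [Submodule.coe_sum, Submodule.coe_smul] at h3
    have h4 : ((act2 ρ α k (bE j) : eqv ρ α) : Matrix (Fin r) (Fin n) ℂ) =
      (ρ (1, k) : Matrix (Fin r) (Fin r) ℂ) * (bE j : Matrix (Fin r) (Fin n) ℂ) := rfl
    rw [h4] at h3
    have h5 : (ρ (h, k) : Matrix (Fin r) (Fin r) ℂ) * (bE j : Matrix (Fin r) (Fin n) ℂ) =
        ∑ i, (β k : Matrix (Fin m) (Fin m) ℂ) i j •
          ((bE i : Matrix (Fin r) (Fin n) ℂ) * (α h : Matrix (Fin n) (Fin n) ℂ)) := by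
      rw [h1, Units.val_mul, Matrix.mul_assoc, h3, Matrix.mul_sum]
      refine Finset.sum_congr rfl fun i _ => ?_
      rw [Matrix.mul_smul, eqv_mul]
    have h6 : ((ρ (h, k) : Matrix (Fin r) (Fin r) ℂ) * (bE j : Matrix (Fin r) (Fin n) ℂ)) x a =
        ∑ i, ∑ b, (β k : Matrix (Fin m) (Fin m) ℂ) i j *
          ((bE i : Matrix (Fin r) (Fin n) ℂ) x b * (α h : Matrix (Fin n) (Fin n) ℂ) b a) := by
      rw [h5, Matrix.sum_apply]
      refine Finset.sum_congr rfl fun i _ => ?_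
      rw [Matrix.smul_apply, Matrix.mul_apply, Finset.smul_sum]
      rfl
    rw [Finset.sum_apply, Fintype.sum_prod_type_right]
    refine Eq.trans h2 (h6.trans ?_)
    refine Finset.sum_congr rfl fun i _ => ?_
    refine Finset.sum_congr rfl fun b _ => ?_
    rw [Pi.smul_apply, Matrix.kroneckerMap_apply, smul_eq_mul]
    change (β k : Matrix (Fin m) (Fin m) ℂ) i j *
          ((bE i : Matrix (Fin r) (Fin n) ℂ) x b * (α h : Matrix (Fin n) (Fin n) ℂ) b a) =
      (α h : Matrix (Fin n) (Fin n) ℂ) b a * (β k : Matrix (Fin m) (Fin m) ℂ) i j *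
        (bE i : Matrix (Fin r) (Fin n) ℂ) x b
    ring)
  refine ⟨n, m, s, e, α, β, σ, hn, hm, ?_⟩
  have : ρ' = Phi e α β σ := by
    refine MonoidHom.ext fun g => Units.ext ?_
    rw [hco, Phi_coe]
    rfl
  rw [← this]
  exact hρ'

end Pool.Agent.Lib.BettiInt
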