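import Pool.Agent.Lib.MP_89b6e6_ag.Main
import Pool.Agent.Lib.MP_89b6e6_ag.PrBlock
import Pool.Agent.Lib.MP_89b6e6_ag.PrDec

/-!
Components of the Betti moduli spaces of a product of groups.
-/

open TensorProduct

namespace Pool.Agent.Lib.BettiInt

variable {G H K : Type} [Group G] [Group H] [Group K] {r : ℕ}

lemma Linked.congr {ρ ρ' ρ'' : G →* GL (Fin r) ℂ} (h : Linked ρ ρ') (h' : pt ρ = pt ρ'') :
    Linked ρ'' ρ' := by
  obtain ⟨S, hS, h1, h2⟩ := h
  refine ⟨insert (show RepC G r from ρ'') S, ?_, Set.mem_insert _ _, Set.mem_insert_of_mem _ h2⟩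
  have key : ∀ U : Set (RepC G r), IsOpen U →
      (insert (show RepC G r from ρ'') S ∩ U).Nonempty → (S ∩ U).Nonempty := by
    rintro U hU ⟨x, hx | hx, hxU⟩
    · obtain ⟨V, hV, rfl⟩ := isOpen_induced_iff.1 hU
      refine ⟨_, h1, ?_⟩
      subst hx
      change pt ρ ∈ V
      rw [h']
      exact hxU
    · exact ⟨x, hx, hxU⟩
  intro u v hu hv hSu hSv
  obtain ⟨x, hx, hxu, hxv⟩ := hS u v hu hv (key u hu hSu) (key v hv hSv)
  exact ⟨x, Set.mem_insert_of_mem _ hx, hxu, hxv⟩

/-- Every irreducible component of the Betti moduli space of rank `s` contains the point of a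
locally integral representation. -/
def CompInt (G : Type) [Group G] (s : ℕ) : Prop :=
  ∀ W ∈ irreducibleComponents (MB G s), ∃ ρ : G →* GL (Fin s) ℂ, LocInt ρ ∧ pt ρ ∈ W

lemma linked_of_compInt [Group.FG G] (h : CompInt G r) (ρ : G →* GL (Fin r) ℂ) :
    ∃ ρ₀ : G →* GL (Fin r) ℂ, LocInt ρ₀ ∧ Linked ρ ρ₀ := by
  have hmem := irreducibleComponent_mem_irreducibleComponents (pt ρ)
  obtain ⟨ρ₀, h1, h2⟩ := h _ hmem
  exact ⟨ρ₀, h1, _, irr_component _ hmem, mem_irreducibleComponent, h2⟩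

theorem linked_prod [Group.FG H] [Group.FG K] (r : ℕ)
    (hH : ∀ s, 0 < s → s ≤ r → CompInt H s) (hK : ∀ s, 0 < s → s ≤ r → CompInt K s)
    (ρ : H × K →* GL (Fin r) ℂ) :
    ∃ ρ₀ : H × K →* GL (Fin r) ℂ, LocInt ρ₀ ∧ Linked ρ ρ₀ := by
  induction r using Nat.strong_induction_on with
  | _ r ih =>
    rcases Nat.eq_zero_or_pos r with hr | hr
    · subst hr
      refine ⟨ρ, ?_, {ρ}, isPreirreducible_singleton, rfl, rfl⟩
      intro O
      exact ⟨1, fun _ i => i.elim0⟩
    · obtain ⟨n, m, s, e, α, β, σ, hn, hm, hs⟩ := exists_Phi ρ hr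
      have hcard : n * m + s = r := by
        have := Fintype.card_congr e
        simpa using this
      have h1 : n ≤ n * m := Nat.le_mul_of_pos_right n hm
      have h2 : m ≤ n * m := Nat.le_mul_of_pos_left m hn
      have h3 : 0 < n * m := Nat.mul_pos hn hm
      obtain ⟨α₀, a1, a2⟩ := linked_of_compInt (hH n hn (by omega)) α
      obtain ⟨β₀, b1, b2⟩ := linked_of_compInt (hK m hm (by omega)) β
      obtain ⟨σ₀, c1, c2⟩ := ih s (by omega) (fun t ht hts => hH t ht (by omega))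
        (fun t ht hts => hK t ht (by omega)) σ
      exact ⟨Phi e α₀ β₀ σ₀, Phi_locInt e a1 b1 c1,
        (Phi_linked e a2 b2 c2).congr (pt_eq_of_sameInv hs).symm⟩

theorem compInt_prod [Group.FG H] [Group.FG K] (r : ℕ)
    (hH : ∀ s, 0 < s → s ≤ r → CompInt H s) (hK : ∀ s, 0 < s → s ≤ r → CompInt K s) :
    CompInt (H × K) r := by
  intro W hW
  obtain ⟨ρ, -, h2, h3⟩ := generic_point W hW Set.univ isOpen_univ
    (by rw [Set.univ_inter]; exact hW.1.nonempty)
  obtain ⟨ρ₀, h4, h5⟩ := linked_prod r hH hK ρ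
  exact ⟨ρ₀, h4, linked_mem h5 W h3⟩

/-- a locally integral representation has integral invariants -/
theorem ev_integral_of_locInt (ρ : G →* GL (Fin r) ℂ) (h : LocInt ρ) (f : RepRing G r)
    (hf : f ∈ Inv G r) : IsIntegral ℤ (ev ρ f) := by
  refine isIntegral_of_forall _ fun V => ?_
  obtain ⟨P, hP⟩ := h V
  let M0 : G → Matrix (Fin r) (Fin r) V := fun g => Matrix.of fun i j =>
    ⟨(conj P ρ g : Matrix (Fin r) (Fin r) ℂ) i j, hP g i j⟩
  have hM0 : ∀ g, V.subtype.mapMatrix (M0 g) = (conj P ρ g : Matrix (Fin r) (Fin r) ℂ) := by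
    intro g
    ext i j
    rfl
  have hinj : Function.Injective
      (V.subtype.mapMatrix : Matrix (Fin r) (Fin r) V →+* Matrix (Fin r) (Fin r) ℂ) :=
    Matrix.map_injective Subtype.val_injective
  let M : G →* Matrix (Fin r) (Fin r) V :=
    { toFun := M0
      map_one' := hinj (by rw [hM0, map_one, map_one, Units.val_one])
      map_mul' := fun g k => hinj (by rw [hM0, map_mul, map_mul, hM0, hM0, Units.val_mul]) }
  have h1 : mapRep V.subtype (MonoidHom.toHomUnits M) = conj P ρ := by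
    refine MonoidHom.ext fun g => Units.ext ?_
    ext i j
    rfl
  rw [← hf ℂ ρ P, ← h1, ev_mapRep]
  exact (ev (MonoidHom.toHomUnits M) f).2

/-- integrality of points of locally integral representations -/
theorem zbar_of_locInt (ρ₀ : G →* GL (Fin r) ℂ) (h : LocInt ρ₀) :
    ∃ φ : Inv G r →+* integralClosure ℤ ℂ, zbarPoint φ = pt ρ₀ := by
  refine ⟨((ev ρ₀).comp (Inv G r).subtype).codRestrict (integralClosure ℤ ℂ).toSubring
    (fun f => ev_integral_of_locInt ρ₀ h f.1 f.2), ?_⟩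
  unfold zbarPoint pt
  congr 1

end Pool.Agent.Lib.BettiInt
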