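import Pool.Agent.Lib.MP_89b6e6_ag.Adapt
import Pool.Agent.Lib.MP_89b6e6_ag.PrMain

/-!
Stable lattices give locally integral representations.
-/

namespace Pool.Agent.Lib.BettiInt

open Module Complex

variable {G : Type} [Group G] {r : ℕ}

section
variable (V : ValuationSubring ℂ)

/-- a stable lattice gives a conjugate over the valuation ring -/
theorem conj_of_lattice (ρ : G →* GL (Fin r) ℂ) (L : Submodule V (Fin r → ℂ))
    (hfg : L.FG) (hspan : Submodule.span ℂ (L : Set (Fin r → ℂ)) = ⊤)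
    (hst : ∀ g, ∀ v ∈ L, (ρ g : Matrix (Fin r) (Fin r) ℂ).mulVec v ∈ L) :
    ∃ P : GL (Fin r) ℂ, ∀ (g : G) (i j : Fin r),
      (conj P ρ g : Matrix (Fin r) (Fin r) ℂ) i j ∈ V := by
  classical
  have hlat : Submodule.IsLattice ℂ L := ⟨hfg, hspan⟩
  have hfin : Module.Finite V L := Module.Finite.iff_fg.2 hfg
  have htf : Module.IsTorsionFree V L := inferInstance
  have hflat : Module.Flat V L := by
    rw [Module.Flat.flat_iff_torsion_eq_bot_of_isBezout]
    exact Submodule.isTorsionFree_iff_torsion_eq_bot.1 htf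
  have hfree : Module.Free V L := Module.free_of_flat_of_isLocalRing
  let b₀ := Module.Free.chooseBasis V L
  let bC₀ := b₀.extendOfIsLattice ℂ
  have hcard : Fintype.card (Module.Free.ChooseBasisIndex V L) = r := by
    rw [← Module.finrank_eq_card_basis bC₀]
    simp
  let b : Module.Basis (Fin r) V L := b₀.reindex (Fintype.equivFinOfCardEq hcard)
  let bC : Module.Basis (Fin r) ℂ (Fin r → ℂ) := b.extendOfIsLattice ℂ
  have hbC : ∀ i, bC i = (b i : Fin r → ℂ) := fun i => Module.Basis.extendOfIsLattice_apply _ b i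
  let B := Pi.basisFun ℂ (Fin r)
  let Q : GL (Fin r) ℂ :=
    { val := B.toMatrix bC
      inv := bC.toMatrix B
      val_inv := Module.Basis.toMatrix_mul_toMatrix_flip B bC
      inv_val := Module.Basis.toMatrix_mul_toMatrix_flip bC B }
  have hQ : ∀ j k, (Q : Matrix (Fin r) (Fin r) ℂ) k j = (b j : Fin r → ℂ) k := by
    intro j k
    rw [← hbC]
    simp [Q, B, Module.Basis.toMatrix_apply]
  let ρ' : G →* GL (Fin r) V := MonoidHom.toHomUnits
    (((LinearMap.toMatrixAlgEquiv b).toAlgHom : Module.End V L →* Matrix (Fin r) (Fin r) V).comp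
      (latAct V ρ L hst))
  have hρ' : mapRep V.subtype ρ' = conj Q⁻¹ ρ := by
    refine MonoidHom.ext fun g => ?_
    have h1 : Q * mapRep V.subtype ρ' g = ρ g * Q := by
      refine Units.ext ?_
      rw [Units.val_mul, Units.val_mul]
      ext k j
      rw [Matrix.mul_apply, Matrix.mul_apply]
      have h2 : ∑ i, (LinearMap.toMatrixAlgEquiv b (latAct V ρ L hst g)) i j • b i =
          latAct V ρ L hst g (b j) := by
        have := b.sum_repr (latAct V ρ L hst g (b j))
        rw [← this]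
        refine Finset.sum_congr rfl fun i _ => ?_
        rw [LinearMap.toMatrixAlgEquiv_apply]
      have h3 := congrFun (congrArg Subtype.val h2) k
      rw [latAct_apply] at h3
      have h4 : ((∑ i, (LinearMap.toMatrixAlgEquiv b (latAct V ρ L hst g)) i j • b i : L) :
          Fin r → ℂ) k = ∑ i, (Q : Matrix (Fin r) (Fin r) ℂ) k i *
            (mapRep V.subtype ρ' g : Matrix (Fin r) (Fin r) ℂ) i j := by
        rw [Submodule.coe_sum, Finset.sum_apply]
        refine Finset.sum_congr rfl fun i _ => ?_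
        rw [hQ, mul_comm]
        rfl
      rw [← h4, h3]
      rw [Matrix.mulVec, dotProduct]
      refine Finset.sum_congr rfl fun i _ => ?_
      rw [hQ]
    change mapRep V.subtype ρ' g = Q⁻¹ * ρ g * (Q⁻¹)⁻¹
    rw [inv_inv, mul_assoc, ← h1, inv_mul_cancel_left]
  refine ⟨Q⁻¹, fun g i j => ?_⟩
  rw [← hρ']
  exact ((ρ' g : Matrix (Fin r) (Fin r) V) i j).2

end

section
variable (O : ValuationSubring ℂ)

/-- a lattice stable under a normal subgroup of finite index gives a stable lattice -/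
theorem conj_of_normal (N : Subgroup G) [hN : N.Normal] [Finite (G ⧸ N)]
    (ρ : G →* GL (Fin r) ℂ) (L : Submodule O (Fin r → ℂ)) (hfg : L.FG)
    (hspan : Submodule.span ℂ (L : Set (Fin r → ℂ)) = ⊤)
    (hst : ∀ n ∈ N, ∀ v ∈ L, (ρ n : Matrix (Fin r) (Fin r) ℂ).mulVec v ∈ L) :
    ∃ P : GL (Fin r) ℂ, ∀ (g : G) (i j : Fin r),
      (conj P ρ g : Matrix (Fin r) (Fin r) ℂ) i j ∈ O := by
  let Λ : Submodule O (Fin r → ℂ) := ⨆ y : G ⧸ N, L.map (gm O ρ y.out)
  have hle : ∀ y : G ⧸ N, L.map (gm O ρ y.out) ≤ Λ := fun y => le_iSup (fun y : G ⧸ N =>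
    L.map (gm O ρ y.out)) y
  refine conj_of_lattice O ρ Λ ?_ ?_ ?_
  · exact Submodule.fg_iSup _ fun y => hfg.map _
  · rw [eq_top_iff]
    -- the inverse image of the span is everything
    let y : G ⧸ N := 1
    have h1 : ∀ v ∈ (⊤ : Submodule ℂ (Fin r → ℂ)), (ρ y.out : Matrix (Fin r) (Fin r) ℂ).mulVec v ∈
        Submodule.span ℂ (Λ : Set (Fin r → ℂ)) := by
      intro v hv
      rw [← hspan] at hv
      refine Submodule.span_induction (p := fun v _ =>
        (ρ y.out : Matrix (Fin r) (Fin r) ℂ).mulVec v ∈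
          Submodule.span ℂ (Λ : Set (Fin r → ℂ))) ?_ ?_ ?_ ?_ hv
      · intro w hw
        exact Submodule.subset_span (hle y ⟨w, hw, rfl⟩)
      · simp
      · intro a b _ _ ha hb
        rw [Matrix.mulVec_add]
        exact Submodule.add_mem _ ha hb
      · intro c a _ ha
        rw [Matrix.mulVec_smul]
        exact Submodule.smul_mem _ c ha
    intro v _
    have h2 := h1 ((ρ (y.out)⁻¹ : Matrix (Fin r) (Fin r) ℂ).mulVec v) trivial
    rw [Matrix.mulVec_mulVec, ← Units.val_mul, ← map_mul, mul_inv_cancel, map_one,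
      Units.val_one, Matrix.one_mulVec] at h2
    exact h2
  · intro g v hv
    change gm O ρ g v ∈ Λ
    have : Λ ≤ Λ.comap (gm O ρ g) := by
      refine iSup_le fun y => ?_
      rintro _ ⟨w, hw, rfl⟩
      rw [Submodule.mem_comap, ← gm_mul]
      let y' : G ⧸ N := (g : G ⧸ N) * y
      let n : G := y'.out⁻¹ * (g * y.out)
      have hn : n ∈ N := by
        rw [← QuotientGroup.eq, QuotientGroup.out_eq', QuotientGroup.mk_mul,
          QuotientGroup.out_eq']
      have e : g * y.out = y'.out * n := by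
        change g * y.out = y'.out * (y'.out⁻¹ * (g * y.out))
        group
      rw [e, gm_mul]
      exact hle y' ⟨gm O ρ n w, hst n hn w hw, rfl⟩
    exact this hv


end

section
variable {N : Subgroup G} [hN : N.Normal] {ρ : G →* GL (Fin r) ℂ} {β : Fin r → ℕ}
  [Fintype (G ⧸ N)]

/-- The end of the twisting family is locally integral. -/
theorem twist_locInt (hB : BlockOn N ρ β) (hS : ∀ i, SimpleSub N ρ (cs β (β i)))
    (hP : ∀ i, ProjIntegral N ρ (cs β (β i))) (L : ℂ → ℂ)
    (hL : ∀ x y, x ≠ 0 → y ≠ 0 → L (x * y) = L x + L y)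
    (hL2 : ∀ x, x ≠ 0 → ∃ M : ℕ, 0 < M ∧ exp (L x) ^ M = x ^ M) :
    LocInt (mapRep (evalZ 1 : Ent →+* ℂ)
      (twist (twistData hB hS) r.factorial L hL)) := by
  classical
  intro O
  choose Λ hfg hspan hhom using fun i => hP i O
  set σ := mapRep (evalZ 1 : Ent →+* ℂ) (twist (twistData hB hS) r.factorial L hL) with hσ
  have hkey : ∀ n ∈ N, ∀ i, ∀ v ∈ Λ i, (σ n : Matrix (Fin r) (Fin r) ℂ).mulVec v ∈ Λ i := by
    intro n hn i v hv
    obtain ⟨c, hc0, hc⟩ := hhom i n hn
    set d := finrank ℂ (cs β (β i)) with hd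
    have hd0 : 0 < d := finrank_cs_pos β i
    set D := Dj hB (β i) n with hD
    have hD0 : D ≠ 0 := Dj_ne_zero hB _ n hn
    set lam : ℂ := exp (-(L (Cj hB i n) / r.factorial)) with hlam
    have hlamd : lam ^ d = exp (-L D) := by
      rw [hlam, ← exp_nat_mul]
      congr 1
      rw [Cj, L_pow L hL _ hD0, ← hd]
      have h1 : ((r.factorial / d : ℕ) : ℂ) * (d : ℂ) = (r.factorial : ℂ) := by
        rw [← Nat.cast_mul, Nat.div_mul_cancel (finrank_cs_dvd β i)]
      have h2 : (r.factorial : ℂ) ≠ 0 := by exact_mod_cast r.factorial_ne_zero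
      have h3 : (d : ℂ) ≠ 0 := by exact_mod_cast hd0.ne'
      rw [← h1] at h2 ⊢
      have h4 : ((r.factorial / d : ℕ) : ℂ) ≠ 0 := left_ne_zero_of_mul h2
      field_simp
    -- the action on the block is the scalar times the old one
    have hvU : v ∈ cs β (β i) := by
      rw [← hspan i]; exact Submodule.subset_span hv
    have hact : (σ n : Matrix (Fin r) (Fin r) ℂ).mulVec v =
        lam • (ρ n : Matrix (Fin r) (Fin r) ℂ).mulVec v := by
      ext a
      rw [Pi.smul_apply, smul_eq_mul, Matrix.mulVec, Matrix.mulVec, dotProduct, dotProduct,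
        Finset.mul_sum]
      refine Finset.sum_congr rfl fun k _ => ?_
      by_cases hk : β k = β i
      · by_cases ha : β a = β i
        · rw [hσ, twist_one_of_mem _ _ L hL n hn a k]
          have : Cj hB a n = Cj hB i n := by rw [Cj, Cj, ha]
          rw [this, mul_assoc]
        · rw [hσ, twist_one_of_mem _ _ L hL n hn a k,
            hB n hn a k (by rw [hk]; exact ha)]
          ring
      · rw [hvU k hk]
        ring
    -- the determinant of the rescaled action is a unit
    have hdet : (c ^ d * D)⁻¹ ∈ O := by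
      have h1 := det_mem_sub O (cs β (β i)) (Λ i) (hfg i) (hspan i)
        (c⁻¹ • resAct N ρ (cs β (β i)) (cs_stable hB (β i)) ⟨n⁻¹, N.inv_mem hn⟩) (by
        intro w hw
        rw [← SetLike.mem_coe, ← hc] at hw
        obtain ⟨w', hw', hww⟩ := hw
        have : (((c⁻¹ • resAct N ρ (cs β (β i)) (cs_stable hB (β i)) ⟨n⁻¹, N.inv_mem hn⟩) w :
            cs β (β i)) : Fin r → ℂ) = w' := by
          rw [LinearMap.smul_apply, Submodule.coe_smul, resAct_apply, ← hww]
          simp only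
          rw [Matrix.mulVec_smul, Matrix.mulVec_mulVec, ← Units.val_mul, ← map_mul,
            inv_mul_cancel, map_one, Units.val_one, Matrix.one_mulVec, smul_smul,
            inv_mul_cancel₀ hc0, one_smul]
        rw [this]
        exact hw')
      rw [LinearMap.det_smul, ← Dj_of_mem hB (β i) n⁻¹ (N.inv_mem hn)] at h1
      have h2 : Dj hB (β i) n⁻¹ = D⁻¹ := by
        have h3 := Dj_mul hB (β i) n n⁻¹ hn (N.inv_mem hn)
        rw [mul_inv_cancel, Dj_one] at h3
        exact (eq_inv_of_mul_eq_one_right h3.symm)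
      rw [h2, inv_pow, ← mul_inv] at h1
      exact h1
    have hroot : lam ^ d * D ∈ O := by
      obtain ⟨K, hK, hK2⟩ := hL2 D hD0
      refine root_mem O _ K hK ?_
      rw [hlamd, mul_pow, ← hK2, ← mul_pow, ← exp_add, neg_add_cancel, exp_zero, one_pow]
    have hkap : lam / c ∈ O := by
      refine mem_of_pow_mem O _ (div_ne_zero (exp_ne_zero _) hc0) d hd0 ?_
      have : (lam / c) ^ d = (lam ^ d * D) * (c ^ d * D)⁻¹ := by
        rw [div_pow, mul_inv]
        field_simp
      rw [this]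
      exact mul_mem hroot hdet
    have hmem : c • (ρ n : Matrix (Fin r) (Fin r) ℂ).mulVec v ∈ Λ i := by
      rw [← SetLike.mem_coe, ← hc]
      exact ⟨v, hv, rfl⟩
    have : (σ n : Matrix (Fin r) (Fin r) ℂ).mulVec v =
        (⟨lam / c, hkap⟩ : O) • (c • (ρ n : Matrix (Fin r) (Fin r) ℂ).mulVec v) := by
      rw [hact]
      have h5 : ∀ w : Fin r → ℂ, (⟨lam / c, hkap⟩ : O) • w = (lam / c) • w := fun w => rfl
      rw [h5, smul_smul, div_mul_cancel₀ _ hc0]
    rw [this]
    exact Submodule.smul_mem _ _ hmem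
  refine conj_of_normal O N σ (⨆ i, Λ i) (Submodule.fg_iSup _ hfg) ?_ ?_
  · rw [eq_top_iff]
    rw [← (Pi.basisFun ℂ (Fin r)).span_eq]
    refine Submodule.span_le.2 ?_
    rintro _ ⟨i, rfl⟩
    rw [Pi.basisFun_apply]
    have hmem : Pi.single i (1 : ℂ) ∈ cs β (β i) := by
      intro l hl
      have : l ≠ i := fun h => hl (by rw [h])
      simp [this]
    rw [← hspan i] at hmem
    exact Submodule.span_mono (fun v hv => (le_iSup Λ i : Λ i ≤ _) hv) hmem
  · intro n hn v hv
    have : (⨆ i, Λ i) ≤ (⨆ i, Λ i).comap (gm O σ n) := by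
      refine iSup_le fun i => ?_
      intro w hw
      exact (le_iSup Λ i : Λ i ≤ _) (hkey n hn i w hw)
    exact this hv


end

theorem locInt_of_finite (ρ : G →* GL (Fin r) ℂ) (hfin : Finite ρ.range) : LocInt ρ := by
  intro V
  let S : Set (Fin r → ℂ) := Set.range (fun p : ρ.range × Fin r =>
    ((p.1 : GL (Fin r) ℂ) : Matrix (Fin r) (Fin r) ℂ).mulVec (Pi.single p.2 1))
  have hS : S.Finite := Set.finite_range _
  refine conj_of_lattice V ρ (Submodule.span V S) (Submodule.fg_span hS) ?_ ?_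
  · rw [Submodule.span_span_of_tower, eq_top_iff]
    rw [← (Pi.basisFun ℂ (Fin r)).span_eq]
    refine Submodule.span_mono ?_
    rintro _ ⟨i, rfl⟩
    refine ⟨(1, i), ?_⟩
    change (((1 : ρ.range) : GL (Fin r) ℂ) : Matrix (Fin r) (Fin r) ℂ).mulVec (Pi.single i 1) = _
    rw [OneMemClass.coe_one, Units.val_one, Matrix.one_mulVec, Pi.basisFun_apply]
  · intro g v hv
    refine Submodule.span_induction
      (p := fun v _ => (ρ g : Matrix (Fin r) (Fin r) ℂ).mulVec v ∈ Submodule.span V S)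
      ?_ ?_ ?_ ?_ hv
    · rintro _ ⟨⟨x, i⟩, rfl⟩
      refine Submodule.subset_span ⟨(ρ.rangeRestrict g * x, i), ?_⟩
      change ((ρ g * x : GL (Fin r) ℂ) : Matrix (Fin r) (Fin r) ℂ).mulVec (Pi.single i 1) = _
      rw [Units.val_mul, ← Matrix.mulVec_mulVec]
    · simp
    · intro x y _ _ hx hy
      rw [Matrix.mulVec_add]
      exact Submodule.add_mem _ hx hy
    · intro c x _ hx
      have : (ρ g : Matrix (Fin r) (Fin r) ℂ).mulVec (c • x) =
        c • (ρ g : Matrix (Fin r) (Fin r) ℂ).mulVec x := by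
        have := Matrix.mulVec_smul (ρ g : Matrix (Fin r) (Fin r) ℂ) (c : ℂ) x
        exact this
      rw [this]
      exact Submodule.smul_mem _ c hx

/-- virtually solvable -/
theorem locInt_of_vs [Group.FG G] (W : Set (MB G r)) (ρ : G →* GL (Fin r) ℂ)
    (h1 : ∀ W' ∈ irreducibleComponents (MB G r), pt ρ ∈ W' → W' = W)
    (hsol : VirtuallySolvable ρ) : ∃ ρ₀ : G →* GL (Fin r) ℂ, LocInt ρ₀ ∧ pt ρ₀ ∈ W := by
  obtain ⟨ρ₀, hfin, hpt⟩ := main_point W ρ h1 hsol
  exact ⟨ρ₀, locInt_of_finite ρ₀ hfin, hpt⟩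

/-- virtually projectively integral -/
theorem locInt_of_vpi [Group.FG G] (W : Set (MB G r)) (ρ : G →* GL (Fin r) ℂ)
    (h1 : ∀ W' ∈ irreducibleComponents (MB G r), pt ρ ∈ W' → W' = W)
    (hp : VirtuallyProjIntegral ρ) : ∃ ρ₀ : G →* GL (Fin r) ℂ, LocInt ρ₀ ∧ pt ρ₀ ∈ W := by
  classical
  obtain ⟨N, hN1, hN2, hN⟩ := hp
  obtain ⟨ρ', β, hsame, hB, hS, hP⟩ := exists_blocks N ρ hN
  have hfin : Finite (G ⧸ N) := Subgroup.finite_quotient_of_finiteIndex
  have : Fintype (G ⧸ N) := Fintype.ofFinite _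
  obtain ⟨L, hL, hL2⟩ := exists_log
  have hint := twist_locInt hB hS hP L hL hL2
  set Θ := twist (twistData hB hS) r.factorial L hL with hΘ
  have hpt : pt (mapRep (evalZ 1 : Ent →+* ℂ) Θ) ∈ W := by
    refine family_point Θ (evalZ 0) (evalZ 1) W ?_
    intro W' hW' hpt
    refine h1 W' hW' ?_
    rw [pt_eq_of_sameInv hsame]
    have h0 : mapRep (evalZ 0 : Ent →+* ℂ) Θ = ρ' := twist_zero _ _ L hL
    rw [h0] at hpt
    exact hpt
  exact ⟨_, hint, hpt⟩

end Pool.Agent.Lib.BettiInt
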