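import Pool.Agent.Lib.MP_89b6e6_ag.PrOrd
import Pool.Agent.Lib.MP_89b6e6_ag.PrLat

/-!
Semisimple representations with integral characters are locally integral (Bass).
-/

open TensorProduct

namespace Pool.Agent.Lib.BettiInt

open Module

variable {G : Type} [Group G] {r : ℕ}

/-- all eigenvalues are algebraic integers -/
def IntEig (ρ : G →* GL (Fin r) ℂ) : Prop :=
  ∀ (g : G) (μ : ℂ), (ρ g : Matrix (Fin r) (Fin r) ℂ).charpoly.IsRoot μ → IsIntegral ℤ μ

/-- the action on a stable submodule -/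
noncomputable def subAct (ρ : G →* GL (Fin r) ℂ) (U : Submodule ℂ (Fin r → ℂ))
    (hU : ∀ g, ∀ u ∈ U, (ρ g : Matrix (Fin r) (Fin r) ℂ).mulVec u ∈ U) :
    G →* Module.End ℂ U where
  toFun := fun g => (Matrix.mulVecLin (ρ g : Matrix (Fin r) (Fin r) ℂ)).restrict (hU g)
  map_one' := by
    refine LinearMap.ext fun v => Subtype.ext ?_
    change (ρ 1 : Matrix (Fin r) (Fin r) ℂ).mulVec v = v
    rw [map_one, Units.val_one, Matrix.one_mulVec]
  map_mul' := by
    intro g h
    refine LinearMap.ext fun v => Subtype.ext ?_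
    change (ρ (g * h) : Matrix (Fin r) (Fin r) ℂ).mulVec v =
      (ρ g : Matrix (Fin r) (Fin r) ℂ).mulVec ((ρ h : Matrix (Fin r) (Fin r) ℂ).mulVec v)
    rw [map_mul, Units.val_mul, Matrix.mulVec_mulVec]

lemma subAct_apply (ρ : G →* GL (Fin r) ℂ) (U : Submodule ℂ (Fin r → ℂ))
    (hU : ∀ g, ∀ u ∈ U, (ρ g : Matrix (Fin r) (Fin r) ℂ).mulVec u ∈ U) (g : G) (v : U) :
    ((subAct ρ U hU g v : U) : Fin r → ℂ) = (ρ g : Matrix (Fin r) (Fin r) ℂ).mulVec v := rfl

lemma trace_int (ρ : G →* GL (Fin r) ℂ) (h : IntEig ρ) (U : Submodule ℂ (Fin r → ℂ))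
    (hU : ∀ g, ∀ u ∈ U, (ρ g : Matrix (Fin r) (Fin r) ℂ).mulVec u ∈ U) (g : G) :
    IsIntegral ℤ (LinearMap.trace ℂ U (subAct ρ U hU g)) := by
  set f := subAct ρ U hU g with hf
  have h1 : LinearMap.trace ℂ U f = f.charpoly.roots.sum := by
    let b := Module.finBasis ℂ U
    rw [LinearMap.trace_eq_matrix_trace ℂ b, Matrix.trace_eq_sum_roots_charpoly,
      LinearMap.charpoly_toMatrix]
  rw [h1]
  refine IsIntegral.multiset_sum fun μ hμ => ?_
  have h2 : f.charpoly.IsRoot μ := (Polynomial.mem_roots'.1 hμ).2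
  have h3 : Module.End.HasEigenvalue f μ :=
    (Module.End.hasEigenvalue_iff_isRoot_charpoly f μ).2 h2
  obtain ⟨v, hv⟩ := h3.exists_hasEigenvector
  have h4 : Module.End.HasEigenvector
      (Matrix.mulVecLin (ρ g : Matrix (Fin r) (Fin r) ℂ) : Module.End ℂ (Fin r → ℂ)) μ
      (v : Fin r → ℂ) := by
    rw [Module.End.hasEigenvector_iff, Module.End.mem_eigenspace_iff] at hv ⊢
    refine ⟨?_, fun h0 => hv.2 (Subtype.ext h0)⟩
    have := congrArg Subtype.val hv.1
    exact this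
  have h5 := Module.End.hasEigenvalue_of_hasEigenvector h4
  rw [Module.End.hasEigenvalue_iff_isRoot_charpoly, Matrix.charpoly_mulVecLin] at h5
  exact h g μ h5

/-- a stable lattice in a simple submodule -/
theorem lattice_simple [Group.FG G] (O : ValuationSubring ℂ) (ρ : G →* GL (Fin r) ℂ)
    (h : IntEig ρ) (U : Submodule ℂ (Fin r → ℂ)) (hU : SimpleSub ⊤ ρ U) :
    ∃ L : Submodule O (Fin r → ℂ), L.FG ∧
      Submodule.span ℂ (L : Set (Fin r → ℂ)) = U ∧
      ∀ g, ∀ v ∈ L, (ρ g : Matrix (Fin r) (Fin r) ℂ).mulVec v ∈ L := by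
  classical
  obtain ⟨hU0, hst0, hirr⟩ := hU
  have hst : ∀ g, ∀ u ∈ U, (ρ g : Matrix (Fin r) (Fin r) ℂ).mulVec u ∈ U :=
    fun g u hu => hst0 g (Subgroup.mem_top g) u hu
  have hUnt : Nontrivial U := Submodule.nontrivial_iff_ne_bot.2 hU0
  set τ := subAct ρ U hst with hτ
  have htop : Submodule.span ℂ (Set.range τ) = ⊤ := by
    have h1 : Algebra.adjoin ℂ (Set.range τ) = ⊤ := by
      refine burnside _ fun W hW => ?_
      rcases hirr (W.map U.subtype) (Submodule.map_subtype_le U W) (by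
        rintro g - _ ⟨w, hw, rfl⟩
        exact ⟨τ g w, hW _ (Algebra.subset_adjoin ⟨g, rfl⟩) w hw, rfl⟩) with h2 | h2
      · left
        rw [eq_bot_iff]
        intro w hw
        have h3 : (w : Fin r → ℂ) ∈ W.map U.subtype := ⟨w, hw, rfl⟩
        rw [h2, Submodule.mem_bot] at h3
        rw [Submodule.mem_bot]
        exact Subtype.ext h3
      · right
        rw [eq_top_iff]
        intro w _
        have h3 : (w : Fin r → ℂ) ∈ W.map U.subtype := by
          rw [h2]
          exact w.2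
        obtain ⟨w', hw', hww⟩ := h3
        have : w' = w := Subtype.ext hww
        rw [← this]
        exact hw'
    have h2 := Algebra.adjoin_eq_span ℂ (Set.range τ)
    have h3 : (Submonoid.closure (Set.range τ) : Set (Module.End ℂ U)) = Set.range τ := by
      rw [← MonoidHom.coe_mrange, Submonoid.closure_eq]
    rw [h3, h1] at h2
    rw [← h2, Algebra.top_toSubmodule]
  obtain ⟨v, hv, hv0⟩ := Submodule.exists_mem_ne_zero_of_ne_bot hU0
  set S : Set (Fin r → ℂ) :=
    Set.range fun g : G => (ρ g : Matrix (Fin r) (Fin r) ℂ).mulVec v with hS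
  let ℓ : Module.End ℂ U →ₗ[ℤ] (Fin r → ℂ) :=
    { toFun := fun f => ((f ⟨v, hv⟩ : U) : Fin r → ℂ)
      map_add' := fun _ _ => rfl
      map_smul' := fun _ _ => rfl }
  have hfgZ : (Submodule.span ℤ S).FG := by
    have h1 := (span_int_fg τ htop (fun g => trace_int ρ h U hst g)).map ℓ
    rw [Submodule.map_span] at h1
    have h2 : ℓ '' (Set.range τ) = S := by
      rw [← Set.range_comp]
      rfl
    rw [h2] at h1
    exact h1
  have hmemS : ∀ g, (ρ g : Matrix (Fin r) (Fin r) ℂ).mulVec v ∈ S := fun g => ⟨g, rfl⟩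
  have hSst : ∀ g, ∀ w ∈ S, (ρ g : Matrix (Fin r) (Fin r) ℂ).mulVec w ∈ S := by
    rintro g _ ⟨g', rfl⟩
    refine ⟨g * g', ?_⟩
    simp only
    rw [map_mul, Units.val_mul, Matrix.mulVec_mulVec]
  refine ⟨Submodule.span O S, ?_, ?_, ?_⟩
  · obtain ⟨t, ht⟩ := hfgZ
    refine ⟨t, ?_⟩
    rw [← Submodule.span_span_of_tower ℤ O S, ← ht, Submodule.span_span_of_tower]
  · rw [Submodule.span_span_of_tower]
    have hle : Submodule.span ℂ S ≤ U := by
      rw [Submodule.span_le]
      rintro _ ⟨g, rfl⟩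
      exact hst g v hv
    rcases hirr (Submodule.span ℂ S) hle (by
      intro g _ w hw
      refine Submodule.span_induction
        (p := fun w _ => (ρ g : Matrix (Fin r) (Fin r) ℂ).mulVec w ∈ Submodule.span ℂ S)
        ?_ ?_ ?_ ?_ hw
      · intro x hx
        exact Submodule.subset_span (hSst g x hx)
      · simp
      · intro x y _ _ hx hy
        rw [Matrix.mulVec_add]
        exact Submodule.add_mem _ hx hy
      · intro c x _ hx
        rw [Matrix.mulVec_smul]
        exact Submodule.smul_mem _ c hx) with h1 | h1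
    · exfalso
      apply hv0
      have h2 : v ∈ Submodule.span ℂ S := by
        refine Submodule.subset_span ⟨1, ?_⟩
        simp only
        rw [map_one, Units.val_one, Matrix.one_mulVec]
      rw [h1, Submodule.mem_bot] at h2
      exact h2
    · exact h1
  · intro g w hw
    refine Submodule.span_induction
      (p := fun w _ => (ρ g : Matrix (Fin r) (Fin r) ℂ).mulVec w ∈ Submodule.span O S)
      ?_ ?_ ?_ ?_ hw
    · intro x hx
      exact Submodule.subset_span (hSst g x hx)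
    · simp
    · intro x y _ _ hx hy
      rw [Matrix.mulVec_add]
      exact Submodule.add_mem _ hx hy
    · intro c x _ hx
      have : (ρ g : Matrix (Fin r) (Fin r) ℂ).mulVec (c • x) =
          c • (ρ g : Matrix (Fin r) (Fin r) ℂ).mulVec x := by
        have := Matrix.mulVec_smul (ρ g : Matrix (Fin r) (Fin r) ℂ) (c : ℂ) x
        exact this
      rw [this]
      exact Submodule.smul_mem _ c hx

/-- **Bass.** -/
theorem locInt_of_intEig [Group.FG G] (ρ : G →* GL (Fin r) ℂ) (hss : Semisimple ρ)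
    (h : IntEig ρ) : LocInt ρ := by
  classical
  intro O
  obtain ⟨t, ht, hsup⟩ := CompleteLattice.WellFoundedGT.isSupFiniteCompact
    (Submodule ℂ (Fin r → ℂ)) {U | SimpleSub ⊤ ρ U}
  have h0 : ∀ U : t, SimpleSub ⊤ ρ (U : Submodule ℂ (Fin r → ℂ)) := fun U => ht U.2
  choose L hL1 hL2 hL3 using fun U : t => lattice_simple O ρ h U (h0 U)
  refine conj_of_lattice O ρ (⨆ U : t, L U) (Submodule.fg_iSup _ hL1) ?_ ?_
  · have hss' : sSup {U | SimpleSub ⊤ ρ U} = ⊤ := hss
    rw [eq_top_iff, ← hss', hsup]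
    refine Finset.sup_le fun U hU => ?_
    have h1 := hL2 ⟨U, hU⟩
    intro u hu
    have h2 : u ∈ Submodule.span ℂ (L ⟨U, hU⟩ : Set (Fin r → ℂ)) := by
      rw [h1]
      exact hu
    exact Submodule.span_mono (fun v hv => (le_iSup L ⟨U, hU⟩ : L ⟨U, hU⟩ ≤ _) hv) h2
  · intro g v hv
    have : (⨆ U : t, L U) ≤ (⨆ U : t, L U).comap (gm O ρ g) := by
      refine iSup_le fun U => ?_
      intro w hw
      exact (le_iSup L U : L U ≤ _) (hL3 U g w hw)
    exact this hv

/-- the coefficients of the characteristic polynomial are invariants -/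
noncomputable def cpc (G : Type) [Group G] (r : ℕ) (g : G) (n : ℕ) : RepRing G r :=
  (univRep G r g : Matrix (Fin r) (Fin r) (RepRing G r)).charpoly.coeff n

lemma ev_cpc {A : Type} [CommRing A] (ρ : G →* GL (Fin r) A) (g : G) (n : ℕ) :
    ev ρ (cpc G r g n) = (ρ g : Matrix (Fin r) (Fin r) A).charpoly.coeff n := by
  have h1 : (ρ g : Matrix (Fin r) (Fin r) A) =
      (univRep G r g : Matrix (Fin r) (Fin r) (RepRing G r)).map (ev ρ) := by
    conv_lhs => rw [← mapRep_ev_univ ρ]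
    rw [mapRep_coe]
  rw [h1, Matrix.charpoly_map, Polynomial.coeff_map]
  rfl

lemma cpc_mem (g : G) (n : ℕ) : cpc G r g n ∈ Inv G r := by
  intro A _ ρ P
  rw [ev_cpc, ev_cpc]
  have h1 : (conj P ρ g : Matrix (Fin r) (Fin r) A) =
      (P : Matrix (Fin r) (Fin r) A) * (ρ g : Matrix (Fin r) (Fin r) A) *
        ((P⁻¹ : GL (Fin r) A) : Matrix (Fin r) (Fin r) A) := by
    change ((P * ρ g * P⁻¹ : GL (Fin r) A) : Matrix (Fin r) (Fin r) A) = _
    rw [Units.val_mul, Units.val_mul]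
  rw [h1]
  have h2 := Matrix.charpoly_units_conj P (ρ g : Matrix (Fin r) (Fin r) A)
  rw [← Matrix.coe_units_inv] at h2
  rw [h2]

lemma intEig_of_int (ρ : G →* GL (Fin r) ℂ)
    (h : ∀ f ∈ Inv G r, IsIntegral ℤ (ev ρ f)) : IntEig ρ := by
  intro g μ hμ
  set χ := (ρ g : Matrix (Fin r) (Fin r) ℂ).charpoly with hχ
  have hmon : χ.Monic := Matrix.charpoly_monic _
  have hl : χ ∈ Polynomial.lifts (algebraMap (integralClosure ℤ ℂ) ℂ) := by
    rw [Polynomial.lifts_iff_coeff_lifts]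
    intro n
    have h1 := h _ (cpc_mem g n)
    rw [ev_cpc] at h1
    exact ⟨⟨_, h1⟩, rfl⟩
  obtain ⟨q, hq, -, hqm⟩ := Polynomial.lifts_and_natDegree_eq_and_monic hl hmon
  have h2 : IsIntegral (integralClosure ℤ ℂ) μ := by
    refine ⟨q, hqm, ?_⟩
    rw [← Polynomial.eval_map, hq]
    exact hμ
  exact isIntegral_trans μ h2

lemma point_inj {ψ ψ' : Inv G r →+* ℂ} (h : pointOf ψ = pointOf ψ') : ψ = ψ' := by
  ext f
  have h1 : ∀ x : BaseC (Inv G r), extC ψ x = 0 → extC ψ' x = 0 := by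
    intro x hx
    have h2 : x ∈ (pointOf ψ).asIdeal := hx
    rw [h] at h2
    exact h2
  have h3 := h1 ((1 : ℂ) ⊗ₜ[ℤ] f - (ψ f) ⊗ₜ[ℤ] (1 : Inv G r)) (by
    rw [map_sub, extC_tmul, extC_tmul, map_one, map_one, one_mul, mul_one]
    exact sub_self _)
  rw [map_sub, extC_tmul, extC_tmul, map_one, map_one, one_mul, mul_one] at h3
  exact (sub_eq_zero.1 h3).symm

/-- **Points over the algebraic integers come from locally integral representations.** -/
theorem locInt_of_zbar [Group.FG G] (φ : Inv G r →+* integralClosure ℤ ℂ)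
    (ρ : G →* GL (Fin r) ℂ) (h : zbarPoint φ = pt ρ) :
    ∃ ρ₀ : G →* GL (Fin r) ℂ, LocInt ρ₀ ∧ pt ρ₀ = zbarPoint φ := by
  have h1 : (algebraMap (integralClosure ℤ ℂ) ℂ).comp φ = (ev ρ).comp (Inv G r).subtype :=
    point_inj h
  have h2 : ∀ f ∈ Inv G r, IsIntegral ℤ (ev ρ f) := by
    intro f hf
    have h3 := congrArg (fun ψ : Inv G r →+* ℂ => ψ ⟨f, hf⟩) h1
    have h4 : ev ρ f = ((φ ⟨f, hf⟩ : integralClosure ℤ ℂ) : ℂ) := h3.symm
    rw [h4]
    exact (φ ⟨f, hf⟩).2
  obtain ⟨ρ', hs, hss⟩ := exists_semisimple ρ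
  refine ⟨ρ', locInt_of_intEig ρ' hss (intEig_of_int ρ' fun f hf => ?_), ?_⟩
  · rw [← hs f hf]
    exact h2 f hf
  · rw [h, pt_eq_of_sameInv hs]

end Pool.Agent.Lib.BettiInt
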