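import Mathlib

/-!
Burnside's theorem from the density theorem.
-/

namespace Pool.Agent.Lib.BettiInt

open Module

theorem burnside {U : Type} [AddCommGroup U] [Module ℂ U] [FiniteDimensional ℂ U] [Nontrivial U]
    (S : Subalgebra ℂ (Module.End ℂ U))
    (hirr : ∀ W : Submodule ℂ U, (∀ f ∈ S, ∀ w ∈ W, f w ∈ W) → W = ⊥ ∨ W = ⊤) : S = ⊤ := by
  classical
  -- `U` is a simple module
  have hsimple : IsSimpleModule S U := by
    rw [isSimpleModule_iff]
    refine { exists_pair_ne := ⟨⊥, ⊤, bot_ne_top⟩, eq_bot_or_eq_top := ?_ }
    intro W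
    have h1 : ∀ (c : ℂ) (w : U), w ∈ W → c • w ∈ W := by
      intro c w hw
      have h2 : (algebraMap ℂ S c) • w ∈ W := W.smul_mem _ hw
      have h3 : (algebraMap ℂ S c) • w = c • w := rfl
      rwa [h3] at h2
    let W' : Submodule ℂ U :=
      { carrier := W
        add_mem' := fun ha hb => W.add_mem ha hb
        zero_mem' := W.zero_mem
        smul_mem' := fun c w hw => h1 c w hw }
    rcases hirr W' (fun f hf w hw => W.smul_mem (⟨f, hf⟩ : S) hw) with h | h
    · left
      rw [eq_bot_iff]
      intro w hw
      have : w ∈ W' := hw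
      rw [h] at this
      exact this
    · right
      rw [eq_top_iff]
      intro w _
      have : w ∈ W' := by rw [h]; trivial
      exact this
  -- endomorphisms are scalars
  have hschur : ∀ φ : Module.End S U, ∃ c : ℂ, ∀ u, φ u = c • u := by
    intro φ
    have hlin : ∀ (c : ℂ) (u : U), φ (c • u) = c • φ u := by
      intro c u
      have h3 : (algebraMap ℂ S c) • u = c • u := rfl
      rw [← h3, φ.map_smul]
      rfl
    let φ' : Module.End ℂ U :=
      { toFun := φ
        map_add' := φ.map_add
        map_smul' := hlin }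
    obtain ⟨c, hc⟩ := Module.End.exists_eigenvalue φ'
    refine ⟨c, ?_⟩
    rcases hirr (Module.End.eigenspace φ' c) (by
      intro f hf w hw
      rw [Module.End.mem_eigenspace_iff] at hw ⊢
      have h4 : φ (f w) = f (φ w) := φ.map_smul (⟨f, hf⟩ : S) w
      have hw' : φ w = c • w := hw
      change φ (f w) = c • f w
      rw [h4, hw', map_smul]) with h | h
    · exact absurd h hc
    · intro u
      have : u ∈ Module.End.eigenspace φ' c := by rw [h]; trivial
      exact Module.End.mem_eigenspace_iff.1 this
  rw [eq_top_iff]
  intro f _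
  let f' : Module.End (Module.End S U) U :=
    { toFun := f
      map_add' := f.map_add
      map_smul' := by
        intro φ u
        obtain ⟨c, hc⟩ := hschur φ
        change f (φ u) = φ (f u)
        rw [hc, hc, map_smul] }
  let b := Module.finBasis ℂ U
  obtain ⟨x, hx⟩ := jacobson_density (R := S) f' (Finset.univ.image b)
  have h5 : f = (x : Module.End ℂ U) := by
    refine b.ext fun i => ?_
    exact hx (b i) (Finset.mem_image_of_mem _ (Finset.mem_univ i))
  rw [h5]
  exact x.2

end Pool.Agent.Lib.BettiInt
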