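import Pool.Agent.Lib.MP_89b6e6_ag.PrLat

/-!
Finite products of groups.
-/

namespace Pool.Agent.Lib.BettiInt

variable {G H : Type} [Group G] [Group H] {r : ℕ}

/-- A component which is known to contain an integral point: the component `W` of the Betti
moduli space is the whole space, or it contains the point of a locally integral representation,
or a representation whose point lies on `W` and on no other component is virtually solvable or
virtually projectively integral. -/
def GoodComp (W : Set (MB G r)) : Prop :=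
  W = Set.univ ∨ (∃ ρ : G →* GL (Fin r) ℂ, LocInt ρ ∧ pt ρ ∈ W) ∨
    ∃ ρ : G →* GL (Fin r) ℂ, pt ρ ∈ W ∧
      (∀ W' ∈ irreducibleComponents (MB G r), pt ρ ∈ W' → W' = W) ∧
      (VirtuallySolvable ρ ∨ VirtuallyProjIntegral ρ)

lemma locInt_one : LocInt (1 : G →* GL (Fin r) ℂ) := by
  intro O
  refine ⟨1, fun g i j => ?_⟩
  rw [conj_one, MonoidHom.one_apply, Units.val_one, Matrix.one_apply]
  split_ifs
  · exact O.one_mem
  · exact O.zero_mem

lemma compInt_of_good [Group.FG G]
    (h : ∀ W ∈ irreducibleComponents (MB G r), GoodComp W) : CompInt G r := by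
  intro W hW
  rcases h W hW with h1 | h1 | ⟨ρ, -, h1, h2 | h2⟩
  · exact ⟨1, locInt_one, by rw [h1]; trivial⟩
  · exact h1
  · exact locInt_of_vs W ρ h1 h2
  · exact locInt_of_vpi W ρ h1 h2

/-- pulling back along a homomorphism -/
def natPull (f : G →* H) (r : ℕ) : NatRep H G r r where
  toFun := fun _ _ _ α => α.comp f
  nat := fun _ _ _ _ _ _ _ _ => rfl
  con := fun _ _ _ P _ => ⟨P, rfl⟩

lemma Linked.pull (f : G →* H) {α α' : H →* GL (Fin r) ℂ} (h : Linked α α') :
    Linked (α.comp f) (α'.comp f) := by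
  obtain ⟨S, hS, h1, h2⟩ := h
  exact ⟨_, hS.image _ (natRep_continuous (natPull f r)).continuousOn, ⟨_, h1, rfl⟩,
    ⟨_, h2, rfl⟩⟩

lemma LocInt.pull (f : G →* H) {α : H →* GL (Fin r) ℂ} (h : LocInt α) : LocInt (α.comp f) := by
  intro O
  obtain ⟨P, hP⟩ := h O
  exact ⟨P, fun g i j => hP (f g) i j⟩

lemma CompInt.equiv [Group.FG G] [Group.FG H] (e : G ≃* H) (h : CompInt G r) : CompInt H r := by
  intro W hW
  obtain ⟨ρ, -, h2, h3⟩ := generic_point W hW Set.univ isOpen_univ
    (by rw [Set.univ_inter]; exact hW.1.nonempty)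
  obtain ⟨ρ₀, h4, h5⟩ := linked_of_compInt h (ρ.comp e.toMonoidHom)
  refine ⟨ρ₀.comp e.symm.toMonoidHom, h4.pull _, linked_mem ?_ W h3⟩
  have h6 : (ρ.comp e.toMonoidHom).comp e.symm.toMonoidHom = ρ := by
    refine MonoidHom.ext fun g => ?_
    simp
  have h7 := h5.pull e.symm.toMonoidHom
  rw [h6] at h7
  exact h7

theorem compInt_pi (k : ℕ) : ∀ (Γ : Fin k → Type) [∀ i, Group (Γ i)] [∀ i, Group.FG (Γ i)]
    (r : ℕ) (_ : ∀ i s, 0 < s → s ≤ r → CompInt (Γ i) s), CompInt (∀ i, Γ i) r := by
  induction k with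
  | zero =>
    intro Γ _ _ r _ W hW
    obtain ⟨ρ, -, h2, -⟩ := generic_point W hW Set.univ isOpen_univ
      (by rw [Set.univ_inter]; exact hW.1.nonempty)
    have h1 : ρ = 1 := by
      refine MonoidHom.ext fun g => ?_
      have : g = 1 := Subsingleton.elim _ _
      rw [this, map_one, map_one]
    rw [h1] at h2
    exact ⟨1, locInt_one, h2⟩
  | succ k ih =>
    intro Γ _ _ r h
    let e : (Γ 0 × ∀ i : Fin k, Γ i.succ) ≃* (∀ i, Γ i) :=
      { Fin.consEquiv Γ with
        map_mul' := by
          intro x y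
          funext i
          refine Fin.cases rfl (fun i => rfl) i }
    refine CompInt.equiv e ?_
    exact compInt_prod r (fun s h1 h2 => h 0 s h1 h2)
      (fun s h1 h2 => ih (fun i => Γ i.succ) s (fun i t h3 h4 => h i.succ t h3 (h4.trans h2)))

end Pool.Agent.Lib.BettiInt
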