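import Pool.Agent.Lib.MP_89b6e6_ag.PrTopo

/-!
The invariants are the kernel of a linear map, so invariants commute with the flat base change to
the complex numbers; natural constructions with representations are continuous.
-/

open TensorProduct

namespace Pool.Agent.Lib.BettiInt

variable {G H : Type} [Group G] [Group H] {r n : ℕ}

/-- the evaluation of invariants -/
noncomputable def evI {A : Type} [CommRing A] (ρ : G →* GL (Fin r) A) : Inv G r →+* A :=
  (ev ρ).comp (Inv G r).subtype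

lemma evI_conj {A : Type} [CommRing A] (P : GL (Fin r) A) (ρ : G →* GL (Fin r) A) :
    evI (conj P ρ) = evI ρ := by
  ext f
  exact f.2 A ρ P

lemma evI_mapRep {A B : Type} [CommRing A] [CommRing B] (φ : A →+* B) (ρ : G →* GL (Fin r) A) :
    evI (mapRep φ ρ) = φ.comp (evI ρ) := by
  ext f
  exact ev_mapRep φ ρ f.1

lemma conj_mapRep {A B : Type} [CommRing A] [CommRing B] (φ : A →+* B) (P : GL (Fin r) A)
    (ρ : G →* GL (Fin r) A) :
    mapRep φ (conj P ρ) = conj (Matrix.GeneralLinearGroup.map φ P) (mapRep φ ρ) := by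
  refine MonoidHom.ext fun g => ?_
  change Matrix.GeneralLinearGroup.map φ (P * ρ g * P⁻¹) = _
  rw [map_mul, map_mul, map_inv]
  rfl

lemma mapRep_comp {A B C : Type} [CommRing A] [CommRing B] [CommRing C] (φ : A →+* B)
    (ψ : B →+* C) (ρ : G →* GL (Fin r) A) : mapRep ψ (mapRep φ ρ) = mapRep (ψ.comp φ) ρ := by
  refine MonoidHom.ext fun g => Units.ext ?_
  rw [mapRep_coe, mapRep_coe, mapRep_coe, Matrix.map_map]
  rfl

/-- the universal representation is universal -/
lemma mapRep_ev_univ {A : Type} [CommRing A] (ρ : G →* GL (Fin r) A) :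
    mapRep (ev ρ) (univRep G r) = ρ := by
  refine MonoidHom.ext fun g => Units.ext ?_
  rw [mapRep_coe]
  ext i j
  rw [Matrix.map_apply]
  change ev ρ (coo g i j) = _
  unfold coo
  rw [ev_mk]
  simp

section
open Monoid.Coprod

/-- the coordinate ring of the pairs (representation, invertible matrix) -/
abbrev PairRing (H : Type) [Group H] (n : ℕ) : Type :=
  RepRing (Monoid.Coprod H (Multiplicative ℤ)) n

/-- the universal representation of the pairs -/
noncomputable def pairRep (H : Type) [Group H] (n : ℕ) : H →* GL (Fin n) (PairRing H n) :=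
  (univRep (Monoid.Coprod H (Multiplicative ℤ)) n).comp inl

/-- the universal matrix of the pairs -/
noncomputable def pairMat (H : Type) [Group H] (n : ℕ) : GL (Fin n) (PairRing H n) :=
  univRep (Monoid.Coprod H (Multiplicative ℤ)) n (inr (Multiplicative.ofAdd 1))

lemma mem_Inv_iff (f : RepRing H n) :
    f ∈ Inv H n ↔ ev (conj (pairMat H n) (pairRep H n)) f = ev (pairRep H n) f := by
  constructor
  · intro hf
    exact hf _ _ _
  · intro hf A _ ρ P
    let Ψ : Monoid.Coprod H (Multiplicative ℤ) →* GL (Fin n) A :=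
      Monoid.Coprod.lift ρ (zpowersHom _ P)
    have h1 : mapRep (ev Ψ) (pairRep H n) = ρ := by
      have : mapRep (ev Ψ) (pairRep H n) = (mapRep (ev Ψ) (univRep _ n)).comp inl := rfl
      rw [this, mapRep_ev_univ]
      exact lift_comp_inl _ _
    have h2 : Matrix.GeneralLinearGroup.map (ev Ψ) (pairMat H n) = P := by
      have : Matrix.GeneralLinearGroup.map (ev Ψ) (pairMat H n) =
        mapRep (ev Ψ) (univRep _ n) (inr (Multiplicative.ofAdd 1)) := rfl
      rw [this, mapRep_ev_univ]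
      have h3 : Ψ (inr (Multiplicative.ofAdd 1)) = zpowersHom _ P (Multiplicative.ofAdd 1) :=
        lift_apply_inr _ _ _
      rw [h3]
      simp
    have h3 := congrArg (ev Ψ) hf
    rw [← ev_mapRep, ← ev_mapRep, conj_mapRep, h1, h2] at h3
    exact h3

end

/-- An element of `ℂ ⊗ RepRing` with the same image under both maps to the pairs comes from
`ℂ ⊗ Inv`. -/
lemma mem_range_iot (x : ℂ ⊗[ℤ] RepRing H n)
    (hx : Algebra.TensorProduct.map (AlgHom.id ℂ ℂ)
        (ev (conj (pairMat H n) (pairRep H n))).toIntAlgHom x =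
      Algebra.TensorProduct.map (AlgHom.id ℂ ℂ) (ev (pairRep H n)).toIntAlgHom x) :
    ∃ y : ℂ ⊗[ℤ] Inv H n, iot H n y = x := by
  let i1 : RepRing H n →ₗ[ℤ] PairRing H n :=
    (ev (conj (pairMat H n) (pairRep H n))).toIntAlgHom.toLinearMap
  let i2 : RepRing H n →ₗ[ℤ] PairRing H n := (ev (pairRep H n)).toIntAlgHom.toLinearMap
  have hex : Function.Exact ((Inv H n).subtype.toIntAlgHom.toLinearMap) (i1 - i2) := by
    intro f
    constructor
    · intro h
      have h2 : i1 f - i2 f = 0 := h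
      rw [sub_eq_zero] at h2
      exact ⟨⟨f, (mem_Inv_iff f).2 h2⟩, rfl⟩
    · rintro ⟨f', rfl⟩
      change i1 f' - i2 f' = 0
      rw [sub_eq_zero]
      exact (mem_Inv_iff _).1 f'.2
  have h3 := Module.Flat.lTensor_exact ℂ hex
  have h4 : LinearMap.lTensor ℂ (i1 - i2) x = 0 := by
    rw [LinearMap.lTensor_sub, LinearMap.sub_apply, sub_eq_zero]
    exact hx
  obtain ⟨y, hy⟩ := (h3 x).1 h4
  exact ⟨y, hy⟩

/-- A construction with representations over all complex algebras which is natural and respects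
conjugation. -/
structure NatRep (H G : Type) [Group H] [Group G] (n r : ℕ) where
  /-- the construction -/
  toFun : ∀ (A : Type) [CommRing A] [Algebra ℂ A], (H →* GL (Fin n) A) → (G →* GL (Fin r) A)
  nat : ∀ (A B : Type) [CommRing A] [Algebra ℂ A] [CommRing B] [Algebra ℂ B] (φ : A →ₐ[ℂ] B)
    (α : H →* GL (Fin n) A), mapRep (φ : A →+* B) (toFun A α) = toFun B (mapRep (φ : A →+* B) α)
  con : ∀ (A : Type) [CommRing A] [Algebra ℂ A] (P : GL (Fin n) A) (α : H →* GL (Fin n) A),
    ∃ Q : GL (Fin r) A, toFun A (conj P α) = conj Q (toFun A α)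

lemma extC_comp' {R A B : Type} [CommRing R] [CommRing A] [Algebra ℂ A] [CommRing B]
    [Algebra ℂ B] (φ : R →+* A) (ψ : A →ₐ[ℂ] B) :
    extC ((ψ : A →+* B).comp φ) = ψ.comp (extC φ) := by
  refine Algebra.TensorProduct.ext' fun c f => ?_
  unfold extC
  rw [AlgHom.comp_apply, Algebra.TensorProduct.lift_tmul, Algebra.TensorProduct.lift_tmul, map_mul]
  congr 1
  exact (AlgHom.commutes ψ c).symm

lemma extC_ev_iot (α : H →* GL (Fin n) ℂ) (y : ℂ ⊗[ℤ] Inv H n) :
    extC (ev α) (iot H n y) = extC (evI α) y := by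
  have : (extC (ev α)).comp (iot H n) = extC (evI α) := by
    refine Algebra.TensorProduct.ext' fun c f => ?_
    rw [AlgHom.comp_apply, iot_tmul]
    rfl
  rw [← this]
  rfl

theorem natRep_pull (F : NatRep H G n r) (x : ℂ ⊗[ℤ] Inv G r) :
    ∃ y : ℂ ⊗[ℤ] Inv H n, ∀ α : H →* GL (Fin n) ℂ,
      extC (evI α) y = extC (evI (F.toFun ℂ α)) x := by
  let A0 : Type := ℂ ⊗[ℤ] RepRing H n
  let inc : RepRing H n →+* A0 :=
    (Algebra.TensorProduct.includeRight : RepRing H n →ₐ[ℤ] ℂ ⊗[ℤ] RepRing H n).toRingHom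
  let u0 : H →* GL (Fin n) A0 := mapRep inc (univRep H n)
  let B0 : Type := ℂ ⊗[ℤ] PairRing H n
  let incB : PairRing H n →+* B0 :=
    (Algebra.TensorProduct.includeRight : PairRing H n →ₐ[ℤ] ℂ ⊗[ℤ] PairRing H n).toRingHom
  let x' : A0 := extC (evI (F.toFun A0 u0)) x
  -- transport along an algebra homomorphism
  have htr : ∀ (B : Type) [CommRing B] [Algebra ℂ B] (j : A0 →ₐ[ℂ] B),
      j x' = extC (evI (F.toFun B (mapRep (j : A0 →+* B) u0))) x := by
    intro B _ _ j
    rw [← F.nat, evI_mapRep, extC_comp']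
    rfl
  have hj : ∀ τ : RepRing H n →+* PairRing H n,
      mapRep ((Algebra.TensorProduct.map (AlgHom.id ℂ ℂ) τ.toIntAlgHom : A0 →ₐ[ℂ] B0) : A0 →+* B0)
        u0 = mapRep incB (mapRep τ (univRep H n)) := by
    intro τ
    rw [mapRep_comp, mapRep_comp]
    congr 1
  have e1 := htr B0 (Algebra.TensorProduct.map (AlgHom.id ℂ ℂ)
    (ev (conj (pairMat H n) (pairRep H n))).toIntAlgHom)
  have e2 := htr B0 (Algebra.TensorProduct.map (AlgHom.id ℂ ℂ) (ev (pairRep H n)).toIntAlgHom)
  have f1 := hj (ev (conj (pairMat H n) (pairRep H n)))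
  have f2 := hj (ev (pairRep H n))
  rw [mapRep_ev_univ, conj_mapRep] at f1
  rw [mapRep_ev_univ] at f2
  obtain ⟨Q, hQ⟩ := F.con B0 (Matrix.GeneralLinearGroup.map incB (pairMat H n))
    (mapRep incB (pairRep H n))
  have e3 : extC (evI (F.toFun B0 (mapRep ((Algebra.TensorProduct.map (AlgHom.id ℂ ℂ)
      (ev (conj (pairMat H n) (pairRep H n))).toIntAlgHom : A0 →ₐ[ℂ] B0) : A0 →+* B0) u0))) x =
      extC (evI (F.toFun B0 (mapRep ((Algebra.TensorProduct.map (AlgHom.id ℂ ℂ)
      (ev (pairRep H n)).toIntAlgHom : A0 →ₐ[ℂ] B0) : A0 →+* B0) u0))) x := by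
    rw [f1, f2, hQ, evI_conj]
  obtain ⟨y, hy⟩ := mem_range_iot x' (e1.trans (e3.trans e2.symm))
  refine ⟨y, fun α => ?_⟩
  rw [← extC_ev_iot, hy]
  have h2 := htr ℂ (extC (ev α))
  rw [h2]
  congr 4
  rw [mapRep_comp]
  have h3 : ((extC (ev α) : A0 →ₐ[ℂ] ℂ) : A0 →+* ℂ).comp inc = ev α := by
    refine RingHom.ext fun f => ?_
    change extC (ev α) ((1 : ℂ) ⊗ₜ[ℤ] f) = _
    unfold extC
    rw [Algebra.TensorProduct.lift_tmul, map_one, one_mul]
    rfl
  rw [h3, mapRep_ev_univ]

/-- Natural constructions are continuous. -/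
theorem natRep_continuous (F : NatRep H G n r) :
    Continuous (fun α : RepC H n => (show RepC G r from F.toFun ℂ α)) := by
  rw [continuous_induced_rng]
  rw [PrimeSpectrum.isTopologicalBasis_basic_opens.continuous_iff]
  rintro _ ⟨x, rfl⟩
  obtain ⟨y, hy⟩ := natRep_pull F x
  refine isOpen_induced_iff.2 ⟨PrimeSpectrum.basicOpen y, (PrimeSpectrum.basicOpen y).2, ?_⟩
  ext α
  change y ∉ RingHom.ker (extC (evI (show H →* GL (Fin n) ℂ from α))) ↔
    x ∉ RingHom.ker (extC (evI (F.toFun ℂ α)))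
  rw [RingHom.mem_ker, RingHom.mem_ker]
  have := hy α
  exact not_congr (by
    change (extC (evI (show H →* GL (Fin n) ℂ from α))) y = 0 ↔
      (extC (evI (F.toFun ℂ α))) x = 0
    rw [this])

end Pool.Agent.Lib.BettiInt
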