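import Pool.Agent.Lib.MP_89b6e6_ag.PrHaar

/-!
The coordinate ring of the general linear group and the invariant mean.
-/

open TensorProduct

namespace Pool.Agent.Lib.BettiInt

variable {r : ℕ}

/-- the coordinate ring of the general linear group -/
abbrev KK (r : ℕ) : Type :=
  Localization.Away (Matrix.mvPolynomialX (Fin r) (Fin r) ℂ).det

noncomputable instance instKK (r : ℕ) : CommRing (KK r) :=
  inferInstanceAs (CommRing (Localization.Away (Matrix.mvPolynomialX (Fin r) (Fin r) ℂ).det))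

noncomputable instance instKKAlg (r : ℕ) : Algebra ℂ (KK r) :=
  inferInstanceAs (Algebra ℂ (Localization.Away (Matrix.mvPolynomialX (Fin r) (Fin r) ℂ).det))

/-- a ring homomorphism applied to an invertible matrix -/
def glm {A B : Type} [CommRing A] [CommRing B] (φ : A →+* B) (Q : GL (Fin r) A) : GL (Fin r) B :=
  Matrix.GeneralLinearGroup.map φ Q

lemma glm_coe {A B : Type} [CommRing A] [CommRing B] (φ : A →+* B) (Q : GL (Fin r) A) :
    (glm φ Q : Matrix (Fin r) (Fin r) B) = (Q : Matrix (Fin r) (Fin r) A).map φ := rfl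

lemma glm_mul {A B : Type} [CommRing A] [CommRing B] (φ : A →+* B) (P Q : GL (Fin r) A) :
    glm φ (P * Q) = glm φ P * glm φ Q := map_mul _ _ _

lemma glm_inv {A B : Type} [CommRing A] [CommRing B] (φ : A →+* B) (P : GL (Fin r) A) :
    glm φ P⁻¹ = (glm φ P)⁻¹ := map_inv _ _

lemma glm_glm {A B C : Type} [CommRing A] [CommRing B] [CommRing C] (φ : A →+* B) (ψ : B →+* C)
    (P : GL (Fin r) A) : glm ψ (glm φ P) = glm (ψ.comp φ) P := by
  refine Units.ext ?_
  rw [glm_coe, glm_coe, glm_coe, Matrix.map_map]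
  rfl

section
variable {B : Type} [CommRing B] [Algebra ℂ B]

lemma aeval_det (Q : GL (Fin r) B) :
    MvPolynomial.aeval (fun p : Fin r × Fin r => (Q : Matrix (Fin r) (Fin r) B) p.1 p.2)
      (Matrix.mvPolynomialX (Fin r) (Fin r) ℂ).det = (Q : Matrix (Fin r) (Fin r) B).det := by
  rw [AlgHom.map_det, Matrix.mvPolynomialX_mapMatrix_aeval]

/-- the evaluation at an invertible matrix -/
noncomputable def evK (Q : GL (Fin r) B) : KK r →ₐ[ℂ] B :=
  IsLocalization.liftAlgHom (M := Submonoid.powers (Matrix.mvPolynomialX (Fin r) (Fin r) ℂ).det)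
    (f := MvPolynomial.aeval
      (fun p : Fin r × Fin r => (Q : Matrix (Fin r) (Fin r) B) p.1 p.2)) (by
    rintro ⟨_, n, rfl⟩
    simp only
    rw [map_pow, aeval_det]
    exact ((Matrix.isUnit_iff_isUnit_det _).1 Q.isUnit).pow n)

lemma evK_algebraMap (Q : GL (Fin r) B) (p : MvPolynomial (Fin r × Fin r) ℂ) :
    evK Q (algebraMap _ (KK r) p) = MvPolynomial.aeval
      (fun p : Fin r × Fin r => (Q : Matrix (Fin r) (Fin r) B) p.1 p.2) p := by
  unfold evK
  rw [IsLocalization.liftAlgHom_apply, IsLocalization.lift_eq]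
  rfl

/-- the universal invertible matrix -/
noncomputable def XK (r : ℕ) : GL (Fin r) (KK r) :=
  Matrix.GeneralLinearGroup.mk''
    ((algebraMap (MvPolynomial (Fin r × Fin r) ℂ) (KK r)).mapMatrix
      (Matrix.mvPolynomialX (Fin r) (Fin r) ℂ)) (by
    rw [← RingHom.map_det]
    exact IsLocalization.map_units (KK r)
      (⟨_, Submonoid.mem_powers _⟩ :
        Submonoid.powers (Matrix.mvPolynomialX (Fin r) (Fin r) ℂ).det))

lemma XK_coe (i j : Fin r) : (XK r : Matrix (Fin r) (Fin r) (KK r)) i j =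
    algebraMap (MvPolynomial (Fin r × Fin r) ℂ) (KK r) (MvPolynomial.X (i, j)) := rfl

lemma evK_X (Q : GL (Fin r) B) : glm (evK Q : KK r →+* B) (XK r) = Q := by
  refine Units.ext ?_
  rw [glm_coe]
  ext i j
  rw [Matrix.map_apply, XK_coe]
  have h1 := evK_algebraMap Q (MvPolynomial.X (i, j))
  rw [MvPolynomial.aeval_X] at h1
  exact h1

lemma KK_hom_ext {φ ψ : KK r →ₐ[ℂ] B}
    (h : glm (φ : KK r →+* B) (XK r) = glm (ψ : KK r →+* B) (XK r)) : φ = ψ := by
  refine IsLocalization.algHom_ext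
    (Submonoid.powers (Matrix.mvPolynomialX (Fin r) (Fin r) ℂ).det) ?_
  refine MvPolynomial.algHom_ext fun p => ?_
  obtain ⟨i, j⟩ := p
  have h0 : (glm (φ : KK r →+* B) (XK r) : Matrix (Fin r) (Fin r) B) =
      (glm (ψ : KK r →+* B) (XK r) : Matrix (Fin r) (Fin r) B) := by rw [h]
  have h1 := congrFun (congrFun h0 i) j
  exact h1

lemma evK_nat {C : Type} [CommRing C] [Algebra ℂ C] (φ : B →ₐ[ℂ] C) (Q : GL (Fin r) B)
    (h : KK r) : φ (evK Q h) = evK (glm (φ : B →+* C) Q) h := by
  have : φ.comp (evK Q) = evK (glm (φ : B →+* C) Q) := by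
    refine KK_hom_ext ?_
    rw [evK_X]
    have h1 : ((φ.comp (evK Q) : KK r →ₐ[ℂ] C) : KK r →+* C) =
      (φ : B →+* C).comp (evK Q : KK r →+* B) := rfl
    rw [h1, ← glm_glm, evK_X]
  rw [← this]
  rfl

end

/-- a unitary matrix as an invertible matrix -/
noncomputable def toGL (U : UU r) : GL (Fin r) ℂ := Unitary.toUnits U

lemma toGL_coe (U : UU r) : (toGL U : Matrix (Fin r) (Fin r) ℂ) =
    (U : Matrix (Fin r) (Fin r) ℂ) := rfl

/-- separation by the unitary matrices -/
lemma KK_sep (x : KK r) (h : ∀ U : UU r, evK (toGL U) x = 0) : x = 0 := by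
  obtain ⟨⟨p, d⟩, hp⟩ := IsLocalization.surj
    (Submonoid.powers (Matrix.mvPolynomialX (Fin r) (Fin r) ℂ).det) x
  simp only at hp
  have h1 : p = 0 := by
    refine unitary_dense p fun U => ?_
    have h2 := congrArg (evK (toGL U)) hp
    rw [map_mul, h U, zero_mul, evK_algebraMap] at h2
    exact h2.symm
  rw [h1, map_zero] at hp
  have h3 : IsUnit (algebraMap (MvPolynomial (Fin r × Fin r) ℂ) (KK r)
    (d : MvPolynomial (Fin r × Fin r) ℂ)) := IsLocalization.map_units (KK r) d
  exact (h3.mul_left_eq_zero).1 hp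

/-- continuous functions on the unitary group -/
abbrev FF (r : ℕ) : Type := C(UU r, ℂ)

/-- the tautological matrix -/
noncomputable def uF (r : ℕ) : GL (Fin r) (FF r) where
  val := Matrix.of fun i j => ⟨fun U => (U : Matrix (Fin r) (Fin r) ℂ) i j,
    (continuous_subtype_val).matrix_elem i j⟩
  inv := Matrix.of fun i j => ⟨fun U => (star (U : Matrix (Fin r) (Fin r) ℂ)) i j,
    (continuous_star.comp continuous_subtype_val).matrix_elem i j⟩
  val_inv := by
    ext i j U
    rw [Matrix.mul_apply]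
    have h1 := (Matrix.mem_unitaryGroup_iff).1 U.2
    have h2 := congrFun (congrFun h1 i) j
    rw [Matrix.mul_apply] at h2
    rw [ContinuousMap.sum_apply]
    refine Eq.trans ?_ (h2.trans ?_)
    · rfl
    · rw [Matrix.one_apply, Matrix.one_apply]
      split_ifs <;> rfl
  inv_val := by
    ext i j U
    rw [Matrix.mul_apply]
    have h1 := (Matrix.mem_unitaryGroup_iff').1 U.2
    have h2 := congrFun (congrFun h1 i) j
    rw [Matrix.mul_apply] at h2
    rw [ContinuousMap.sum_apply]
    refine Eq.trans ?_ (h2.trans ?_)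
    · rfl
    · rw [Matrix.one_apply, Matrix.one_apply]
      split_ifs <;> rfl

lemma uF_coe (i j : Fin r) (U : UU r) :
    ((uF r : Matrix (Fin r) (Fin r) (FF r)) i j) U = (U : Matrix (Fin r) (Fin r) ℂ) i j := rfl

/-- the left translation of functions -/
noncomputable def trans (V : UU r) : FF r →ₐ[ℂ] FF r :=
  ContinuousMap.compRightAlgHom ℂ ℂ (ContinuousMap.mulLeft V)

lemma glm_trans (V : UU r) : glm (trans V : FF r →+* FF r) (uF r) =
    glm (algebraMap ℂ (FF r)) (toGL V) * uF r := by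
  refine Units.ext ?_
  rw [glm_coe, Units.val_mul, glm_coe]
  ext i j U
  rw [Matrix.map_apply, Matrix.mul_apply, ContinuousMap.sum_apply]
  change ((V * U : UU r) : Matrix (Fin r) (Fin r) ℂ) i j = _
  rw [Submonoid.coe_mul, Matrix.mul_apply]
  rfl

end Pool.Agent.Lib.BettiInt
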