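import Mathlib

/-!
The unitary group: the mean value of continuous functions, and Zariski density.
-/

namespace Pool.Agent.Lib.BettiInt

open MeasureTheory Matrix
open scoped ComplexOrder

variable {r : ℕ}

/-- the unitary group -/
abbrev UU (r : ℕ) : Type := Matrix.unitaryGroup (Fin r) ℂ

instance instCompactUU : CompactSpace (UU r) := by
  have h1 : IsClosed ((Matrix.unitaryGroup (Fin r) ℂ : Submonoid (Matrix (Fin r) (Fin r) ℂ)) :
      Set (Matrix (Fin r) (Fin r) ℂ)) := isClosed_unitary
  have h2 : IsCompact (Set.pi Set.univ fun _ : Fin r =>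
      Set.pi Set.univ fun _ : Fin r => Metric.closedBall (0 : ℂ) 1) :=
    isCompact_univ_pi fun _ => isCompact_univ_pi fun _ => isCompact_closedBall _ _
  exact isCompact_iff_compactSpace.1 (h2.of_isClosed_subset h1 (fun U hU i _ j _ => by
    rw [Metric.mem_closedBall, dist_zero_right]
    exact entry_norm_bound_of_unitary hU i j))

theorem exists_mean (r : ℕ) : ∃ lam : C(UU r, ℂ) →ₗ[ℂ] ℂ, lam 1 = 1 ∧
    ∀ (f : C(UU r, ℂ)) (v : UU r), lam (f.comp (ContinuousMap.mulLeft v)) = lam f := by
  borelize (UU r)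
  let μ : Measure (UU r) := Measure.haarMeasure ⊤
  have hμ : IsProbabilityMeasure μ := ⟨Measure.haarMeasure_self⟩
  have hint : ∀ f : C(UU r, ℂ), Integrable f μ := fun f =>
    f.continuous.integrable_of_hasCompactSupport (HasCompactSupport.of_compactSpace _)
  refine ⟨{ toFun := fun f => ∫ x, f x ∂μ
            map_add' := fun f g => integral_add (hint f) (hint g)
            map_smul' := fun c f => integral_const_mul c _ }, ?_, ?_⟩
  · change ∫ x, (1 : C(UU r, ℂ)) x ∂μ = 1
    simp
  · intro f v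
    change ∫ x, f (v * x) ∂μ = ∫ x, f x ∂μ
    exact integral_mul_left_eq_self f v

lemma sphere_infinite : (Metric.sphere (0 : ℂ) 1).Infinite := by
  have h1 : IsPreconnected (Metric.sphere (0 : ℂ) 1) :=
    isPreconnected_sphere (by rw [Complex.rank_real_complex]; norm_num) 0 1
  refine h1.infinite_of_nontrivial ⟨1, by simp, -1, by simp, ?_⟩
  intro h
  have := congrArg Complex.re h
  norm_num at this

lemma exists_spec (M : Matrix (Fin r) (Fin r) ℂ) (hM : M.det ≠ 0) :
    ∃ (V : UU r) (s : Fin r → ℂ), (∀ i, s i ≠ 0) ∧ (∀ i, star (s i) = s i) ∧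
      Mᴴ * M = (V : Matrix (Fin r) (Fin r) ℂ) * diagonal (fun i => s i * s i) *
        star (V : Matrix (Fin r) (Fin r) ℂ) := by
  have hinj : Function.Injective M.mulVec :=
    Matrix.mulVec_injective_iff_isUnit.2 ((Matrix.isUnit_iff_isUnit_det M).2 hM.isUnit)
  have hpd : (Mᴴ * M).PosDef := Matrix.PosDef.conjTranspose_mul_self M hinj
  have hd : ∀ i, 0 < hpd.1.eigenvalues i := hpd.eigenvalues_pos
  have hsp : Mᴴ * M = (hpd.1.eigenvectorUnitary : Matrix (Fin r) (Fin r) ℂ) *
      diagonal (RCLike.ofReal ∘ hpd.1.eigenvalues) *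
        star (hpd.1.eigenvectorUnitary : Matrix (Fin r) (Fin r) ℂ) := by
    conv_lhs => rw [hpd.1.spectral_theorem, Unitary.conjStarAlgAut_apply]
  refine ⟨hpd.1.eigenvectorUnitary, fun i => ((Real.sqrt (hpd.1.eigenvalues i) : ℝ) : ℂ),
    ?_, ?_, ?_⟩
  · intro i
    have := Real.sqrt_pos.2 (hd i)
    exact Complex.ofReal_ne_zero.2 this.ne'
  · exact fun i => Complex.conj_ofReal _
  · have : (fun i => ((Real.sqrt (hpd.1.eigenvalues i) : ℝ) : ℂ) *
        ((Real.sqrt (hpd.1.eigenvalues i) : ℝ) : ℂ)) = RCLike.ofReal ∘ hpd.1.eigenvalues := by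
      funext i
      change ((Real.sqrt (hpd.1.eigenvalues i) : ℝ) : ℂ) * _ = ((hpd.1.eigenvalues i : ℝ) : ℂ)
      rw [← Complex.ofReal_mul, Real.mul_self_sqrt (hd i).le]
    rw [this]
    exact hsp

/-- singular values -/
lemma exists_svd (M : Matrix (Fin r) (Fin r) ℂ) (hM : M.det ≠ 0) :
    ∃ (A B : UU r) (s : Fin r → ℂ),
      M = (A : Matrix (Fin r) (Fin r) ℂ) * diagonal s * (B : Matrix (Fin r) (Fin r) ℂ) := by
  obtain ⟨V, s, hs0, hsst, hsp⟩ := exists_spec M hM
  have hVs : star (V : Matrix (Fin r) (Fin r) ℂ) * (V : Matrix (Fin r) (Fin r) ℂ) = 1 :=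
    (Matrix.mem_unitaryGroup_iff').1 V.2
  have hVs' : (V : Matrix (Fin r) (Fin r) ℂ) * star (V : Matrix (Fin r) (Fin r) ℂ) = 1 :=
    (Matrix.mem_unitaryGroup_iff).1 V.2
  set V' : Matrix (Fin r) (Fin r) ℂ := (V : Matrix (Fin r) (Fin r) ℂ) with hV'
  let A : Matrix (Fin r) (Fin r) ℂ := M * V' * diagonal (fun i => (s i)⁻¹)
  have hA : A ∈ Matrix.unitaryGroup (Fin r) ℂ := by
    rw [Matrix.mem_unitaryGroup_iff']
    have h1 : star A = diagonal (fun i => (s i)⁻¹) * (star V' * Mᴴ) := by
      change star (M * V' * diagonal (fun i => (s i)⁻¹)) = _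
      rw [star_mul, star_mul, Matrix.star_eq_conjTranspose (diagonal _),
        Matrix.diagonal_conjTranspose]
      congr 2
      funext i
      rw [Pi.star_apply, star_inv₀, hsst]
    rw [h1]
    change _ * (M * V' * diagonal (fun i => (s i)⁻¹)) = 1
    calc diagonal (fun i => (s i)⁻¹) * (star V' * Mᴴ) *
          (M * V' * diagonal (fun i => (s i)⁻¹))
        = diagonal (fun i => (s i)⁻¹) * (star V' * (Mᴴ * M) * V') *
          diagonal (fun i => (s i)⁻¹) := by simp only [Matrix.mul_assoc]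
      _ = diagonal (fun i => (s i)⁻¹) * diagonal (fun i => s i * s i) *
          diagonal (fun i => (s i)⁻¹) := by
          rw [hsp]
          have : star V' * (V' * diagonal (fun i => s i * s i) * star V') * V' =
            (star V' * V') * diagonal (fun i => s i * s i) * (star V' * V') := by
            simp only [Matrix.mul_assoc]
          rw [this, hVs, Matrix.one_mul, Matrix.mul_one]
      _ = 1 := by
          rw [Matrix.diagonal_mul_diagonal, Matrix.diagonal_mul_diagonal, ← Matrix.diagonal_one]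
          congr 1
          funext i
          field_simp [hs0 i]
  refine ⟨⟨A, hA⟩, V⁻¹, s, ?_⟩
  change M = (M * V' * diagonal (fun i => (s i)⁻¹)) * diagonal s * star V'
  have h2 : diagonal (fun i => (s i)⁻¹) * diagonal s = (1 : Matrix (Fin r) (Fin r) ℂ) := by
    rw [Matrix.diagonal_mul_diagonal, ← Matrix.diagonal_one]
    congr 1
    funext i
    exact inv_mul_cancel₀ (hs0 i)
  rw [Matrix.mul_assoc (M * V'), h2, Matrix.mul_one, Matrix.mul_assoc, hVs', Matrix.mul_one]

lemma diag_unitary (z : Fin r → ℂ) (hz : z ∈ Set.pi Set.univ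
    (fun _ : Fin r => Metric.sphere (0 : ℂ) 1)) : diagonal z ∈ Matrix.unitaryGroup (Fin r) ℂ := by
  have hz' : ∀ i, star (z i) * z i = 1 := by
    intro i
    have h2 := hz i trivial
    rw [mem_sphere_zero_iff_norm] at h2
    have h3 := Complex.conj_mul' (z i)
    rw [h2] at h3
    rw [Complex.star_def, h3]
    norm_num
  rw [Matrix.mem_unitaryGroup_iff', Matrix.star_eq_conjTranspose,
    Matrix.diagonal_conjTranspose, Matrix.diagonal_mul_diagonal, ← Matrix.diagonal_one]
  congr 1
  funext i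
  exact hz' i

/-- a polynomial which vanishes on the unitary matrices vanishes on invertible ones -/
lemma eval_zero_of_det (p : MvPolynomial (Fin r × Fin r) ℂ)
    (h : ∀ U : UU r, MvPolynomial.eval
      (fun q => (U : Matrix (Fin r) (Fin r) ℂ) q.1 q.2) p = 0)
    (M : Matrix (Fin r) (Fin r) ℂ) (hM : M.det ≠ 0) :
    MvPolynomial.eval (fun q => M q.1 q.2) p = 0 := by
  obtain ⟨A, B, s, hMs⟩ := exists_svd M hM
  set A' : Matrix (Fin r) (Fin r) ℂ := (A : Matrix (Fin r) (Fin r) ℂ) with hA'
  set B' : Matrix (Fin r) (Fin r) ℂ := (B : Matrix (Fin r) (Fin r) ℂ) with hB'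
  let P : MvPolynomial (Fin r) ℂ := MvPolynomial.bind₁ (fun q : Fin r × Fin r =>
    ∑ k, MvPolynomial.C (A' q.1 k * B' k q.2) * MvPolynomial.X k) p
  have hP : ∀ z : Fin r → ℂ, MvPolynomial.eval z P = MvPolynomial.eval
      (fun q => (A' * diagonal z * B') q.1 q.2) p := by
    intro z
    have h1 : MvPolynomial.eval z P = MvPolynomial.aeval z P := rfl
    have h2 : ∀ x : Fin r × Fin r → ℂ, MvPolynomial.eval x p = MvPolynomial.aeval x p :=
      fun _ => rfl
    rw [h1, h2]
    change MvPolynomial.aeval z (MvPolynomial.bind₁ _ p) = _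
    rw [MvPolynomial.aeval_bind₁]
    congr 2
    funext q
    rw [map_sum, Matrix.mul_apply]
    refine Finset.sum_congr rfl fun k _ => ?_
    rw [map_mul, MvPolynomial.aeval_X, MvPolynomial.aeval_C, Matrix.mul_diagonal]
    change A' q.1 k * B' k q.2 * z k = A' q.1 k * z k * B' k q.2
    ring
  have h0 : P = 0 := by
    refine MvPolynomial.funext_set (fun _ => Metric.sphere (0 : ℂ) 1)
      (fun _ => sphere_infinite) ?_
    intro z hz
    rw [hP, map_zero]
    have h3 := h (A * ⟨diagonal z, diag_unitary z hz⟩ * B)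
    have h4 : ((A * ⟨diagonal z, diag_unitary z hz⟩ * B : UU r) : Matrix (Fin r) (Fin r) ℂ) =
        A' * diagonal z * B' := by
      rw [Submonoid.coe_mul, Submonoid.coe_mul]
    rw [h4] at h3
    exact h3
  rw [hMs, ← hP, h0, map_zero]

/-- **The unitary group is Zariski dense.** -/
theorem unitary_dense (p : MvPolynomial (Fin r × Fin r) ℂ)
    (h : ∀ U : UU r, MvPolynomial.eval
      (fun q => (U : Matrix (Fin r) (Fin r) ℂ) q.1 q.2) p = 0) : p = 0 := by
  have h2 : p * (Matrix.mvPolynomialX (Fin r) (Fin r) ℂ).det = 0 := by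
    refine MvPolynomial.funext fun x => ?_
    rw [map_mul, map_zero, Matrix.eval_det_mvPolynomialX]
    by_cases hx : (Matrix.of fun i j => x (i, j)).det = 0
    · rw [hx, mul_zero]
    · have := eval_zero_of_det p h (Matrix.of fun i j => x (i, j)) hx
      simp only [Matrix.of_apply, Prod.mk.eta] at this
      rw [this, zero_mul]
  exact (mul_eq_zero.1 h2).resolve_right (Matrix.det_mvPolynomialX_ne_zero _ _)

end Pool.Agent.Lib.BettiInt
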