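import Pool.Agent.Lib.MP_89b6e6_ag.PrGL

/-!
The invariant mean with values in algebras.
-/

open TensorProduct

namespace Pool.Agent.Lib.BettiInt

variable {r : ℕ} {A B : Type} [CommRing A] [Algebra ℂ A] [CommRing B] [Algebra ℂ B]
  {F : Type} [CommRing F] [Algebra ℂ F]

/-- the mean over the second factor -/
noncomputable def mean (lam : F →ₗ[ℂ] ℂ) (A : Type) [CommRing A] [Algebra ℂ A] :
    A ⊗[ℂ] F →ₗ[ℂ] A :=
  (TensorProduct.rid ℂ A).toLinearMap.comp (LinearMap.lTensor A lam)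

lemma mean_tmul (lam : F →ₗ[ℂ] ℂ) (a : A) (f : F) :
    mean lam A (a ⊗ₜ[ℂ] f) = lam f • a := by
  unfold mean
  rw [LinearMap.comp_apply, LinearMap.lTensor_tmul]
  exact TensorProduct.rid_tmul _ _

/-- base change of the functions -/
noncomputable def tens (F : Type) [CommRing F] [Algebra ℂ F] (φ : A →ₐ[ℂ] B) :
    A ⊗[ℂ] F →ₐ[ℂ] B ⊗[ℂ] F :=
  Algebra.TensorProduct.map φ (AlgHom.id ℂ F)

lemma mean_nat (lam : F →ₗ[ℂ] ℂ) (φ : A →ₐ[ℂ] B) (x : A ⊗[ℂ] F) :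
    φ (mean lam A x) = mean lam B (tens F φ x) := by
  induction x using TensorProduct.induction_on with
  | zero => rw [map_zero, map_zero, map_zero, map_zero]
  | tmul a f =>
    have : tens F φ (a ⊗ₜ[ℂ] f) = φ a ⊗ₜ[ℂ] f := rfl
    rw [this, mean_tmul, mean_tmul, map_smul]
  | add x y hx hy => rw [map_add, map_add, map_add, map_add, hx, hy]

lemma mean_mul (lam : F →ₗ[ℂ] ℂ) (x : A ⊗[ℂ] F) (a : A) :
    mean lam A (x * (a ⊗ₜ[ℂ] (1 : F))) = mean lam A x * a := by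
  induction x using TensorProduct.induction_on with
  | zero => rw [zero_mul, map_zero, zero_mul]
  | tmul b f =>
    rw [Algebra.TensorProduct.tmul_mul_tmul, mul_one, mean_tmul, mean_tmul, smul_mul_assoc]
  | add x y hx hy => rw [add_mul, map_add, map_add, add_mul, hx, hy]

/-- the first inclusion -/
noncomputable def inL (F : Type) [CommRing F] [Algebra ℂ F] (A : Type) [CommRing A]
    [Algebra ℂ A] : A →ₐ[ℂ] A ⊗[ℂ] F :=
  Algebra.TensorProduct.includeLeft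

/-- the second inclusion -/
noncomputable def inR (F : Type) [CommRing F] [Algebra ℂ F] (A : Type) [CommRing A]
    [Algebra ℂ A] : F →ₐ[ℂ] A ⊗[ℂ] F :=
  Algebra.TensorProduct.includeRight

/-- the tautological matrix over the tensor product -/
noncomputable def uA (u : GL (Fin r) F) (A : Type) [CommRing A] [Algebra ℂ A] :
    GL (Fin r) (A ⊗[ℂ] F) := glm (inR F A : F →+* A ⊗[ℂ] F) u

lemma glm_tens_inL (φ : A →ₐ[ℂ] B) (Q : GL (Fin r) A) :
    glm (tens F φ : A ⊗[ℂ] F →+* B ⊗[ℂ] F) (glm (inL F A : A →+* A ⊗[ℂ] F) Q) =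
      glm (inL F B : B →+* B ⊗[ℂ] F) (glm (φ : A →+* B) Q) := by
  rw [glm_glm, glm_glm]
  congr 1

lemma glm_tens_uA (u : GL (Fin r) F) (φ : A →ₐ[ℂ] B) :
    glm (tens F φ : A ⊗[ℂ] F →+* B ⊗[ℂ] F) (uA u A) = uA u B := by
  unfold uA
  rw [glm_glm]
  congr 1
  refine RingHom.ext fun f => ?_
  change φ 1 ⊗ₜ[ℂ] f = (1 : B) ⊗ₜ[ℂ] f
  rw [map_one]

section
variable (u : GL (Fin r) F) (lam : F →ₗ[ℂ] ℂ)
  (hinv : ∀ U : UU r, ∃ T : F →ₐ[ℂ] F,
    glm (T : F →+* F) u = glm (algebraMap ℂ F) (toGL U) * u ∧ ∀ f, lam (T f) = lam f)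
include hinv

lemma mean_evK_univ (h : KK r) :
    mean lam (KK r) (evK ((glm (inL F (KK r) : KK r →+* KK r ⊗[ℂ] F) (XK r))⁻¹ *
      uA u (KK r)) h) = lam (evK u h) • (1 : KK r) := by
  rw [← sub_eq_zero]
  refine KK_sep _ fun U => ?_
  rw [map_sub, map_smul, map_one, mean_nat, evK_nat, glm_mul, glm_inv, glm_tens_inL, evK_X,
    glm_tens_uA]
  obtain ⟨T, hT1, hT2⟩ := hinv U⁻¹
  let ℓ : ℂ ⊗[ℂ] F →ₐ[ℂ] F := (Algebra.TensorProduct.lid ℂ F).toAlgHom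
  have hℓ : ∀ (c : ℂ) (f : F), ℓ (c ⊗ₜ[ℂ] f) = c • f := fun c f =>
    Algebra.TensorProduct.lid_tmul _ _
  have h1 : ∀ x : ℂ ⊗[ℂ] F, mean lam ℂ x = lam (ℓ x) := by
    intro x
    induction x using TensorProduct.induction_on with
    | zero => rw [map_zero, map_zero, map_zero]
    | tmul a f => rw [mean_tmul, hℓ, map_smul, smul_eq_mul, smul_eq_mul, mul_comm]
    | add x y hx hy => rw [map_add, map_add, map_add, hx, hy]
  have h2 : glm (ℓ : ℂ ⊗[ℂ] F →+* F)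
      ((glm (inL F ℂ : ℂ →+* ℂ ⊗[ℂ] F) (toGL U))⁻¹ * uA u ℂ) = glm (T : F →+* F) u := by
    rw [hT1, glm_mul, glm_inv]
    unfold uA
    rw [glm_glm, glm_glm]
    have h3 : (ℓ : ℂ ⊗[ℂ] F →+* F).comp (inL F ℂ : ℂ →+* ℂ ⊗[ℂ] F) = algebraMap ℂ F := by
      refine RingHom.ext fun c => ?_
      change ℓ (c ⊗ₜ[ℂ] (1 : F)) = _
      rw [hℓ, Algebra.algebraMap_eq_smul_one]
    have h4 : (ℓ : ℂ ⊗[ℂ] F →+* F).comp (inR F ℂ : F →+* ℂ ⊗[ℂ] F) = RingHom.id F := by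
      refine RingHom.ext fun f => ?_
      change ℓ ((1 : ℂ) ⊗ₜ[ℂ] f) = _
      rw [hℓ, one_smul]
      rfl
    rw [h3, h4, ← glm_inv]
    have h5 : toGL U⁻¹ = (toGL U)⁻¹ := map_inv _ _
    rw [h5]
    congr 1
  rw [h1, evK_nat, h2, ← evK_nat, hT2, smul_eq_mul, mul_one, sub_self]

lemma mean_evK (Q : GL (Fin r) A) (h : KK r) :
    mean lam A (evK ((glm (inL F A : A →+* A ⊗[ℂ] F) Q)⁻¹ * uA u A) h) =
      lam (evK u h) • (1 : A) := by
  have h1 := congrArg (evK Q) (mean_evK_univ u lam hinv h)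
  rw [mean_nat, evK_nat, glm_mul, glm_inv, glm_tens_inL, evK_X, glm_tens_uA, map_smul,
    map_one] at h1
  exact h1

omit hinv in
/-- the substitution of the translated tautological matrix -/
noncomputable def LQ (Q : GL (Fin r) A) : A ⊗[ℂ] KK r →ₐ[ℂ] A ⊗[ℂ] F :=
  Algebra.TensorProduct.lift (inL F A)
    (evK ((glm (inL F A : A →+* A ⊗[ℂ] F) Q)⁻¹ * uA u A)) (fun _ _ => Commute.all _ _)

lemma mean_LQ (Q Q' : GL (Fin r) A) (x : A ⊗[ℂ] KK r) :
    mean lam A (LQ u Q x) = mean lam A (LQ u Q' x) := by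
  induction x using TensorProduct.induction_on with
  | zero => simp only [map_zero]
  | tmul a h =>
    have h1 : ∀ Q : GL (Fin r) A, LQ u Q (a ⊗ₜ[ℂ] h) =
        evK ((glm (inL F A : A →+* A ⊗[ℂ] F) Q)⁻¹ * uA u A) h * (a ⊗ₜ[ℂ] (1 : F)) := by
      intro Q
      unfold LQ
      rw [Algebra.TensorProduct.lift_tmul, mul_comm]
      rfl
    rw [h1, h1, mean_mul, mean_mul, mean_evK u lam hinv, mean_evK u lam hinv]
  | add x y hx hy => rw [map_add, map_add, map_add, map_add, hx, hy]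

end

end Pool.Agent.Lib.BettiInt
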