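import Mathlib

/-!
The ring generated by an absolutely irreducible group of endomorphisms with integral traces is a
finitely generated abelian group.
-/

namespace Pool.Agent.Lib.BettiInt

open Module

lemma trace_nondeg {U : Type} [AddCommGroup U] [Module ℂ U] [FiniteDimensional ℂ U]
    (x : Module.End ℂ U) (h : ∀ y : Module.End ℂ U, LinearMap.trace ℂ U (x * y) = 0) : x = 0 := by
  refine LinearMap.ext fun u => ?_
  rw [LinearMap.zero_apply, ← Module.forall_dual_apply_eq_zero_iff ℂ]
  intro f
  have h1 := h (f.smulRight u)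
  have h2 : x * (f.smulRight u : Module.End ℂ U) = f.smulRight (x u) := by
    refine LinearMap.ext fun v => ?_
    rw [Module.End.mul_apply, LinearMap.smulRight_apply, LinearMap.smulRight_apply, map_smul]
  rw [h2, LinearMap.trace_smulRight] at h1
  exact h1

/-- integral elements of a number field inside the complex numbers -/
noncomputable def intF (F : IntermediateField ℚ ℂ) : Submodule ℤ ℂ :=
  (Subalgebra.toSubmodule (integralClosure ℤ F)).map (F.val.toLinearMap.restrictScalars ℤ)

lemma mem_intF (F : IntermediateField ℚ ℂ) (x : ℂ) : x ∈ intF F ↔ x ∈ F ∧ IsIntegral ℤ x := by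
  constructor
  · rintro ⟨y, hy, rfl⟩
    refine ⟨y.2, ?_⟩
    have : IsIntegral ℤ y := hy
    exact this.map (F.val.restrictScalars ℤ)
  · rintro ⟨h1, h2⟩
    refine ⟨⟨x, h1⟩, ?_, rfl⟩
    change IsIntegral ℤ (⟨x, h1⟩ : F)
    have h3 : Function.Injective (F.val.restrictScalars ℤ) := F.val.injective
    exact (isIntegral_algHom_iff (F.val.restrictScalars ℤ) h3).1 h2

lemma intF_fg (F : IntermediateField ℚ ℂ) (hF : FiniteDimensional ℚ F) : (intF F).FG := by
  have : NumberField F := { to_charZero := inferInstance, to_finiteDimensional := hF }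
  have h1 : Module.Finite ℤ (NumberField.RingOfIntegers F) := inferInstance
  have h2 : Module.Finite ℤ (integralClosure ℤ F) := h1
  refine Submodule.FG.map _ ?_
  exact Module.Finite.iff_fg.1 h2

variable {G : Type} [Group G] {U : Type} [AddCommGroup U] [Module ℂ U] [FiniteDimensional ℂ U]

theorem span_int_fg [Group.FG G] (τ : G →* Module.End ℂ U)
    (htop : Submodule.span ℂ (Set.range τ) = ⊤)
    (hint : ∀ g, IsIntegral ℤ (LinearMap.trace ℂ U (τ g))) :
    (Submodule.span ℤ (Set.range τ)).FG := by
  classical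
  obtain ⟨n, γ, b, hb⟩ : ∃ (n : ℕ) (γ : Fin n → G) (b : Basis (Fin n) ℂ (Module.End ℂ U)),
      ∀ j, b j = τ (γ j) := by
    let b := Module.Basis.ofSpan htop.ge
    have : Fintype _ := FiniteDimensional.fintypeBasisIndex b
    let e := Fintype.equivFin (((linearIndepOn_empty ℂ id).extend
      (Set.empty_subset (Set.range τ)) : Set (Module.End ℂ U)) : Type)
    let b' := b.reindex e
    have h1 : ∀ j, ∃ g, τ g = b' j := by
      intro j
      have : b' j ∈ Set.range b := by
        rw [← Basis.range_reindex b e]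
        exact ⟨j, rfl⟩
      exact Module.Basis.ofSpan_subset htop.ge this
    choose γ hγ using h1
    exact ⟨_, γ, b', fun j => (hγ j).symm⟩
  set tr : Module.End ℂ U →ₗ[ℂ] ℂ := LinearMap.trace ℂ U with htr
  let M : Matrix (Fin n) (Fin n) ℂ := Matrix.of fun k l => tr (b k * b l)
  have hM : ∀ k l, M k l = tr (b k * b l) := fun k l => rfl
  have hcoef : ∀ (x : Module.End ℂ U) (k : Fin n),
      M.det * b.repr x k = ∑ l, tr (x * b l) * M.adjugate l k := by
    intro x k
    have h1 : (fun l => tr (x * b l)) = Matrix.vecMul (fun k => b.repr x k) M := by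
      funext l
      rw [Matrix.vecMul, dotProduct]
      conv_lhs => rw [← b.sum_repr x]
      rw [Finset.sum_mul, map_sum]
      refine Finset.sum_congr rfl fun k _ => ?_
      rw [smul_mul_assoc, map_smul, smul_eq_mul, hM]
    have h2 : ∑ l, tr (x * b l) * M.adjugate l k =
        Matrix.vecMul (fun l => tr (x * b l)) M.adjugate k := rfl
    rw [h2, h1, Matrix.vecMul_vecMul, Matrix.mul_adjugate, Matrix.vecMul_smul, Matrix.vecMul_one]
    rfl
  have hD : M.det ≠ 0 := by
    intro h0
    obtain ⟨v, hv, hvM⟩ := Matrix.exists_vecMul_eq_zero_iff.2 h0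
    have h1 : (∑ k, v k • b k) = 0 := by
      refine trace_nondeg _ fun y => ?_
      rw [← b.sum_repr y, Finset.mul_sum, map_sum]
      refine Finset.sum_eq_zero fun l _ => ?_
      rw [mul_smul_comm, map_smul]
      have h2 := congrFun hvM l
      rw [Matrix.vecMul, dotProduct, Pi.zero_apply] at h2
      have h3 : tr ((∑ k, v k • b k) * b l) = 0 := by
        rw [← h2, Finset.sum_mul, map_sum]
        refine Finset.sum_congr rfl fun k _ => ?_
        rw [smul_mul_assoc, map_smul, smul_eq_mul, hM]
      change _ • tr _ = 0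
      rw [h3, smul_zero]
    apply hv
    funext k
    exact Fintype.linearIndependent_iff.1 b.linearIndependent v h1 k
  obtain ⟨S, hS, hSf⟩ := Monoid.fg_iff.1 (Group.fg_iff_monoid_fg.1 (inferInstance : Group.FG G))
  have hSfin : Finite S := hSf.to_subtype
  let T : Set ℂ := (Set.range fun p : Fin n × Fin n => tr (b p.1 * b p.2)) ∪
    (Set.range fun p : S × Fin n × Fin n => tr (τ p.1 * b p.2.1 * b p.2.2)) ∪
    Set.range fun l => tr (b l)
  have hTf : T.Finite :=
    ((Set.finite_range _).union (Set.finite_range _)).union (Set.finite_range _)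
  have hTf' : Finite T := hTf.to_subtype
  have hTi : ∀ x ∈ T, IsIntegral ℤ x := by
    rintro x ((⟨p, rfl⟩ | ⟨p, rfl⟩) | ⟨l, rfl⟩)
    · simp only [hb]
      rw [← map_mul]
      exact hint _
    · simp only [hb]
      rw [← map_mul, ← map_mul]
      exact hint _
    · simp only [hb]
      exact hint _
  let F : IntermediateField ℚ ℂ := IntermediateField.adjoin ℚ T
  have hF : FiniteDimensional ℚ F :=
    IntermediateField.finiteDimensional_adjoin (fun x hx => (hTi x hx).tower_top)
  have hTF : ∀ x ∈ T, x ∈ F := fun x hx => IntermediateField.subset_adjoin ℚ T hx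
  let R : Subring ℂ := (integralClosure ℤ ℂ).toSubring ⊓ F.toSubfield.toSubring
  have hMR : ∀ k l, M k l ∈ R := by
    intro k l
    have h1 : M k l ∈ T := Or.inl (Or.inl ⟨(k, l), rfl⟩)
    exact ⟨hTi _ h1, hTF _ h1⟩
  let M₁ : Matrix (Fin n) (Fin n) R := Matrix.of fun k l => ⟨M k l, hMR k l⟩
  have hM₁ : R.subtype.mapMatrix M₁ = M := by
    ext k l
    rfl
  have hadj : ∀ k l, M.adjugate k l ∈ R := by
    intro k l
    rw [← hM₁, ← RingHom.map_adjugate]
    exact (M₁.adjugate k l).2
  have hdet : M.det ∈ R := by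
    rw [← hM₁, ← RingHom.map_det]
    exact (M₁.det).2
  have hrepr : ∀ x : Module.End ℂ U, (∀ l, tr (x * b l) ∈ F) → ∀ k, b.repr x k ∈ F := by
    intro x hx k
    have h1 : b.repr x k = (∑ l, tr (x * b l) * M.adjugate l k) / M.det := by
      rw [← hcoef x k, mul_div_cancel_left₀ _ hD]
    rw [h1]
    refine F.div_mem (F.sum_mem fun l _ => F.mul_mem (hx l) (hadj l k).2) hdet.2
  have htF : ∀ g : G, ∀ l, tr (τ g * b l) ∈ F := by
    intro g
    have hg : g ∈ Submonoid.closure S := by rw [hS]; trivial
    induction hg using Submonoid.closure_induction_left with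
    | one =>
      intro l
      rw [map_one, one_mul]
      exact hTF _ (Or.inr ⟨l, rfl⟩)
    | mul_left x hx y hy ih =>
      intro l
      have h1 := hrepr (τ y) ih
      have h2 : tr (τ (x * y) * b l) = ∑ k, b.repr (τ y) k * tr (τ x * b k * b l) := by
        rw [τ.map_mul]
        conv_lhs => rw [← b.sum_repr (τ y)]
        rw [Finset.mul_sum, Finset.sum_mul, map_sum]
        refine Finset.sum_congr rfl fun k _ => ?_
        rw [mul_smul_comm, smul_mul_assoc, map_smul, smul_eq_mul]
      rw [h2]
      exact F.sum_mem fun k _ => F.mul_mem (h1 k)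
        (hTF _ (Or.inl (Or.inr ⟨(⟨x, hx⟩, k, l), rfl⟩)))
  let N : Submodule ℤ (Module.End ℂ U) := ⨆ k, (intF F).map
    ((LinearMap.toSpanSingleton ℂ (Module.End ℂ U) (b k)).restrictScalars ℤ)
  have hN : N.FG := Submodule.fg_iSup _ fun k => (intF_fg F hF).map _
  have hmem : ∀ g, M.det • τ g ∈ N := by
    intro g
    have h1 : M.det • τ g = ∑ k, (∑ l, tr (τ g * b l) * M.adjugate l k) • b k := by
      conv_lhs => rw [← b.sum_repr (τ g)]
      rw [Finset.smul_sum]
      refine Finset.sum_congr rfl fun k _ => ?_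
      rw [smul_smul, hcoef]
    rw [h1]
    refine N.sum_mem fun k _ => ?_
    refine (le_iSup (fun k => (intF F).map
      ((LinearMap.toSpanSingleton ℂ (Module.End ℂ U) (b k)).restrictScalars ℤ)) k) ?_
    refine ⟨∑ l, tr (τ g * b l) * M.adjugate l k, ?_, rfl⟩
    refine (mem_intF F _).2 ⟨F.sum_mem fun l _ => F.mul_mem (htF g l) (hadj l k).2, ?_⟩
    refine IsIntegral.sum _ fun l _ => IsIntegral.mul ?_ (hadj l k).1
    rw [hb, ← map_mul]
    exact hint _
  refine Submodule.FG.of_le (hN.map ((LinearMap.lsmul ℂ (Module.End ℂ U)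
    (M.det)⁻¹).restrictScalars ℤ)) (Submodule.span_le.2 ?_)
  rintro _ ⟨g, rfl⟩
  refine ⟨_, hmem g, ?_⟩
  change (M.det)⁻¹ • M.det • τ g = τ g
  rw [smul_smul, inv_mul_cancel₀ hD, one_smul]

end Pool.Agent.Lib.BettiInt
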