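import Pool.Agent.Lib.MP_89b6e6_ag.PrMean
import Pool.Agent.Lib.MP_89b6e6_ag.PrBass

/-!
The Reynolds operator; every complex point of the Betti moduli space is the point of a
representation.
-/

open TensorProduct

namespace Pool.Agent.Lib.BettiInt

variable {G : Type} [Group G] {r : ℕ} {A B : Type} [CommRing A] [Algebra ℂ A] [CommRing B]
  [Algebra ℂ B]

/-- the functions on the complex representation scheme -/
abbrev RC (G : Type) [Group G] (r : ℕ) : Type := ℂ ⊗[ℤ] RepRing G r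

/-- the value at a representation over an algebra -/
noncomputable def val (ρ : G →* GL (Fin r) A) : RC G r →ₐ[ℂ] A := extC (ev ρ)

lemma val_tmul (ρ : G →* GL (Fin r) A) (c : ℂ) (f : RepRing G r) :
    val ρ (c ⊗ₜ[ℤ] f) = algebraMap ℂ A c * ev ρ f := by
  unfold val extC
  rw [Algebra.TensorProduct.lift_tmul]
  rfl

lemma val_nat (φ : A →ₐ[ℂ] B) (ρ : G →* GL (Fin r) A) (x : RC G r) :
    φ (val ρ x) = val (mapRep (φ : A →+* B) ρ) x := by
  have h1 : (φ : A →+* B).comp (ev ρ) = ev (mapRep (φ : A →+* B) ρ) := by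
    refine RingHom.ext fun f => ?_
    rw [ev_mapRep]
    rfl
  unfold val
  rw [← h1, extC_comp']
  rfl

/-- the universal representation over the complex numbers -/
noncomputable def univC (G : Type) [Group G] (r : ℕ) : G →* GL (Fin r) (RC G r) :=
  mapRep (Algebra.TensorProduct.includeRight : RepRing G r →ₐ[ℤ] ℂ ⊗[ℤ] RepRing G r).toRingHom
    (univRep G r)

lemma mapRep_val (ρ : G →* GL (Fin r) A) :
    mapRep (val ρ : RC G r →+* A) (univC G r) = ρ := by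
  unfold univC
  rw [mapRep_comp]
  have h3 : (val ρ : RC G r →+* A).comp
      (Algebra.TensorProduct.includeRight : RepRing G r →ₐ[ℤ] ℂ ⊗[ℤ] RepRing G r).toRingHom =
      ev ρ := by
    refine RingHom.ext fun f => ?_
    change val ρ ((1 : ℂ) ⊗ₜ[ℤ] f) = _
    rw [val_tmul, map_one, one_mul]
  rw [h3, mapRep_ev_univ]

lemma val_univC (x : RC G r) : val (univC G r) x = x := by
  induction x using TensorProduct.induction_on with
  | zero => rw [map_zero]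
  | tmul c f =>
    rw [val_tmul]
    unfold univC
    rw [ev_univ]
    change (c ⊗ₜ[ℤ] (1 : RepRing G r)) * ((1 : ℂ) ⊗ₜ[ℤ] f) = _
    rw [Algebra.TensorProduct.tmul_mul_tmul, mul_one, one_mul]
  | add x y hx hy => rw [map_add, hx, hy]

lemma val_conj_iot (P : GL (Fin r) A) (ρ : G →* GL (Fin r) A) (m : ℂ ⊗[ℤ] Inv G r) :
    val (conj P ρ) (iot G r m) = val ρ (iot G r m) := by
  have : (val (conj P ρ)).comp (iot G r) = (val ρ).comp (iot G r) := by
    refine Algebra.TensorProduct.ext' fun c f => ?_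
    rw [AlgHom.comp_apply, AlgHom.comp_apply, iot_tmul, val_tmul, val_tmul, f.2 A ρ P]
  exact congrArg (fun ψ : (ℂ ⊗[ℤ] Inv G r) →ₐ[ℂ] A => ψ m) this

section
variable {F : Type} [CommRing F] [Algebra ℂ F] (u : GL (Fin r) F) (lam : F →ₗ[ℂ] ℂ)

/-- the function on the unitary group with values in an algebra -/
noncomputable def orb (ρ : G →* GL (Fin r) A) : RC G r →ₐ[ℂ] A ⊗[ℂ] F :=
  val (conj (uA u A)⁻¹ (mapRep (inL F A : A →+* A ⊗[ℂ] F) ρ))

lemma orb_nat (φ : A →ₐ[ℂ] B) (ρ : G →* GL (Fin r) A) (x : RC G r) :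
    tens F φ (orb u ρ x) = orb u (mapRep (φ : A →+* B) ρ) x := by
  unfold orb
  rw [val_nat, conj_mapRep]
  have h1 : Matrix.GeneralLinearGroup.map (tens F φ : A ⊗[ℂ] F →+* B ⊗[ℂ] F) (uA u A)⁻¹ =
      (uA u B)⁻¹ := by
    change glm _ _ = _
    rw [glm_inv, glm_tens_uA]
  have h2 : mapRep (tens F φ : A ⊗[ℂ] F →+* B ⊗[ℂ] F)
      (mapRep (inL F A : A →+* A ⊗[ℂ] F) ρ) =
      mapRep (inL F B : B →+* B ⊗[ℂ] F) (mapRep (φ : A →+* B) ρ) := by
    rw [mapRep_comp, mapRep_comp]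
    congr 1
  rw [h1, h2]

/-- the Reynolds operator -/
noncomputable def Rey (G : Type) [Group G] : RC G r →ₗ[ℂ] RC G r :=
  (mean lam (RC G r)).comp (orb u (univC G r)).toLinearMap

lemma Rey_apply (x : RC G r) : Rey u lam G x = mean lam (RC G r) (orb u (univC G r) x) := rfl

lemma val_Rey (ρ : G →* GL (Fin r) A) (x : RC G r) :
    val ρ (Rey u lam G x) = mean lam A (orb u ρ x) := by
  rw [Rey_apply, mean_nat, orb_nat, mapRep_val]

lemma Rey_one (h1 : lam 1 = 1) : Rey u lam G 1 = 1 := by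
  rw [Rey_apply, map_one]
  change mean lam (RC G r) ((1 : RC G r) ⊗ₜ[ℂ] (1 : F)) = 1
  rw [mean_tmul, h1, one_smul]

lemma Rey_mul_iot (a : RC G r) (m : ℂ ⊗[ℤ] Inv G r) :
    Rey u lam G (a * iot G r m) = Rey u lam G a * iot G r m := by
  rw [Rey_apply, Rey_apply, map_mul]
  have : orb u (univC G r) (iot G r m) = (iot G r m) ⊗ₜ[ℂ] (1 : F) := by
    unfold orb
    rw [val_conj_iot, ← val_nat, val_univC]
    rfl
  rw [this, mean_mul]

variable (hinv : ∀ U : UU r, ∃ T : F →ₐ[ℂ] F,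
    glm (T : F →+* F) u = glm (algebraMap ℂ F) (toGL U) * u ∧ ∀ f, lam (T f) = lam f)

omit lam in
lemma LQ_orb (Q : GL (Fin r) A) (ρ : G →* GL (Fin r) A) (x : RC G r) :
    LQ u Q (val (conj (glm (inR (KK r) A : KK r →+* A ⊗[ℂ] KK r) (XK r))⁻¹
      (mapRep (inL (KK r) A : A →+* A ⊗[ℂ] KK r) ρ)) x) = orb u (conj Q ρ) x := by
  rw [val_nat, conj_mapRep]
  unfold orb
  have h1 : Matrix.GeneralLinearGroup.map (LQ u Q : A ⊗[ℂ] KK r →+* A ⊗[ℂ] F)
      (glm (inR (KK r) A : KK r →+* A ⊗[ℂ] KK r) (XK r))⁻¹ =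
      (uA u A)⁻¹ * glm (inL F A : A →+* A ⊗[ℂ] F) Q := by
    change glm _ _ = _
    rw [glm_inv, glm_glm]
    have h3 : (LQ u Q : A ⊗[ℂ] KK r →+* A ⊗[ℂ] F).comp
        (inR (KK r) A : KK r →+* A ⊗[ℂ] KK r) =
        (evK ((glm (inL F A : A →+* A ⊗[ℂ] F) Q)⁻¹ * uA u A) : KK r →+* A ⊗[ℂ] F) := by
      refine RingHom.ext fun h => ?_
      change LQ u Q ((1 : A) ⊗ₜ[ℂ] h) = _
      unfold LQ
      rw [Algebra.TensorProduct.lift_tmul, map_one, one_mul]
      rfl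
    rw [h3, evK_X, mul_inv_rev, inv_inv]
  have h2 : mapRep (LQ u Q : A ⊗[ℂ] KK r →+* A ⊗[ℂ] F)
      (mapRep (inL (KK r) A : A →+* A ⊗[ℂ] KK r) ρ) =
      mapRep (inL F A : A →+* A ⊗[ℂ] F) ρ := by
    rw [mapRep_comp]
    congr 1
    refine RingHom.ext fun a => ?_
    change LQ u Q (a ⊗ₜ[ℂ] (1 : KK r)) = _
    unfold LQ
    rw [Algebra.TensorProduct.lift_tmul, map_one, mul_one]
    rfl
  rw [h1, h2, conj_mapRep]
  congr 2
  refine MonoidHom.ext fun g => ?_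
  change (uA u A)⁻¹ * glm (inL F A : A →+* A ⊗[ℂ] F) Q * _ *
    ((uA u A)⁻¹ * glm (inL F A : A →+* A ⊗[ℂ] F) Q)⁻¹ =
    (uA u A)⁻¹ * (glm (inL F A : A →+* A ⊗[ℂ] F) Q * _ *
      (glm (inL F A : A →+* A ⊗[ℂ] F) Q)⁻¹) * ((uA u A)⁻¹)⁻¹
  group

include hinv in
lemma val_conj_Rey (Q : GL (Fin r) A) (ρ : G →* GL (Fin r) A) (x : RC G r) :
    val (conj Q ρ) (Rey u lam G x) = val ρ (Rey u lam G x) := by
  rw [val_Rey, val_Rey, ← LQ_orb, mean_LQ u lam hinv Q 1, LQ_orb, conj_one]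

lemma map_ev_eq {B₀ : Type} [CommRing B₀] (ρ : G →* GL (Fin r) B₀) (x : RC G r) :
    Algebra.TensorProduct.map (AlgHom.id ℂ ℂ) (ev ρ).toIntAlgHom x =
      val (mapRep (Algebra.TensorProduct.includeRight :
        B₀ →ₐ[ℤ] ℂ ⊗[ℤ] B₀).toRingHom ρ) x := by
  have : Algebra.TensorProduct.map (AlgHom.id ℂ ℂ) (ev ρ).toIntAlgHom =
      val (mapRep (Algebra.TensorProduct.includeRight :
        B₀ →ₐ[ℤ] ℂ ⊗[ℤ] B₀).toRingHom ρ) := by
    refine Algebra.TensorProduct.ext' fun c f => ?_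
    rw [val_tmul, ev_mapRep]
    change c ⊗ₜ[ℤ] (ev ρ f) = (c ⊗ₜ[ℤ] (1 : B₀)) * ((1 : ℂ) ⊗ₜ[ℤ] (ev ρ f))
    rw [Algebra.TensorProduct.tmul_mul_tmul, mul_one, one_mul]
  rw [this]

include hinv in
/-- the Reynolds operator takes values in the invariants -/
lemma Rey_mem (x : RC G r) : ∃ y : ℂ ⊗[ℤ] Inv G r, iot G r y = Rey u lam G x := by
  refine mem_range_iot _ ?_
  rw [map_ev_eq, map_ev_eq, conj_mapRep, val_conj_Rey u lam hinv]

end

/-- **Every complex point of the Betti moduli space is the point of a representation.** -/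
theorem exists_rep [Group.FG G] (φ : Inv G r →+* ℂ) :
    ∃ ρ : G →* GL (Fin r) ℂ, pt ρ = pointOf φ := by
  obtain ⟨lam, hl1, hl2⟩ := exists_mean r
  have hinv : ∀ U : UU r, ∃ T : FF r →ₐ[ℂ] FF r,
      glm (T : FF r →+* FF r) (uF r) = glm (algebraMap ℂ (FF r)) (toGL U) * uF r ∧
        ∀ f, lam (T f) = lam f := fun U => ⟨trans U, glm_trans U, fun f => hl2 f U⟩
  let 𝔪 : Ideal (ℂ ⊗[ℤ] Inv G r) := RingHom.ker (extC φ)
  have hJ : Ideal.map (iot G r : (ℂ ⊗[ℤ] Inv G r) →+* RC G r) 𝔪 ≠ ⊤ := by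
    intro htop
    have h1 : (1 : RC G r) ∈ Ideal.map (iot G r : (ℂ ⊗[ℤ] Inv G r) →+* RC G r) 𝔪 := by
      rw [htop]
      trivial
    have h2 : ∀ x ∈ Ideal.map (iot G r : (ℂ ⊗[ℤ] Inv G r) →+* RC G r) 𝔪, ∀ a : RC G r,
        ∃ y ∈ 𝔪, iot G r y = Rey (uF r) lam G (a * x) := by
      intro x hx
      refine Submodule.span_induction (p := fun x _ => ∀ a : RC G r,
        ∃ y ∈ 𝔪, iot G r y = Rey (uF r) lam G (a * x)) ?_ ?_ ?_ ?_ hx
      · rintro _ ⟨m, hm, rfl⟩ a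
        obtain ⟨y, hy⟩ := Rey_mem (uF r) lam hinv a
        refine ⟨y * m, Ideal.mul_mem_left _ _ hm, ?_⟩
        have h3 := Rey_mul_iot (uF r) lam a m
        rw [map_mul, hy]
        exact h3.symm
      · intro a
        exact ⟨0, Ideal.zero_mem _, by rw [mul_zero, map_zero, map_zero]⟩
      · intro x y _ _ hx hy a
        obtain ⟨x', hx1, hx2⟩ := hx a
        obtain ⟨y', hy1, hy2⟩ := hy a
        exact ⟨x' + y', Ideal.add_mem _ hx1 hy1, by rw [map_add, hx2, hy2, mul_add, map_add]⟩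
      · intro b x _ hx a
        obtain ⟨x', hx1, hx2⟩ := hx (a * b)
        exact ⟨x', hx1, by rw [hx2, smul_eq_mul, mul_assoc]⟩
    obtain ⟨y, hy, hy2⟩ := h2 1 h1 1
    rw [mul_one, Rey_one (uF r) lam hl1] at hy2
    have hy3 : y = 1 := iot_injective (by rw [hy2, map_one])
    rw [hy3] at hy
    have h4 : extC φ 1 = 0 := hy
    rw [map_one] at h4
    exact one_ne_zero h4
  obtain ⟨M, hM, hle⟩ := Ideal.exists_le_maximal _ hJ
  have hft : Algebra.FiniteType ℤ (RepRing G r) := finiteType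
  have hft2 : Algebra.FiniteType ℂ (ℂ ⊗[ℤ] RepRing G r) :=
    Algebra.FiniteType.baseChange (R := ℤ) (A := RepRing G r) ℂ
  obtain ⟨ψ, hψ, -⟩ := exists_point M hM.isPrime 1 (fun h => hM.ne_top (M.eq_top_iff_one.2 h))
  refine ⟨mapRep (ψ : RC G r →+* ℂ) (univC G r), ?_⟩
  have hval : ∀ x, val (mapRep (ψ : RC G r →+* ℂ) (univC G r)) x = ψ x := by
    intro x
    rw [← val_nat, val_univC]
  have hker : ∀ m ∈ 𝔪, extC (evI (mapRep (ψ : RC G r →+* ℂ) (univC G r))) m = 0 := by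
    intro m hm
    rw [← extC_ev_iot]
    have h5 := hval (iot G r m)
    unfold val at h5
    rw [h5]
    exact hψ _ (hle (Ideal.mem_map_of_mem _ hm))
  refine PrimeSpectrum.ext ?_
  change RingHom.ker (extC (evI (mapRep (ψ : RC G r →+* ℂ) (univC G r)))) = RingHom.ker (extC φ)
  refine le_antisymm ?_ hker
  intro x hx
  have h6 : x - (extC φ x) • (1 : ℂ ⊗[ℤ] Inv G r) ∈ 𝔪 := by
    change extC φ _ = 0
    rw [map_sub, map_smul, map_one, smul_eq_mul, mul_one, sub_self]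
  have h7 := hker _ h6
  have hx' : extC (evI (mapRep (ψ : RC G r →+* ℂ) (univC G r))) x = 0 := hx
  rw [map_sub, map_smul, map_one, hx', smul_eq_mul, mul_one, zero_sub, neg_eq_zero] at h7
  exact h7

end Pool.Agent.Lib.BettiInt
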