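import Pool.Agent.Lib.MP_89b6e6_ag.Generic

/-!
Irreducible sets of representations (for the topology induced from the Betti moduli space) and
continuity of natural constructions.
-/

open TensorProduct

namespace Pool.Agent.Lib.BettiInt

/-- The image of two irreducible sets under a separately continuous map is irreducible. -/
lemma image2_irr {X Y Z : Type} [TopologicalSpace X] [TopologicalSpace Y] [TopologicalSpace Z]
    (f : X → Y → Z) (h1 : ∀ y, Continuous (fun x => f x y)) (h2 : ∀ x, Continuous (f x))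
    {S : Set X} {T : Set Y} (hS : IsPreirreducible S) (hT : IsPreirreducible T) :
    IsPreirreducible (Set.image2 f S T) := by
  rintro u v hu hv ⟨_, ⟨x1, hx1, y1, hy1, rfl⟩, hu1⟩ ⟨_, ⟨x2, hx2, y2, hy2, rfl⟩, hv1⟩
  obtain ⟨x, hx, hxu, hxv⟩ := hS _ _ (hu.preimage (h1 y1)) (hv.preimage (h1 y2))
    ⟨x1, hx1, hu1⟩ ⟨x2, hx2, hv1⟩
  obtain ⟨y, hy, hyu, hyv⟩ := hT _ _ (hu.preimage (h2 x)) (hv.preimage (h2 x))
    ⟨y1, hy1, hxu⟩ ⟨y2, hy2, hxv⟩
  exact ⟨f x y, ⟨x, hx, y, hy, rfl⟩, hyu, hyv⟩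

/-- The complex representations, with the topology induced from the Betti moduli space. -/
def RepC (G : Type) [Group G] (r : ℕ) : Type := G →* GL (Fin r) ℂ

variable {G H : Type} [Group G] [Group H] {r n : ℕ}

/-- the point of a representation -/
noncomputable def ptC (ρ : RepC G r) : MB G r := pt (show G →* GL (Fin r) ℂ from ρ)

noncomputable instance : TopologicalSpace (RepC G r) :=
  TopologicalSpace.induced ptC inferInstance

lemma continuous_ptC : Continuous (ptC : RepC G r → MB G r) := continuous_induced_dom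

/-- the representations with point in a component -/
lemma irr_component [Group.FG G] (W : Set (MB G r)) (hW : W ∈ irreducibleComponents (MB G r)) :
    IsPreirreducible {ρ : RepC G r | ptC ρ ∈ W} := by
  intro u v hu hv h1 h2
  obtain ⟨U, hU, rfl⟩ := isOpen_induced_iff.1 hu
  obtain ⟨V, hV, rfl⟩ := isOpen_induced_iff.1 hv
  obtain ⟨ρ1, hρ1, hρ1U⟩ := h1
  obtain ⟨ρ2, hρ2, hρ2V⟩ := h2
  have hWi : IsIrreducible W := hW.1
  have hne := hWi.2 U V hU hV ⟨_, hρ1, hρ1U⟩ ⟨_, hρ2, hρ2V⟩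
  obtain ⟨x, hx, hxU, hxV⟩ := hne
  obtain ⟨ρ, h3, h4, -⟩ := generic_point W hW (U ∩ V) (hU.inter hV) ⟨x, ⟨hxU, hxV⟩, hx⟩
  exact ⟨ρ, h4, h3.1, h3.2⟩

/-- Two representations are linked: they lie in a common irreducible set. -/
def Linked (ρ ρ' : G →* GL (Fin r) ℂ) : Prop :=
  ∃ S : Set (RepC G r), IsPreirreducible S ∧ (show RepC G r from ρ) ∈ S ∧ (show RepC G r from ρ') ∈ S

/-- a representation linked to a representation whose point lies on one component only -/
lemma linked_mem {ρ ρ' : G →* GL (Fin r) ℂ} (h : Linked ρ ρ') (W : Set (MB G r))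
    (hW : ∀ W' ∈ irreducibleComponents (MB G r), pt ρ ∈ W' → W' = W) : pt ρ' ∈ W := by
  obtain ⟨S, hS, h1, h2⟩ := h
  have h3 : IsPreirreducible (ptC '' S) := hS.image _ continuous_ptC.continuousOn
  obtain ⟨W', hW', hsub⟩ : ∃ W' ∈ irreducibleComponents (MB G r), ptC '' S ⊆ W' := by
    obtain ⟨t, ht, hst, hmax⟩ := exists_preirreducible (ptC '' S) h3
    refine ⟨t, ?_, hst⟩
    refine ⟨⟨⟨_, hst ⟨_, h1, rfl⟩⟩, ht⟩, ?_⟩
    intro u hu htu
    exact (hmax u hu.2 htu).le
  have h4 : W' = W := hW W' hW' (hsub ⟨_, h1, rfl⟩)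
  rw [← h4]
  exact hsub ⟨_, h2, rfl⟩

end Pool.Agent.Lib.BettiInt
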