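import Pool.Agent.Lib.MP_89b6e6_ag.Diag

/-!
Reduction of a virtually solvable representation to one in which a normal subgroup of finite
index acts diagonally.
-/

namespace Pool.Agent.Lib.BettiInt

open Module

variable {G : Type} [Group G] {r : ℕ}

lemma exists_propS (ρ : G →* GL (Fin r) ℂ) (N₀ : Subgroup G) (hN₀ : N₀.FiniteIndex) :
    ∃ N : Subgroup G, N ≤ N₀ ∧ N.Normal ∧ N.FiniteIndex ∧ PropS N ρ := by
  classical
  let sp : Subgroup G → Submodule ℂ (Matrix (Fin r) (Fin r) ℂ) := fun K =>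
    Submodule.span ℂ ((fun k => (ρ k : Matrix (Fin r) (Fin r) ℂ)) '' (K : Set G))
  obtain ⟨N₁, ⟨h1, h2⟩, hmin⟩ := WellFounded.has_min
    (measure (fun K : Subgroup G => finrank ℂ (sp K))).wf
    {K | K ≤ N₀ ∧ K.FiniteIndex} ⟨N₀, le_rfl, hN₀⟩
  have hNle : N₁.normalCore ≤ N₁ := Subgroup.normalCore_le N₁
  refine ⟨N₁.normalCore, hNle.trans h1, inferInstance, inferInstance, ?_⟩
  intro K hK hKf n hn
  have hsub : sp K ≤ sp N₁ := Submodule.span_mono (Set.image_mono (hK.trans hNle))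
  have hfr : finrank ℂ (sp N₁) ≤ finrank ℂ (sp K) := by
    by_contra hlt
    exact hmin K ⟨(hK.trans hNle).trans h1, hKf⟩ (not_le.1 hlt)
  have heq := Submodule.eq_of_le_of_finrank_le hsub hfr
  change (ρ n : Matrix (Fin r) (Fin r) ℂ) ∈ sp K
  rw [heq]
  exact Submodule.subset_span ⟨n, hNle hn, rfl⟩

lemma solvDeg_mono (ρ : G →* GL (Fin r) ℂ) (N N₀ : Subgroup G) (h : N ≤ N₀) (k : ℕ)
    (hk : SolvDeg N₀ ρ k) : SolvDeg N ρ k := by
  intro x hx
  have h1 := map_derivedSeries_le_derivedSeries (Subgroup.inclusion h) k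
  exact hk (Subgroup.inclusion h x) (h1 ⟨x, hx, rfl⟩)

lemma exists_N (ρ : G →* GL (Fin r) ℂ) (h : VirtuallySolvable ρ) :
    ∃ N : Subgroup G, N.Normal ∧ N.FiniteIndex ∧ PropS N ρ ∧ ∃ k, SolvDeg N ρ k := by
  obtain ⟨H, hH1, hH2⟩ := h
  obtain ⟨k, hk⟩ := hH2
  let N₀ : Subgroup G := H.comap ρ.rangeRestrict
  have hN₀ : N₀.FiniteIndex := by
    constructor
    rw [Subgroup.index_comap_of_surjective H ρ.rangeRestrict_surjective]
    exact hH1.index_ne_zero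
  have hsol : SolvDeg N₀ ρ k := by
    intro x hx
    let f : N₀ →* H := (ρ.rangeRestrict.subgroupComap H)
    have h1 := map_derivedSeries_le_derivedSeries f k
    have h2 : f x ∈ derivedSeries H k := h1 ⟨x, hx, rfl⟩
    rw [hk, Subgroup.mem_bot] at h2
    have h3 : ((f x : H) : ρ.range) = 1 := by rw [h2]; rfl
    have h4 : (((f x : H) : ρ.range) : GL (Fin r) ℂ) = ρ x := rfl
    rw [← h4, h3]
    rfl
  obtain ⟨N, h1, h2, h3, h4⟩ := exists_propS ρ N₀ hN₀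
  exact ⟨N, h2, h3, h4, k, solvDeg_mono ρ N N₀ h1 k hsol⟩

lemma exists_diag_of_span (N : Subgroup G) (ρ : G →* GL (Fin r) ℂ) (h : SE N ρ = ⊤) :
    ∃ ρ' : G →* GL (Fin r) ℂ, SameInv ρ ρ' ∧
      ∀ n ∈ N, ∀ i j, i ≠ j → (ρ' n : Matrix (Fin r) (Fin r) ℂ) i j = 0 := by
  classical
  have hs : ⊤ ≤ Submodule.span ℂ (CE N ρ) := h.ge
  let b₀ := Module.Basis.ofSpan hs
  have hcard : Fintype.card (Fin r) = finrank ℂ (Fin r → ℂ) := by simp
  have : Fintype ((linearIndepOn_empty ℂ id).extend (Set.empty_subset (CE N ρ))) :=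
    FiniteDimensional.fintypeBasisIndex b₀
  have hc2 : Fintype.card ((linearIndepOn_empty ℂ id).extend (Set.empty_subset (CE N ρ))) = r := by
    rw [← Module.finrank_eq_card_basis b₀]
    simp
  let b : Module.Basis (Fin r) ℂ (Fin r → ℂ) := b₀.reindex (Fintype.equivFinOfCardEq hc2)
  have hb : ∀ i, b i ∈ CE N ρ := by
    intro i
    have h1 : b i ∈ Set.range b₀ := by
      rw [Module.Basis.reindex_apply]
      exact ⟨_, rfl⟩
    exact Module.Basis.ofSpan_subset hs h1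
  let B := Pi.basisFun ℂ (Fin r)
  let Q : GL (Fin r) ℂ :=
    { val := B.toMatrix b
      inv := b.toMatrix B
      val_inv := Module.Basis.toMatrix_mul_toMatrix_flip B b
      inv_val := Module.Basis.toMatrix_mul_toMatrix_flip b B }
  refine ⟨conj Q⁻¹ ρ, sameInv_conj _ _, ?_⟩
  intro n hn i j hij
  obtain ⟨c, hc⟩ := hb j n hn
  have hQ : ∀ j, (Q : Matrix (Fin r) (Fin r) ℂ).mulVec (Pi.single j 1) = b j := by
    intro j
    rw [Matrix.mulVec_single_one]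
    ext k
    simp [Q, B, Module.Basis.toMatrix_apply]
  have h1 : ((conj Q⁻¹ ρ) n : Matrix (Fin r) (Fin r) ℂ).mulVec (Pi.single j 1) =
      c • Pi.single j 1 := by
    have e : ((conj Q⁻¹ ρ) n : Matrix (Fin r) (Fin r) ℂ) =
      ((Q⁻¹ : GL (Fin r) ℂ) : Matrix (Fin r) (Fin r) ℂ) * (ρ n : Matrix (Fin r) (Fin r) ℂ) *
        (Q : Matrix (Fin r) (Fin r) ℂ) := by
      simp [conj]
    rw [e, ← Matrix.mulVec_mulVec, ← Matrix.mulVec_mulVec, hQ, hc, Matrix.mulVec_smul, ← hQ,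
      Matrix.mulVec_mulVec, ← Units.val_mul, inv_mul_cancel, Units.val_one, Matrix.one_mulVec]
  have h2 := congrFun h1 i
  rw [Matrix.mulVec_single_one] at h2
  simpa [Pi.single_apply, hij] using h2

/-- **Reduction.** -/
theorem exists_diag (ρ : G →* GL (Fin r) ℂ) (h : VirtuallySolvable ρ) :
    ∃ (N : Subgroup G) (ρ' : G →* GL (Fin r) ℂ), N.Normal ∧ N.FiniteIndex ∧ SameInv ρ ρ' ∧
      ∀ n ∈ N, ∀ i j, i ≠ j → (ρ' n : Matrix (Fin r) (Fin r) ℂ) i j = 0 := by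
  obtain ⟨N, h1, h2, h3, k, h4⟩ := exists_N ρ h
  obtain ⟨ρ₁, h5, h6⟩ := exists_span N ρ h3 k h4
  obtain ⟨ρ₂, h7, h8⟩ := exists_diag_of_span N ρ₁ h6
  exact ⟨N, ρ₂, h1, h2, h5.trans h7, h8⟩

end Pool.Agent.Lib.BettiInt
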